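import Pool.Agent.SDE.BlkA

/-!
# SDL/CMany
Most blocks of the enumeration are good (with uncovered elements).
-/

namespace SDE
namespace AbsDrawing

variable {V : Type*} [DecidableEq V] (D : AbsDrawing V)

/-- **Many good blocks.** Proof: as `many_good` in `SDE/BlkA.lean` (copy that proof) with
`S = {i < N | z i ∈ H ∨ z i ∉ C}`, whose cardinality is at most
`H.card + U.card`, `U = {i < N | z i ∉ C}`; the number of bad positions is at most
`2 * S.card + 2 * H.card ≤ 8 * m + 2 * U.card`. -/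
theorem many_goodR {v : V} {E : Finset V} (hv : v ∉ E) {G : ℕ} (hG : 2 ≤ G) {z : ℕ → V}
    (hz : D.Enum v E z) {m : ℕ} {H C : Finset V} {h : V → V} (hHE : H ⊆ E)
    (hHm : H.card ≤ 2 * m) (hh : ∀ y ∈ C, y ∉ H → h y ∈ H)
    (hna : ∀ y ∈ C, y ∉ H → ∀ y' ∈ C, y' ∉ H → ¬ D.Alt v y (h y) y' (h y')) :
    E.card / G ≤ ((Finset.range (E.card / G)).filter (fun j => ∀ i, j * G ≤ i → i < j * G + G →
      z i ∈ C ∧ z i ∉ H ∧ h (z i) = h (z (j * G)))).card + 8 * m +
        2 * ((Finset.range E.card).filter (fun i => z i ∉ C)).card := by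
  set U : Finset ℕ := (Finset.range E.card).filter (fun i => z i ∉ C) with hU
  set S : Finset ℕ := (Finset.range E.card).filter (fun i => z i ∈ H ∨ z i ∉ C) with hS
  have hSm : ∀ i, i < E.card → i ∉ S → z i ∈ C ∧ z i ∉ H := by
    intro i hi h1
    refine ⟨?_, ?_⟩
    · by_contra h2
      exact h1 (Finset.mem_filter.2 ⟨Finset.mem_range.2 hi, Or.inr h2⟩)
    · intro h2
      exact h1 (Finset.mem_filter.2 ⟨Finset.mem_range.2 hi, Or.inl h2⟩)
  have hScard : S.card ≤ H.card + U.card := by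
    have h1 : S ⊆ (Finset.range E.card).filter (fun i => z i ∈ H) ∪ U := by
      intro i hi
      obtain ⟨hi1, hi2⟩ := Finset.mem_filter.1 hi
      rcases hi2 with h2 | h2
      · exact Finset.mem_union_left _ (Finset.mem_filter.2 ⟨hi1, h2⟩)
      · exact Finset.mem_union_right _ (Finset.mem_filter.2 ⟨hi1, h2⟩)
    have h2 : ((Finset.range E.card).filter (fun i => z i ∈ H)).card ≤ H.card := by
      refine Finset.card_le_card_of_injOn z (fun i hi => (Finset.mem_filter.1 hi).2) ?_
      intro i hi j hj he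
      exact hz.inj (Finset.mem_range.1 (Finset.mem_filter.1 hi).1)
        (Finset.mem_range.1 (Finset.mem_filter.1 hj).1) he
    have h3 := Finset.card_le_card h1
    have h4 := Finset.card_union_le ((Finset.range E.card).filter (fun i => z i ∈ H)) U
    omega
  have hHv : ∀ a ∈ H, a ≠ v := fun a ha hc => hv (hc ▸ hHE ha)
  have hzv : ∀ i, i < E.card → z i ≠ v := fun i hi hc => hv (hc ▸ hz.mem i hi)
  have hfew := few_changes E.card S H (fun i => h (z i))
    (fun i hi h1 => hh _ (hSm i hi h1).1 (hSm i hi h1).2) (by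
      intro i j k l hij hjk hkl hl hiS hjS hkS hlS h1 h2
      by_contra hne
      have li : i < E.card := by omega
      have lj : j < E.card := by omega
      have lk : k < E.card := by omega
      obtain ⟨ci, ni⟩ := hSm i li hiS
      obtain ⟨cj, nj⟩ := hSm j lj hjS
      obtain ⟨ck, nk⟩ := hSm k lk hkS
      obtain ⟨cl, nl⟩ := hSm l hl hlS
      have hai : h (z i) ∈ H := hh _ ci ni
      have hbj : h (z j) ∈ H := hh _ cj nj
      have nn : ∀ a ∈ H, ∀ y, y ∉ H → a ≠ y := fun a ha y hy hc => hy (hc ▸ ha)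
      have n1 := hna _ ci ni _ cj nj
      have n2 := hna _ ci ni _ cl nl
      have n3 := hna _ ck nk _ cj nj
      have n4 := hna _ ck nk _ cl nl
      rw [← h2] at n2 n4
      rw [← h1] at n3 n4
      exact D.no_abab (hHv _ hai) (hHv _ hbj) (hzv i li) (hzv j lj) (hzv k lk) (hzv l hl)
        (hz.mono i j hij lj) (hz.mono j k hjk lk) (hz.mono k l hkl hl) hne
        ⟨nn _ hai _ ni, nn _ hai _ nj, nn _ hai _ nk, nn _ hai _ nl⟩
        ⟨nn _ hbj _ ni, nn _ hbj _ nj, nn _ hbj _ nk, nn _ hbj _ nl⟩ n1 n2 n3 n4)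
  set bad : Finset ℕ := (Finset.range (E.card - 1)).filter
    (fun i => i ∈ S ∨ i + 1 ∈ S ∨ h (z i) ≠ h (z (i + 1))) with hbad
  have hfew' : bad.card ≤ 2 * S.card + 2 * H.card := hfew
  have hgb := good_blocks E.card G (by omega) bad
  have hsub : ((Finset.range (E.card / G)).filter
      (fun j => ∀ i ∈ bad, ¬ (j * G ≤ i ∧ i + 1 < j * G + G))).card ≤
      ((Finset.range (E.card / G)).filter (fun j => ∀ i, j * G ≤ i → i < j * G + G →
      z i ∈ C ∧ z i ∉ H ∧ h (z i) = h (z (j * G)))).card := by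
    apply Finset.card_le_card
    intro j hj
    obtain ⟨hj1, hj2⟩ := Finset.mem_filter.1 hj
    refine Finset.mem_filter.2 ⟨hj1, ?_⟩
    have hj3 : j + 1 ≤ E.card / G := Finset.mem_range.1 hj1
    have hj4 : (j + 1) * G ≤ E.card :=
      (Nat.mul_le_mul_right G hj3).trans (Nat.div_mul_le_self _ _)
    rw [add_mul, one_mul] at hj4
    have hstep : ∀ i, j * G ≤ i → i + 1 < j * G + G →
        i ∉ S ∧ i + 1 ∉ S ∧ h (z i) = h (z (i + 1)) := by
      intro i hi1 hi2
      have h1 : i ∉ bad := fun hc => hj2 i hc ⟨hi1, hi2⟩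
      have h2 : i ∈ Finset.range (E.card - 1) := Finset.mem_range.2 (by omega)
      have h3 : ¬ (i ∈ S ∨ i + 1 ∈ S ∨ h (z i) ≠ h (z (i + 1))) := fun hc =>
        h1 (Finset.mem_filter.2 ⟨h2, hc⟩)
      refine ⟨fun hc => h3 (Or.inl hc), fun hc => h3 (Or.inr (Or.inl hc)), ?_⟩
      by_contra hc
      exact h3 (Or.inr (Or.inr hc))
    have key : ∀ t, t < G → z (j * G + t) ∈ C ∧ z (j * G + t) ∉ H ∧
        h (z (j * G + t)) = h (z (j * G)) := by
      intro t
      induction t with
      | zero =>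
        intro _
        have h0 := hSm _ (by omega) (hstep (j * G) le_rfl (by omega)).1
        exact ⟨h0.1, h0.2, rfl⟩
      | succ t ih =>
        intro ht
        obtain ⟨-, h2, h3⟩ := hstep (j * G + t) (by omega) (by omega)
        have h0 := hSm _ (by omega) h2
        exact ⟨h0.1, h0.2, h3.symm.trans (ih (by omega)).2.2⟩
    intro i hi1 hi2
    obtain ⟨t, rfl⟩ := Nat.exists_eq_add_of_le hi1
    exact key t (by omega)
  omega

end AbsDrawing
end SDE
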