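import Pool.Agent.SDE.BlkB

/-!
# SDL/CPm
Pairs in different blocks are disjoint edges (explicit matching).
-/

namespace SDE
namespace AbsDrawing

variable {V : Type*} [DecidableEq V] (D : AbsDrawing V)

private theorem blk_eq {G j k p : ℕ} (h1 : j * G ≤ p) (h2 : p < j * G + G) (h3 : k * G ≤ p)
    (h4 : p < k * G + G) : j = k := by
  rcases lt_trichotomy j k with h | h | h
  · have h5 := Nat.mul_le_mul_right G (Nat.succ_le_of_lt h)
    rw [Nat.succ_mul] at h5
    omega
  · exact h
  · have h5 := Nat.mul_le_mul_right G (Nat.succ_le_of_lt h)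
    rw [Nat.succ_mul] at h5
    omega

/-- Pairs in different blocks. Proof: exactly the proof of `pairs_pm` in `SDE/BlkB.lean` (copy it,
with the private lemma `blk_eq`): `M = J.image (fun j => (z (s j), z (t j)))`; the last claim by
`Finset.mem_image`. -/
theorem pairs_pmR {v : V} {X : Finset V} (hv : v ∉ X) {G : ℕ} {z : ℕ → V}
    (hz : D.Enum v X z) (J : Finset ℕ) (hJ : ∀ j ∈ J, j < X.card / G) (s t : ℕ → ℕ)
    (hs : ∀ j ∈ J, j * G ≤ s j ∧ s j < t j ∧ t j < j * G + G)
    (hcr : ∀ j ∈ J, ∀ u ∈ X, (∀ i, j * G ≤ i → i < j * G + G → u ≠ z i) →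
      D.cr (z (s j)) (z (t j)) v u = false) (R : V → V → Prop)
    (hR : ∀ j ∈ J, R (z (s j)) (z (t j))) :
    ∃ M, D.IsPM X M ∧ M.card = J.card ∧ ∀ p ∈ M, R p.1 p.2 := by
  have hb : ∀ j ∈ J, j * G + G ≤ X.card := by
    intro j hj
    have h1 := Nat.mul_le_mul_right G (Nat.succ_le_of_lt (hJ j hj))
    rw [Nat.succ_mul] at h1
    exact h1.trans (Nat.div_mul_le_self _ _)
  have hsX : ∀ j ∈ J, s j < X.card := fun j hj => by
    have h1 := hs j hj
    have h2 := hb j hj
    omega
  have htX : ∀ j ∈ J, t j < X.card := fun j hj => by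
    have h1 := hs j hj
    have h2 := hb j hj
    omega
  -- a position of the block `k` is not in the block `j`
  have hout : ∀ j ∈ J, ∀ k, j ≠ k → ∀ p, p < X.card → k * G ≤ p → p < k * G + G →
      ∀ i, j * G ≤ i → i < j * G + G → z p ≠ z i := by
    intro j hj k hjk p hp h1 h2 i h3 h4 he
    have h5 := hb j hj
    have h6 := hz.inj hp (by omega) he
    subst h6
    exact hjk (blk_eq h3 h4 h1 h2)
  have hvx : ∀ p, p < X.card → v ≠ z p := by
    rintro p hp rfl
    exact hv (hz.mem p hp)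
  refine ⟨J.image fun j => (z (s j), z (t j)), ⟨?_, ?_⟩, ?_, ?_⟩
  · intro p hp
    obtain ⟨j, hj, rfl⟩ := Finset.mem_image.1 hp
    refine ⟨hz.mem _ (hsX j hj), hz.mem _ (htX j hj), fun he => ?_⟩
    have h1 := hz.inj (hsX j hj) (htX j hj) he
    have h2 := (hs j hj).2.1
    omega
  · intro p hp q hq hpq
    obtain ⟨j, hj, rfl⟩ := Finset.mem_image.1 hp
    obtain ⟨k, hk, rfl⟩ := Finset.mem_image.1 hq
    have hjk : j ≠ k := by
      rintro rfl
      exact hpq rfl
    have sj := hs j hj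
    have sk := hs k hk
    have a1 := hout j hj k hjk (s k) (hsX k hk) sk.1 (by omega)
    have a2 := hout j hj k hjk (t k) (htX k hk) (by omega) sk.2.2
    have b1 := hout k hk j hjk.symm (s j) (hsX j hj) sj.1 (by omega)
    have b2 := hout k hk j hjk.symm (t j) (htX j hj) (by omega) sj.2.2
    have n1 : z (s j) ≠ z (s k) := b1 (s k) sk.1 (by omega)
    have n2 : z (s j) ≠ z (t k) := b1 (t k) (by omega) sk.2.2
    have n3 : z (t j) ≠ z (s k) := b2 (s k) sk.1 (by omega)
    have n4 : z (t j) ≠ z (t k) := b2 (t k) (by omega) sk.2.2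
    refine ⟨n1, n2, n3, n4, ?_⟩
    have e1 : z (s j) ≠ z (t j) := fun he => by
      have h1 := hz.inj (hsX j hj) (htX j hj) he
      omega
    have e2 : z (s k) ≠ z (t k) := fun he => by
      have h1 := hz.inj (hsX k hk) (htX k hk) he
      omega
    have h5 := D.p5 (hvx _ (hsX j hj)) (hvx _ (htX j hj)) e1 (hvx _ (hsX k hk)).symm n1.symm
      n3.symm (hvx _ (htX k hk)).symm n2.symm n4.symm e2
    have c1 : D.cr (z (s k)) (z (t k)) v (z (s j)) = false :=
      hcr k hk _ (hz.mem _ (hsX j hj)) b1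
    have c2 : D.cr (z (s k)) (z (t k)) v (z (t j)) = false :=
      hcr k hk _ (hz.mem _ (htX j hj)) b2
    have c3 : D.cr (z (s j)) (z (t j)) v (z (s k)) = false :=
      hcr j hj _ (hz.mem _ (hsX k hk)) a1
    have c4 : D.cr (z (s j)) (z (t j)) v (z (t k)) = false :=
      hcr j hj _ (hz.mem _ (htX k hk)) a2
    have d1 : D.btw v (z (s j)) (z (t j)) (z (s k)) = false :=
      hz.out sj.1 sj.2.1 sj.2.2 (hb j hj) (hz.mem _ (hsX k hk)) a1
    have d2 : D.btw v (z (s j)) (z (t j)) (z (t k)) = false :=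
      hz.out sj.1 sj.2.1 sj.2.2 (hb j hj) (hz.mem _ (htX k hk)) a2
    unfold side at h5
    rw [c1, c2, c3, c4, d1, d2] at h5
    rw [← D.cr_comm]
    simpa using h5
  · refine Finset.card_image_of_injOn ?_
    intro j hj k hk he
    have h1 : z (s j) = z (s k) := congrArg Prod.fst he
    have h2 := hz.inj (hsX j hj) (hsX k hk) h1
    have h3 := hs j hj
    have h4 := hs k hk
    rw [h2] at h3
    exact blk_eq h3.1 (by omega) h4.1 (by omega)
  · intro p hp
    obtain ⟨j, hj, rfl⟩ := Finset.mem_image.1 hp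
    exact hR j hj

end AbsDrawing
end SDE
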