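import Pool.Agent.SDL.CHub
import Pool.Agent.SDL.CMany
import Pool.Agent.SDL.CPm
import Pool.Agent.SDE.LemG
import Pool.Agent.SDE.WBlk

/-!
# SDL/CBlk
The block lemma for a relation `R`.
-/

namespace SDE
namespace AbsDrawing

variable {V : Type*} [DecidableEq V] (D : AbsDrawing V)

/-- **Block lemma for a relation `R`.** Proof (cf. `block` in `SDE/Block.lean`). `M0, H, C, h` from
`hubR`; `I = {i < N | z i ∉ C}`, `N = E.card`. The last claim: if `z i ∉ C` then the hypotheses of the
last property of `hubR` cannot hold. `many_goodR` with `m = M0.card`: the set `Jg` of good blocks has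
`N / G ≤ Jg.card + 8 * M0.card + 2 * I.card`. For a good block `j` put
`w = h (z (j * G)) ∈ H ⊆ E`; for all `i` in the block `Unc v E (z i) w`, `R (z i) w`, `w ≠ z i`. Not
all pairs of positions `s < t` of the block have `cr (z s) (z t) v w = true`: otherwise
`fun i => z (j * G + i)` would be a `WBlock` (as in `SDE/Block.lean`), against `hnoW`. So choose
`s j < t j` in the block with `cr (z (s j)) (z (t j)) v w = false`. For `u ∈ E` outside the block
`cr (z (s j)) (z (t j)) v u = false` (`u = w`, or `lemG`, as in `SDE/Block.lean`).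
`R' (z (s j)) (z (t j))` by `hRR`. `pairs_pmR` gives `M1`, `M1.card = Jg.card`. Take for `M` the
larger one of `M0` and `M1` (for `M0` use `hR1`):
`N / G ≤ M1.card + 8 * M0.card + 2 * I.card ≤ 9 * M.card + 2 * I.card`. -/
theorem blockR {v : V} {E : Finset V} (hv : v ∉ E) {G : ℕ} (hG : 2 ≤ G) {z : ℕ → V}
    (hz : D.Enum v E z) (R R' : V → V → Prop) (hsym : ∀ x y, R x y → R y x)
    (hR1 : ∀ x y, R x y → R' x y)
    (hRR : ∀ x ∈ E, ∀ y ∈ E, ∀ w ∈ E, R x w → R y w → R' x y)
    (hnoW : ∀ (w : V) (y : ℕ → V), D.WBlock v w E G y → ¬ ∀ i, i < G → R (y i) w) :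
    ∃ (M : Finset (V × V)) (I : Finset ℕ), D.IsPM E M ∧ (∀ p ∈ M, R' p.1 p.2) ∧
      E.card / G ≤ 9 * M.card + 2 * I.card ∧
      ∀ i ∈ I, i < E.card ∧ ∀ z', D.Adj v E (z i) z' → R (z i) z' →
        ¬ ∀ w ∈ E, D.cr (z i) z' v w = true → R (z i) w := by
  classical
  obtain ⟨M0, H, C, h, hPM, hMR, hHE, hCE, hHc, hh, hna, hC⟩ := D.hubR hv R hsym
  have hGq : ∀ j, j < E.card / G → j * G + G ≤ E.card := by
    intro j hj
    have h1 : (j + 1) * G ≤ E.card / G * G := Nat.mul_le_mul_right _ hj
    have h2 : E.card / G * G ≤ E.card := Nat.div_mul_le_self _ _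
    have h3 : (j + 1) * G = j * G + G := by ring
    omega
  have hmg := D.many_goodR hv hG hz hHE hHc (fun y hy hyH => (hh y hy hyH).1) hna
  set I := (Finset.range E.card).filter (fun i => z i ∉ C) with hI
  set Jg := ((Finset.range (E.card / G)).filter (fun j => ∀ i, j * G ≤ i → i < j * G + G →
    z i ∈ C ∧ z i ∉ H ∧ h (z i) = h (z (j * G)))) with hJg
  have good : ∀ j ∈ Jg, j < E.card / G ∧ ∀ i, j * G ≤ i → i < j * G + G →
      z i ∈ C ∧ z i ∉ H ∧ h (z i) = h (z (j * G)) := by
    intro j hj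
    rw [hJg, Finset.mem_filter, Finset.mem_range] at hj
    exact hj
  have memX : ∀ j ∈ Jg, ∀ i, j * G ≤ i → i < j * G + G → z i ∈ E := by
    intro j hj i _ hi2
    exact hz.mem i (lt_of_lt_of_le hi2 (hGq j (good j hj).1))
  have hubH : ∀ j ∈ Jg, h (z (j * G)) ∈ H := by
    intro j hj
    have h1 := (good j hj).2 _ le_rfl (by omega)
    exact (hh _ h1.1 h1.2.1).1
  have hubU : ∀ j ∈ Jg, ∀ i, j * G ≤ i → i < j * G + G →
      D.Unc v E (z i) (h (z (j * G))) := by
    intro j hj i hi1 hi2
    have h0 := (good j hj).2 i hi1 hi2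
    have h1 := (hh _ h0.1 h0.2.1).2.1
    rw [h0.2.2] at h1
    exact h1
  have hubR : ∀ j ∈ Jg, ∀ i, j * G ≤ i → i < j * G + G →
      R (z i) (h (z (j * G))) := by
    intro j hj i hi1 hi2
    have h0 := (good j hj).2 i hi1 hi2
    have h1 := (hh _ h0.1 h0.2.1).2.2
    rw [h0.2.2] at h1
    exact h1
  have hubne : ∀ j ∈ Jg, ∀ i, j * G ≤ i → i < j * G + G → h (z (j * G)) ≠ z i := by
    intro j hj i hi1 hi2 he
    exact ((good j hj).2 i hi1 hi2).2.1 (he ▸ hubH j hj)
  have hlast : ∀ i ∈ I, i < E.card ∧ ∀ z', D.Adj v E (z i) z' → R (z i) z' →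
      ¬ ∀ w ∈ E, D.cr (z i) z' v w = true → R (z i) w := by
    intro i hi
    rw [hI, Finset.mem_filter, Finset.mem_range] at hi
    refine ⟨hi.1, fun z' hadj hR hall => hi.2 (hC _ _ hadj hR hall)⟩
  have hex : ∀ j ∈ Jg, ¬ ∀ s t, j * G ≤ s → s < t → t < j * G + G →
      D.cr (z s) (z t) v (h (z (j * G))) = true := by
    intro j hj hall
    refine hnoW (h (z (j * G))) (fun i => z (j * G + i)) ?_ ?_
    · exact
        { vX := hv
          wX := hHE (hubH j hj)
          mem := fun i hi => memX j hj _ (by omega) (by omega)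
          wz := fun i hi => hubne j hj _ (by omega) (by omega)
          mono := fun i k hik hk => hz.mono _ _ (by omega)
            (lt_of_lt_of_le (by omega) (hGq j (good j hj).1))
          hub := fun i hi => hubU j hj _ (by omega) (by omega)
          out := by
            intro i k hik hk u hu hout
            refine hz.out (a := j * G) (b := j * G + G) (by omega) (by omega) (by omega)
              (hGq j (good j hj).1) hu ?_
            intro l hl1 hl2
            have := hout (l - j * G) (by omega)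
            rwa [Nat.add_sub_cancel' hl1] at this
          W := fun i k hik hk => hall _ _ (by omega) (by omega) (by omega) }
    · intro i hi
      exact hubR j hj _ (by omega) (by omega)
  have hex2 : ∀ j : ℕ, ∃ s t : ℕ, j ∈ Jg → (j * G ≤ s ∧ s < t ∧ t < j * G + G ∧
      D.cr (z s) (z t) v (h (z (j * G))) = false) := by
    intro j
    by_cases hj : j ∈ Jg
    · by_contra hcon
      apply hex j hj
      intro s t hs hst ht
      by_contra hc
      exact hcon ⟨s, t, fun _ => ⟨hs, hst, ht, by simpa using hc⟩⟩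
    · exact ⟨0, 0, fun hj' => absurd hj' hj⟩
  choose s t hst using hex2
  have hM1 : ∃ M, D.IsPM E M ∧ M.card = Jg.card ∧ ∀ p ∈ M, R' p.1 p.2 := by
    refine D.pairs_pmR hv hz Jg (fun j hj => (good j hj).1) s t
      (fun j hj => ⟨(hst j hj).1, (hst j hj).2.1, (hst j hj).2.2.1⟩) ?_ R' ?_
    · intro j hj u hu hout
      obtain ⟨h1, h2, h3, h4⟩ := hst j hj
      by_cases huw : u = h (z (j * G))
      · rw [huw]; exact h4
      · have hwX : h (z (j * G)) ∈ E := hHE (hubH j hj)
        refine D.lemG hv (memX j hj _ h1 (by omega)) (memX j hj _ (by omega) h3) hwX hu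
          (hubne j hj _ h1 (by omega)) (hubne j hj _ (by omega) h3) huw
          (hubU j hj _ h1 (by omega)) (hubU j hj _ (by omega) h3) ?_ ?_ h4
        · exact hz.out (a := j * G) (b := j * G + G) h1 h2 h3 (hGq j (good j hj).1) hwX
            (fun k hk1 hk2 => hubne j hj k hk1 hk2)
        · exact hz.out (a := j * G) (b := j * G + G) h1 h2 h3 (hGq j (good j hj).1) hu hout
    · intro j hj
      obtain ⟨h1, h2, h3, h4⟩ := hst j hj
      exact hRR _ (memX j hj _ h1 (by omega)) _ (memX j hj _ (by omega) h3) _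
        (hHE (hubH j hj)) (hubR j hj _ h1 (by omega)) (hubR j hj _ (by omega) h3)
  obtain ⟨M1, hM1a, hM1b, hM1c⟩ := hM1
  rcases le_total M0.card M1.card with hle | hle
  · exact ⟨M1, I, hM1a, hM1c, by omega, hlast⟩
  · exact ⟨M0, I, hPM, fun p hp => hR1 _ _ (hMR p hp), by omega, hlast⟩

end AbsDrawing
end SDE
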