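import Mathlib

/-!
# SDL/CDs
A sequence without alternations at the marked positions.
-/

namespace SDE

/-- **Sequence lemma.** Proof. For `i ∈ I` call `i` *last* if no `i' ∈ I` with `i < i'` has
`c i' = c i`. The map `c` is injective on the last elements of `I` with values in `Z`: at most
`Z.card` of them. On the other elements the map `i ↦ c (i+1)` (values in `Z`) is injective: let
`p < p'` be two of them with `c (p+1) = c (p'+1)`, and `p'' ∈ I`, `p' < p''`, `c p'' = c p'`. Then
`p + 1 ≠ p'` (since `c p' ≠ c (p'+1) = c (p+1)`), so `p + 1 < p'`, and `p'' ≠ p' + 1`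
(`c p'' = c p' ≠ c (p'+1)`), so `p' + 1 < p''`; the positions `p + 1 < p' < p' + 1 < p''` contradict
`hna` for `i = p'`. Hence `I.card ≤ 2 * Z.card`. -/
theorem ds_lemma {β : Type*} [DecidableEq β] (N : ℕ) (c : ℕ → β) (I : Finset ℕ) (Z : Finset β)
    (hI : ∀ i ∈ I, i + 1 < N ∧ c i ≠ c (i + 1)) (hZ : ∀ i, i < N → c i ∈ Z)
    (hna : ∀ i ∈ I, ∀ p q r s, p < q → q < r → r < s → s < N → c p = c (i + 1) → c q = c i →
      c r = c (i + 1) → c s = c i → False) :
    I.card ≤ 2 * Z.card := by
  classical
  set L : Finset ℕ := I.filter (fun i => ∀ i' ∈ I, i < i' → c i' ≠ c i) with hL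
  set M : Finset ℕ := I.filter (fun i => ¬ ∀ i' ∈ I, i < i' → c i' ≠ c i) with hM
  have hsplit : L.card + M.card = I.card := by
    rw [hL, hM]
    exact Finset.card_filter_add_card_filter_not _
  have h1 : L.card ≤ Z.card := by
    apply Finset.card_le_card_of_injOn c
    · intro i hi
      have hi' := Finset.mem_coe.1 hi
      rw [hL, Finset.mem_filter] at hi'
      have := (hI i hi'.1).1
      exact Finset.mem_coe.2 (hZ i (by omega))
    · intro i hi j hj hij
      have hi' := Finset.mem_coe.1 hi
      have hj' := Finset.mem_coe.1 hj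
      rw [hL, Finset.mem_filter] at hi' hj'
      rcases lt_trichotomy i j with h | h | h
      · exact absurd hij.symm (hi'.2 j hj'.1 h)
      · exact h
      · exact absurd hij (hj'.2 i hi'.1 h)
  have key : ∀ p ∈ M, ∀ p' ∈ M, p < p' → c (p + 1) = c (p' + 1) → False := by
    intro p _ p' hp' hlt hc
    rw [hM, Finset.mem_filter] at hp'
    obtain ⟨hp'I, hp'n⟩ := hp'
    push Not at hp'n
    obtain ⟨p'', hp''I, hlt', hcc⟩ := hp'n
    have hne := (hI p' hp'I).2
    have hN := (hI p'' hp''I).1
    have e1 : p + 1 ≠ p' := by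
      intro h
      rw [h] at hc
      exact hne hc
    have e2 : p'' ≠ p' + 1 := by
      intro h
      rw [h] at hcc
      exact hne hcc.symm
    exact hna p' hp'I (p + 1) p' (p' + 1) p'' (by omega) (by omega) (by omega) (by omega)
      hc rfl rfl hcc
  have h2 : M.card ≤ Z.card := by
    apply Finset.card_le_card_of_injOn (fun i => c (i + 1))
    · intro i hi
      have hi' := Finset.mem_coe.1 hi
      rw [hM, Finset.mem_filter] at hi'
      exact Finset.mem_coe.2 (hZ (i + 1) (hI i hi'.1).1)
    · intro i hi j hj hij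
      have hi' := Finset.mem_coe.1 hi
      have hj' := Finset.mem_coe.1 hj
      rcases lt_trichotomy i j with h | h | h
      · exact (key i hi' j hj' h hij).elim
      · exact h
      · exact (key j hj' i hi' h hij.symm).elim
  omega

end SDE
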