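import Pool.Agent.SDL.Defs
import Pool.Agent.SDL.CDs
import Pool.Agent.SDE.Enm
import Pool.Agent.SDE.AltS

/-!
# SDL/CIso
The number of positions whose neighbours are far.
-/

namespace SDE
namespace AbsDrawing

variable {V : Type*} {D : AbsDrawing V} {v : V} {Cl : ℕ → V → V → Prop}

/-- **Lemma 3.4.** Proof. Choose `c i ∈ Z` with `Cl ga (z i) (c i)` for `i < E.card` (`hcov`). All
elements of `E`, `Z` are `≠ v`. Apply `ds_lemma` with `N = E.card` to `c` and
`I' = I.filter (fun i => i + 1 < E.card)`; `I \ I'` has at most one element (`i + 1 = E.card`).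
`c i ≠ c (i+1)` for `i ∈ I'`: otherwise `p2` (and `symm`) gives `Cl (ga - 110) (z i) (z (i+1))`, and
`be ≤ ga - 605` (`mono`) contradicts `hI2`. No alternation: let `p < q < r < s < N` with
`c p = c r = c (i+1)` and `c q = c s = c i`. `p2`: `Cl (ga - 110) (z p) (z r)`,
`Cl (ga - 110) (z q) (z s)`. `Alt v (z p) (z r) (z q) (z s)` (`Enum.mono`, `Enum.inj`: the real
numbers `th v _` increase, so `btw v (z p) (z r) (z q) = true`, `btw v (z p) (z r) (z s) = false`). `p4`:
`Cl (ga - 385) (z p) (z q)`. `p2`: `Cl (ga - 110) (z i) (z q)`,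
`Cl (ga - 110) (z p) (z (i+1))`. Two more applications of `p2` (after `mono`): `Cl (ga - 605) (z i) (z (i+1))`,
contradiction to `hI2` by `mono`. -/
theorem iso_bound [DecidableEq V] (hC : D.CloseSys v Cl) {E : Finset V} (hv : v ∉ E) {z : ℕ → V}
    (hz : D.Enum v E z) {ga be : ℕ} (hbe : be ≤ ga - 605) {Z : Finset V} (hZE : Z ⊆ E)
    (hcov : ∀ x ∈ E, ∃ y ∈ Z, Cl ga x y) {I : Finset ℕ} (hI : ∀ i ∈ I, i < E.card)
    (hI2 : ∀ i ∈ I, i + 1 < E.card → ¬ Cl be (z i) (z (i + 1))) :
    I.card ≤ 2 * Z.card + 1 := by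
  classical
  have hEv : ∀ x ∈ E, x ≠ v := fun x hx h => hv (h ▸ hx)
  have hzv : ∀ i, i < E.card → z i ≠ v := fun i hi => hEv _ (hz.mem i hi)
  obtain ⟨c, hc⟩ : ∃ c : ℕ → V, ∀ i, i < E.card → c i ∈ Z ∧ Cl ga (z i) (c i) := by
    have h : ∀ i, ∃ y, i < E.card → y ∈ Z ∧ Cl ga (z i) y := by
      intro i
      by_cases hi : i < E.card
      · obtain ⟨y, hy, hy'⟩ := hcov _ (hz.mem i hi)
        exact ⟨y, fun _ => ⟨hy, hy'⟩⟩
      · exact ⟨v, fun h => absurd h hi⟩
    choose c hc using h
    exact ⟨c, hc⟩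
  have hcv : ∀ i, i < E.card → c i ≠ v := fun i hi => hEv _ (hZE (hc i hi).1)
  have hcl : ∀ i j, i < E.card → j < E.card → c i = c j → Cl (ga - 110) (z i) (z j) := by
    intro i j hi hj he
    refine hC.p2 (hzv i hi) (hcv i hi) (hzv j hj) (hc i hi).2 ?_
    rw [he]
    exact hC.symm (hc j hj).2
  have hle : I.card ≤ (I.filter (fun i => i + 1 < E.card)).card + 1 := by
    have hsub : I ⊆ insert (E.card - 1) (I.filter (fun i => i + 1 < E.card)) := by
      intro i hi
      rw [Finset.mem_insert, Finset.mem_filter]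
      by_cases h : i + 1 < E.card
      · exact Or.inr ⟨hi, h⟩
      · have := hI i hi
        left
        omega
    exact (Finset.card_le_card hsub).trans (Finset.card_insert_le _ _)
  have hds : (I.filter (fun i => i + 1 < E.card)).card ≤ 2 * Z.card := by
    refine ds_lemma E.card c _ Z ?_ (fun i hi => (hc i hi).1) ?_
    · intro i hi
      rw [Finset.mem_filter] at hi
      refine ⟨hi.2, fun he => hI2 i hi.1 hi.2 ?_⟩
      exact hC.mono (by omega) (hcl i (i + 1) (by omega) hi.2 he)
    · intro i hi p q r s hpq hqr hrs hs ep eq er es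
      rw [Finset.mem_filter] at hi
      have hi' : i + 1 < E.card := hi.2
      have h1 : Cl (ga - 110) (z p) (z r) :=
        hcl p r (by omega) (by omega) (ep.trans er.symm)
      have h2 : Cl (ga - 110) (z q) (z s) := hcl q s (by omega) hs (eq.trans es.symm)
      have m1 := hz.mono p q hpq (by omega)
      have m2 := hz.mono q r hqr (by omega)
      have m3 := hz.mono r s hrs hs
      have hne : ∀ a b, a < b → b < E.card → z a ≠ z b := by
        intro a b hab hb he
        have := hz.inj (by omega) hb he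
        omega
      have halt : D.Alt v (z p) (z r) (z q) (z s) := by
        refine ⟨(hne p q hpq (by omega)).symm, hne q r hqr (by omega),
          (hne p s (by omega) hs).symm, (hne r s hrs hs).symm, ?_⟩
        have e1 : D.btw v (z p) (z r) (z q) = true := by
          unfold btw
          rw [decide_eq_true_eq]
          exact Or.inl ⟨m1, m2⟩
        have e2 : D.btw v (z p) (z r) (z s) = false := by
          unfold btw
          rw [decide_eq_false_iff_not]
          rintro (⟨h3, h4⟩ | ⟨h3, h4⟩) <;> linarith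
        rw [e1, e2]
        decide
      have l1 : ga - 385 ≤ ga - 110 - 275 := by rw [Nat.sub_sub]
      have l2 : ga - 385 ≤ ga - 110 := Nat.sub_le_sub_left (by norm_num) ga
      have l3 : ga - 495 ≤ ga - 385 - 110 := by rw [Nat.sub_sub]
      have l4 : ga - 495 ≤ ga - 110 := Nat.sub_le_sub_left (by norm_num) ga
      have l5 : be ≤ ga - 495 - 110 := by rw [Nat.sub_sub]; exact hbe
      have h3 : Cl (ga - 385) (z p) (z q) :=
        hC.mono l1 (hC.p4 (hzv p (by omega)) (hzv r (by omega)) (hzv q (by omega)) (hzv s hs)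
          h1 h2 halt)
      have h4 : Cl (ga - 385) (z i) (z q) :=
        hC.mono l2 (hcl i q (by omega) (by omega) eq.symm)
      have h5 : Cl (ga - 495) (z p) (z (i + 1)) :=
        hC.mono l4 (hcl p (i + 1) (by omega) hi' ep)
      have h6 : Cl (ga - 495) (z i) (z p) :=
        hC.mono l3 (hC.p2 (hzv i (by omega)) (hzv q (by omega)) (hzv p (by omega)) h4
          (hC.symm h3))
      have h7 : Cl (ga - 495 - 110) (z i) (z (i + 1)) :=
        hC.p2 (hzv i (by omega)) (hzv p (by omega)) (hzv _ hi') h6 h5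
      exact hI2 i hi.1 hi' (hC.mono l5 h7)
  omega

end AbsDrawing
end SDE
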