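import Pool.Agent.SDL.CDefs
import Pool.Agent.SDL.CBlk
import Pool.Agent.SDL.CIso

/-!
# SDL/CLev
One level.
-/

namespace SDE
namespace AbsDrawing

variable {V : Type*} [DecidableEq V] {D : AbsDrawing V} {v : V} {Cl : ℕ → V → V → Prop}

/-- A maximal separated subset. Proof: among all `Z ⊆ E` (`E.powerset`) with pairwise `¬ R` take one
of maximal cardinality (`Finset.exists_max_image`); if `x ∈ E` had `¬ R x y` for all `y ∈ Z`, then
`x ∉ Z` (`hrefl`) and `insert x Z` would be larger. -/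
theorem exists_max_sep (E : Finset V) (R : V → V → Prop) (hrefl : ∀ x ∈ E, R x x)
    (hsym : ∀ x y, R x y → R y x) :
    ∃ Z ⊆ E, (∀ x ∈ Z, ∀ y ∈ Z, x ≠ y → ¬ R x y) ∧ ∀ x ∈ E, ∃ y ∈ Z, R x y := by
  classical
  obtain ⟨P, hP⟩ : ∃ P : Finset V → Prop, ∀ Z, P Z ↔ ∀ x ∈ Z, ∀ y ∈ Z, x ≠ y → ¬ R x y :=
    ⟨_, fun _ => Iff.rfl⟩
  obtain ⟨Z, hZ, hmax⟩ := Finset.exists_max_image (E.powerset.filter P) Finset.card
    ⟨∅, by rw [Finset.mem_filter, hP]; simp⟩
  rw [Finset.mem_filter, Finset.mem_powerset, hP] at hZ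
  refine ⟨Z, hZ.1, hZ.2, fun x hx => ?_⟩
  by_contra hcon
  push Not at hcon
  have hxZ : x ∉ Z := fun h => hcon x h (hrefl x hx)
  have hins : insert x Z ∈ E.powerset.filter P := by
    rw [Finset.mem_filter, Finset.mem_powerset, hP]
    refine ⟨Finset.insert_subset hx hZ.1, ?_⟩
    intro a ha b hb hab
    rcases Finset.mem_insert.1 ha with rfl | ha'
    · rcases Finset.mem_insert.1 hb with rfl | hb'
      · exact absurd rfl hab
      · exact hcon b hb'
    · rcases Finset.mem_insert.1 hb with rfl | hb'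
      · exact fun h => hcon a ha' (hsym _ _ h)
      · exact hZ.2 a ha' b hb' hab
  have h1 := hmax _ hins
  rw [Finset.card_insert_of_notMem hxZ] at h1
  omega

/-- **One level** (Lemmas 3.2, 3.3, 3.4). Proof. `v ∉ E` (`hE`). Let `z` be the enumeration
(`exists_enum`), `G = 4 ^ m`, `R = Cl (j * 30000 - 1542)`, `R' = Cl (j * 30000 - 1652)`. `blockR`:
`hsym` by `symm`; `hR1` by `mono`; `hRR` by `p2`, `symm`. `hnoW`: `p6` with
`n = j * 30000 - 1542` and `m = 32100` gives `i` with `Cl (n - 165 + (m - 223)) (y i) (y i)`, which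
implies `Cl ((j + 1) * 30000)` (`omega`, `mono`), against `hE` since `y i ∈ E` (`WBlock.mem`). So we get
`M`, `I`. `Z` from `exists_max_sep` with `R := Cl (j * 30000 - 882)` (`hrefl` by `mono`). For `i ∈ I`,
`i + 1 < E.card`: `¬ Cl (j * 30000 - 1487) (z i) (z (i+1))`; otherwise `Enum.adj`, `R (z i) (z (i+1))`
(`mono`), and `R (z i) w` for all `w ∈ E` with `cr (z i) (z (i+1)) v w = true` by `p3`
(`j * 30000 - 1487 - 55`), which contradicts the last property of `blockR`. `iso_bound` with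
`ga = j * 30000 - 882`, `be = j * 30000 - 1487`: `I.card ≤ 2 * Z.card + 1`. So
`E.card / G ≤ 9 * M.card + 4 * Z.card + 2`, hence `E.card ≤ G * (9 * M.card + 4 * Z.card + 3)`
(`Nat.lt_mul_div_succ` or `Nat.div_add_mod`). `Fam`: `ne1, ne2, ne, dis` from `IsPM E M`, `lo` is `R'`,
`hi1, hi2` from `hE` by `mono`. (Do not let Lean evaluate `4 ^ m`: keep `m` and `G` abstract.) -/
theorem level (hC : D.CloseSys v Cl) {m G : ℕ} (hm : m = 32100) (hG : G = 4 ^ m) (j : ℕ)
    (E : Finset V)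
    (hE : ∀ x ∈ E, x ≠ v ∧ Cl (j * 30000) x x ∧ ¬ Cl ((j + 1) * 30000) x x) :
    ∃ (M : Finset (V × V)) (Z : Finset V), D.Fam v Cl j M ∧ Z ⊆ E ∧
      (∀ x ∈ Z, ∀ y ∈ Z, x ≠ y → ¬ Cl (j * 30000 - 882) x y) ∧
      E.card ≤ G * (9 * M.card + 4 * Z.card + 3) := by
  classical
  have hv : v ∉ E := fun h => (hE v h).1 rfl
  have hG2 : 2 ≤ G := by
    rw [hG]
    calc 2 ≤ 4 ^ 1 := by norm_num
      _ ≤ 4 ^ m := Nat.pow_le_pow_right (by norm_num) (by omega)
  obtain ⟨z, hz⟩ := D.exists_enum hv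
  have hblk := D.blockR hv hG2 hz (fun x y => Cl (j * 30000 - 1542) x y)
    (fun x y => Cl (j * 30000 - 1652) x y) (fun x y h => hC.symm h)
    (fun x y h => hC.mono (by omega) h)
    (fun x hx y hy w hw h1 h2 => hC.mono (by omega)
      (hC.p2 (hE x hx).1 (hE w hw).1 (hE y hy).1 h1 (hC.symm h2))) ?_
  swap
  · intro w y hW hall
    rw [hG] at hW hall
    obtain ⟨i, hi, hcl⟩ := hC.p6 (n := j * 30000 - 1542) (m := m) (by omega) hW hall
    have hmem := hW.mem i hi
    exact (hE _ hmem).2.2 (hC.mono (by omega) hcl)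
  obtain ⟨M, I, hM, hMR, hcard, hI⟩ := hblk
  obtain ⟨Z, hZE, hZsep, hZcov⟩ := exists_max_sep E (fun x y => Cl (j * 30000 - 882) x y)
    (fun x hx => hC.mono (by omega) (hE x hx).2.1) (fun x y h => hC.symm h)
  have hiso : I.card ≤ 2 * Z.card + 1 := by
    refine iso_bound hC hv hz (ga := j * 30000 - 882) (be := j * 30000 - 1487) (by omega) hZE
      hZcov (fun i hi => (hI i hi).1) ?_
    intro i hi hi1 hcl
    refine (hI i hi).2 (z (i + 1)) (hz.adj hi1) (hC.mono (by omega) hcl) ?_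
    intro w hw hcr
    exact hC.mono (by omega) (hC.p3 (hE _ (hz.mem i (by omega))).1 (hE _ (hz.mem _ hi1)).1
      (hE w hw).1 hcl hcr)
  refine ⟨M, Z, ?_, hZE, hZsep, ?_⟩
  · exact
      { ne1 := fun p hp => (hE _ (hM.1 p hp).1).1
        ne2 := fun p hp => (hE _ (hM.1 p hp).2.1).1
        ne := fun p hp => (hM.1 p hp).2.2
        dis := hM.2
        lo := hMR
        hi1 := fun p hp h => (hE _ (hM.1 p hp).1).2.2 (hC.mono (by omega) h)
        hi2 := fun p hp h => (hE _ (hM.1 p hp).2.1).2.2 (hC.mono (by omega) h) }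
  · have h1 : E.card / G ≤ 9 * M.card + 4 * Z.card + 2 := by omega
    have h2 : E.card < G * (E.card / G + 1) := Nat.lt_mul_div_succ _ (by omega)
    have h3 : G * (E.card / G + 1) ≤ G * (9 * M.card + 4 * Z.card + 3) :=
      Nat.mul_le_mul_left _ (by omega)
    exact h2.le.trans h3

end AbsDrawing
end SDE
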