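import Pool.Agent.SDL.CDefs

/-!
# SDL/CRes
Levels which are congruent modulo four can be united.
-/

namespace SDE
namespace AbsDrawing

variable {V : Type*} {D : AbsDrawing V} {v : V} {Cl : ℕ → V → V → Prop}

/-- Edges of levels `j ≥ j' + 4` are disjoint. Proof. `n := (j' + 2) * 30000`. For `x ∈ {p.1, p.2}` and
`y ∈ {q.1, q.2}`: `¬ Cl n x y` (otherwise `symm`, `left` give `Cl n y y`, against `hi1, hi2` of `q`).
`x ≠ y`: `Cl (j * 30000 - 1652) p.1 p.2`, so `Cl n x x` (`left`, `symm`, `mono`, since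
`n + 165 ≤ j * 30000 - 1652`), and `¬ Cl n y y`. `p5` with this `n`. -/
theorem Fam.cross (hC : D.CloseSys v Cl) {j j' : ℕ} (hj : j' + 4 ≤ j) {M M' : Finset (V × V)}
    (hM : D.Fam v Cl j M) (hM' : D.Fam v Cl j' M') {p q : V × V} (hp : p ∈ M) (hq : q ∈ M') :
    p.1 ≠ q.1 ∧ p.1 ≠ q.2 ∧ p.2 ≠ q.1 ∧ p.2 ≠ q.2 ∧ D.cr p.1 p.2 q.1 q.2 = false := by
  have hlo := hM.lo p hp
  have hx1 : Cl ((j' + 2) * 30000 + 165) p.1 p.2 := hC.mono (by omega) hlo
  have hx1' : Cl ((j' + 2) * 30000) p.1 p.2 := hC.mono (by omega) hlo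
  have hp1 : Cl ((j' + 2) * 30000) p.1 p.1 := hC.left hx1'
  have hp2 : Cl ((j' + 2) * 30000) p.2 p.2 := hC.left (hC.symm hx1')
  have hq1 := hM'.hi1 q hq
  have hq2 := hM'.hi2 q hq
  have n1 : ¬ Cl ((j' + 2) * 30000) p.1 q.1 := fun h => hq1 (hC.left (hC.symm h))
  have n2 : ¬ Cl ((j' + 2) * 30000) p.1 q.2 := fun h => hq2 (hC.left (hC.symm h))
  refine ⟨?_, ?_, ?_, ?_, ?_⟩
  · intro h
    exact hq1 (h ▸ hp1)
  · intro h
    exact hq2 (h ▸ hp1)
  · intro h
    exact hq1 (h ▸ hp2)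
  · intro h
    exact hq2 (h ▸ hp2)
  · exact hC.p5 (hM.ne1 p hp) (hM.ne2 p hp) (hM'.ne1 q hq) (hM'.ne2 q hq) hx1 n1 n2

/-- **Lemma 3.1.** Proof. For `r < 4` let `U r` be the union of all `F j`, `j < J`, `j % 4 = r`
(`Finset.biUnion`). It is an `IsPM` (`Fam` inside one level, `Fam.cross` and `cr_comm` for two
levels, `j ≠ j'`, `j % 4 = j' % 4` implies a distance `≥ 4`), of cardinality
`∑ (F j).card` over these `j` (the `F j` with the same residue are pairwise disjoint sets by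
`Fam.cross`: `p.1 ≠ p.1` is impossible; `Finset.card_biUnion`). The sum of the four cardinalities is
`∑ j ∈ range J, (F j).card` (`Finset.sum_fiberwise_of_maps_to` or
`Finset.card_eq_sum_card_fiberwise`), so one of the four has at least a quarter of it. -/
theorem union_fam [Fintype V] [DecidableEq V] (hC : D.CloseSys v Cl) (F : ℕ → Finset (V × V))
    (J : ℕ) (hF : ∀ j, j < J → D.Fam v Cl j (F j)) :
    ∃ M : Finset (V × V), D.IsPM Finset.univ M ∧
      ∑ j ∈ Finset.range J, (F j).card ≤ 4 * M.card := by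
  classical
  have hcross : ∀ j j' : ℕ, j < J → j' < J → j ≠ j' → j % 4 = j' % 4 → ∀ p ∈ F j, ∀ q ∈ F j',
      p.1 ≠ q.1 ∧ p.1 ≠ q.2 ∧ p.2 ≠ q.1 ∧ p.2 ≠ q.2 ∧ D.cr p.1 p.2 q.1 q.2 = false := by
    intro j j' hj hj' hne hmod p hp q hq
    rcases Nat.lt_or_gt_of_ne hne with h | h
    · have h4 : j + 4 ≤ j' := by omega
      obtain ⟨a1, a2, a3, a4, a5⟩ := Fam.cross hC h4 (hF j' hj') (hF j hj) hq hp
      refine ⟨a1.symm, a3.symm, a2.symm, a4.symm, ?_⟩
      rw [D.cr_comm]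
      exact a5
    · have h4 : j' + 4 ≤ j := by omega
      exact Fam.cross hC h4 (hF j hj) (hF j' hj') hp hq
  let T : ℕ → Finset ℕ := fun r => (Finset.range J).filter (fun j => j % 4 = r)
  let U : ℕ → Finset (V × V) := fun r => (T r).biUnion F
  have hT : ∀ r j, j ∈ T r → j < J ∧ j % 4 = r := by
    intro r j hj
    exact ⟨Finset.mem_range.1 (Finset.mem_filter.1 hj).1, (Finset.mem_filter.1 hj).2⟩
  have hPM : ∀ r, D.IsPM Finset.univ (U r) := by
    intro r
    constructor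
    · intro p hp
      obtain ⟨j, hj, hpj⟩ := Finset.mem_biUnion.1 hp
      exact ⟨Finset.mem_univ _, Finset.mem_univ _, (hF j (hT r j hj).1).ne p hpj⟩
    · intro p hp q hq hne
      obtain ⟨j, hj, hpj⟩ := Finset.mem_biUnion.1 hp
      obtain ⟨j', hj', hqj⟩ := Finset.mem_biUnion.1 hq
      by_cases hjj : j = j'
      · subst hjj
        exact (hF j (hT r j hj).1).dis p hpj q hqj hne
      · exact hcross j j' (hT r j hj).1 (hT r j' hj').1 hjj
          ((hT r j hj).2.trans (hT r j' hj').2.symm) p hpj q hqj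
  have hcard : ∀ r, (U r).card = ∑ j ∈ T r, (F j).card := by
    intro r
    apply Finset.card_biUnion
    intro j hj j' hj' hne
    rw [Function.onFun, Finset.disjoint_left]
    intro p hp hp'
    exact (hcross j j' (hT r j hj).1 (hT r j' hj').1 hne
      ((hT r j hj).2.trans (hT r j' hj').2.symm) p hp p hp').1 rfl
  have hsum : ∑ r ∈ Finset.range 4, ∑ j ∈ T r, (F j).card = ∑ j ∈ Finset.range J, (F j).card :=
    Finset.sum_fiberwise_of_maps_to (g := fun j => j % 4)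
      (fun j _ => Finset.mem_range.2 (Nat.mod_lt _ (by norm_num))) _
  obtain ⟨r, _, hr⟩ := Finset.exists_max_image (Finset.range 4) (fun r => (U r).card)
    ⟨0, Finset.mem_range.2 (by norm_num)⟩
  refine ⟨U r, hPM r, ?_⟩
  rw [← hsum]
  calc ∑ r ∈ Finset.range 4, ∑ j ∈ T r, (F j).card
      = ∑ r ∈ Finset.range 4, (U r).card := Finset.sum_congr rfl (fun r _ => (hcard r).symm)
    _ ≤ ∑ _r ∈ Finset.range 4, (U r).card := Finset.sum_le_sum (fun r' hr' => hr r' hr')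
    _ = 4 * (U r).card := by simp

end AbsDrawing
end SDE
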