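import Mathlib

/-!
# SDL/CSum
The final count.
-/

namespace SDE

/-- Proof. Let `F = ∑ j < J, f j`, `E = ∑ j < J, e j`, `S = ∑ B j` over `1 ≤ j < J`
(`Finset.Ico 1 J`). If `J = 0` all sums vanish. Summing `hB` over `1 ≤ j < J`:
`4 S ≤ 4 F + ∑_{2 ≤ j ≤ J} B j ≤ 4 F + S` (`B J = 0`), so `3 S ≤ 4 F`. Summing `h0`, `h1`:
`E ≤ G * (9 F + 7 + 7 S)`, so `3 E ≤ G * (27 F + 21 + 28 F)`. (E.g. prove by induction on `J` a
statement about `Finset.range`: for all `K ≤ J`,
`3 * ∑_{1 ≤ j < K} B j + B 1 ≤ 4 * ∑_{j < K} f j + B K` for `K ≥ 1`.) -/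
theorem count_aux (G J : ℕ) (e f B : ℕ → ℕ) (h0 : e 0 ≤ G * (9 * f 0 + 7))
    (h1 : ∀ j, 1 ≤ j → j < J → e j ≤ G * (9 * f j + 7 * B j))
    (hB : ∀ j, 1 ≤ j → j < J → 4 * B j ≤ 4 * f j + B (j + 1)) (hJ : B J = 0) :
    3 * ∑ j ∈ Finset.range J, e j ≤ G * (55 * ∑ j ∈ Finset.range J, f j + 21) := by
  have key : ∀ K : ℕ, K + 1 ≤ J →
      3 * ∑ j ∈ Finset.range (K + 1), e j ≤
        G * (27 * ∑ j ∈ Finset.range (K + 1), f j + 21 + 21 * ∑ j ∈ Finset.range K, B (j + 1)) ∧
      3 * ∑ j ∈ Finset.range K, B (j + 1) + B 1 ≤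
        4 * ∑ j ∈ Finset.range (K + 1), f j + B (K + 1) := by
    intro K
    induction K with
    | zero =>
      intro _
      constructor
      · simp only [zero_add, Finset.sum_range_one, Finset.range_zero, Finset.sum_empty, mul_zero,
          add_zero]
        calc 3 * e 0 ≤ 3 * (G * (9 * f 0 + 7)) := Nat.mul_le_mul_left 3 h0
          _ = G * (27 * f 0 + 21) := by ring
      · simp
    | succ K ih =>
      intro hK
      obtain ⟨ih1, ih2⟩ := ih (by omega)
      have h1' := h1 (K + 1) (by omega) (by omega)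
      have hB' := hB (K + 1) (by omega) (by omega)
      rw [Finset.sum_range_succ (fun j => e j) (K + 1), Finset.sum_range_succ (fun j => f j) (K + 1),
        Finset.sum_range_succ (fun j => B (j + 1)) K]
      constructor
      · have h2 : 3 * e (K + 1) ≤ G * (27 * f (K + 1) + 21 * B (K + 1)) := by
          calc 3 * e (K + 1) ≤ 3 * (G * (9 * f (K + 1) + 7 * B (K + 1))) :=
                Nat.mul_le_mul_left 3 h1'
            _ = G * (27 * f (K + 1) + 21 * B (K + 1)) := by ring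
        calc 3 * (∑ j ∈ Finset.range (K + 1), e j + e (K + 1))
            = 3 * ∑ j ∈ Finset.range (K + 1), e j + 3 * e (K + 1) := by ring
          _ ≤ G * (27 * ∑ j ∈ Finset.range (K + 1), f j + 21 +
                21 * ∑ j ∈ Finset.range K, B (j + 1)) + G * (27 * f (K + 1) + 21 * B (K + 1)) :=
              Nat.add_le_add ih1 h2
          _ = _ := by ring
      · omega
  rcases Nat.eq_zero_or_pos J with h | h
  · subst h
    simp
  · obtain ⟨K, rfl⟩ : ∃ K, J = K + 1 := ⟨J - 1, by omega⟩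
    obtain ⟨k1, k2⟩ := key K le_rfl
    refine k1.trans (Nat.mul_le_mul_left G ?_)
    omega

/-- A set of maximal cardinality. Proof: `Finset.exists_max_image` on `Finset.univ.filter P`
(classical). -/
theorem exists_max_card {α : Type*} [Fintype α] (P : Finset α → Prop) (h : ∃ s, P s) :
    ∃ s, P s ∧ ∀ t, P t → t.card ≤ s.card := by
  classical
  obtain ⟨s0, hs0⟩ := h
  obtain ⟨s, hs, hmax⟩ := Finset.exists_max_image (Finset.univ.filter P) Finset.card
    ⟨s0, Finset.mem_filter.2 ⟨Finset.mem_univ _, hs0⟩⟩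
  exact ⟨s, (Finset.mem_filter.1 hs).2, fun t ht =>
    hmax t (Finset.mem_filter.2 ⟨Finset.mem_univ _, ht⟩)⟩

end SDE
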