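import Pool.Agent.SDL.CPet
import Pool.Agent.SDL.CLev
import Pool.Agent.SDL.CRes
import Pool.Agent.SDL.CSum

/-!
# SDL/CMain
The linear bound for a closeness system.
-/

namespace SDE
namespace AbsDrawing

variable {V : Type*} [DecidableEq V] {D : AbsDrawing V} {v : V} {Cl : ℕ → V → V → Prop}

/-- **Linear bound.** Proof. `G = 4 ^ m`. `bdd` gives `N` with `¬ Cl N x x` for all `x ≠ v`; `J = N + 1`,
so `¬ Cl (J * 30000) x x` (`mono`, `N ≤ J * 30000`). For every `j` choose by `exists_max_card` a `Fam`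
of level `j` of maximal cardinality, `F j` (`∅` is a `Fam`), and a `SepSet` of order
`j * 30000 - 882` of maximal cardinality, `Z j`; `f j = (F j).card`, `B j = (Z j).card`.
`E j = {x | x ≠ v ∧ Cl (j * 30000) x x ∧ ¬ Cl ((j + 1) * 30000) x x}`, `e j = (E j).card`.
(1) `level` gives `M, Y` with `e j ≤ G * (9 * M.card + 4 * Y.card + 3)`, `M.card ≤ f j`. If `j = 0` then
`Y.card ≤ 1` (`0 * 30000 - 882 = 0`, `zero`): `h0`. If `j ≥ 1` then `Y` is a `SepSet`
(`hi`: `j * 30000 - 882 + 882 = j * 30000`), so `Y.card ≤ B j`; if `e j = 0` `h1` is trivial, otherwise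
`B j ≥ 1`, because an element `x ∈ E j` gives the `SepSet` `{x}`; so `3 ≤ 3 * B j`:
`h1`. (2) `hB` from `petals` and maximality. (3) `B J = 0`: an element `z ∈ Z J` would have
`Cl (J * 30000) z z` (`J ≥ 1`). `count_aux`: `3 * ∑ e j ≤ G * (55 * ∑ f j + 21)`. (4) Every `x ≠ v` is
in `E j` for some `j < J` (the least `j` with `¬ Cl ((j + 1) * 30000) x x`; `zero`), so
`card V - 1 ≤ ∑ j ∈ range J, e j` (`Finset.card_biUnion_le`). (5) `union_fam`:
`∑ f j ≤ 4 * M.card`. Together `3 * (card V - 1) ≤ G * (220 * M.card + 21)`. -/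
theorem linear_abs [Fintype V] (hC : D.CloseSys v Cl) {m G : ℕ} (hm : m = 32100)
    (hG : G = 4 ^ m) :
    ∃ M : Finset (V × V), D.IsPM Finset.univ M ∧
      3 * (Fintype.card V - 1) ≤ G * (220 * M.card + 21) := by
  classical
  obtain ⟨N, hN⟩ := hC.bdd
  obtain ⟨J, hJ⟩ : ∃ J, J = N + 1 := ⟨_, rfl⟩
  have hbd : ∀ x, x ≠ v → ¬ Cl (J * 30000) x x :=
    fun x hx h => hN x hx (hC.mono (by omega) h)
  have hF : ∀ j, ∃ s : Finset (V × V), D.Fam v Cl j s ∧
      ∀ t, D.Fam v Cl j t → t.card ≤ s.card := fun j =>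
    exists_max_card _ ⟨∅, ⟨by simp, by simp, by simp, by simp, by simp, by simp, by simp⟩⟩
  choose F hF1 hF2 using hF
  have hZ : ∀ j, ∃ s : Finset V, SepSet v Cl (j * 30000 - 882) s ∧
      ∀ t, SepSet v Cl (j * 30000 - 882) t → t.card ≤ s.card := fun j =>
    exists_max_card _ ⟨∅, ⟨by simp, by simp, by simp⟩⟩
  choose Z hZ1 hZ2 using hZ
  let E : ℕ → Finset V := fun j =>
    Finset.univ.filter fun x => x ≠ v ∧ Cl (j * 30000) x x ∧ ¬ Cl ((j + 1) * 30000) x x
  have hE : ∀ j, ∀ x ∈ E j, x ≠ v ∧ Cl (j * 30000) x x ∧ ¬ Cl ((j + 1) * 30000) x x :=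
    fun j x hx => (Finset.mem_filter.mp hx).2
  have hlev := fun j => level hC hm hG j (E j) (hE j)
  clear hG hm
  have hcount : 3 * ∑ j ∈ Finset.range J, (E j).card ≤
      G * (55 * ∑ j ∈ Finset.range J, (F j).card + 21) := by
    refine count_aux G J (fun j => (E j).card) (fun j => (F j).card) (fun j => (Z j).card)
      ?_ ?_ ?_ ?_
    · obtain ⟨M, Y, hM, hY, hsep, hle⟩ := hlev 0
      have h1 : M.card ≤ (F 0).card := hF2 0 M hM
      have h2 : Y.card ≤ 1 := by
        rw [Finset.card_le_one]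
        intro a ha b hb
        by_contra hab
        refine hsep a ha b hb hab ?_
        have h0 : 0 * 30000 - 882 = 0 := by norm_num
        rw [h0]
        exact hC.zero a b
      exact hle.trans (Nat.mul_le_mul_left _ (by omega))
    · intro j hj1 hjJ
      obtain ⟨M, Y, hM, hY, hsep, hle⟩ := hlev j
      have h1 : M.card ≤ (F j).card := hF2 j M hM
      have hj : j * 30000 - 882 + 882 = j * 30000 := by omega
      have h2 : Y.card ≤ (Z j).card := by
        refine hZ2 j Y ⟨fun z hz => (hE j z (hY hz)).1, fun z hz => ?_, hsep⟩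
        rw [hj]
        exact (hE j z (hY hz)).2.1
      show (E j).card ≤ G * (9 * (F j).card + 7 * (Z j).card)
      by_cases h0 : (E j).card = 0
      · rw [h0]; exact Nat.zero_le _
      · obtain ⟨x, hx⟩ := Finset.card_pos.mp (Nat.pos_of_ne_zero h0)
        have h3 : 1 ≤ (Z j).card := by
          have := hZ2 j {x} ⟨fun z hz => ?_, fun z hz => ?_, fun z hz z' hz' hne => ?_⟩
          · simpa using this
          · rw [Finset.mem_singleton.mp hz]; exact (hE j x hx).1
          · rw [Finset.mem_singleton.mp hz, hj]; exact (hE j x hx).2.1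
          · exact absurd ((Finset.mem_singleton.mp hz).trans
              (Finset.mem_singleton.mp hz').symm) hne
        exact hle.trans (Nat.mul_le_mul_left _ (by omega))
    · intro j hj1 hjJ
      obtain ⟨M, Z', hM, hZ', hle⟩ := petals hC hj1 (hZ1 j)
      have h1 : M.card ≤ (F j).card := hF2 j M hM
      have h2 : Z'.card ≤ (Z (j + 1)).card := hZ2 (j + 1) Z' hZ'
      show 4 * (Z j).card ≤ 4 * (F j).card + (Z (j + 1)).card
      omega
    · show (Z J).card = 0
      by_contra h0
      obtain ⟨z, hz⟩ := Finset.card_pos.mp (Nat.pos_of_ne_zero h0)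
      refine hbd z ((hZ1 J).ne z hz) ?_
      have h := (hZ1 J).hi z hz
      have hj : J * 30000 - 882 + 882 = J * 30000 := by omega
      rwa [hj] at h
  have hcov : Finset.univ.erase v ⊆ (Finset.range J).biUnion E := by
    intro x hx
    have hxv : x ≠ v := (Finset.mem_erase.mp hx).1
    have hex : ∃ j, ¬ Cl ((j + 1) * 30000) x x := ⟨N, by rw [← hJ]; exact hbd x hxv⟩
    have hspec := Nat.find_spec hex
    have hmin := fun k (hk : k < Nat.find hex) => Nat.find_min hex hk
    have hle : Nat.find hex ≤ N := Nat.find_min' hex (by rw [← hJ]; exact hbd x hxv)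
    generalize Nat.find hex = j at hspec hmin hle
    refine Finset.mem_biUnion.mpr ⟨j, Finset.mem_range.mpr (by omega), ?_⟩
    refine Finset.mem_filter.mpr ⟨Finset.mem_univ _, hxv, ?_, hspec⟩
    rcases Nat.eq_zero_or_pos j with h0 | hpos
    · rw [h0, Nat.zero_mul]
      exact hC.zero x x
    · have := hmin (j - 1) (by omega)
      rw [not_not] at this
      rwa [Nat.sub_add_cancel hpos] at this
  have hcard : Fintype.card V - 1 ≤ ∑ j ∈ Finset.range J, (E j).card := by
    have h1 := (Finset.card_le_card hcov).trans Finset.card_biUnion_le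
    rwa [Finset.card_erase_of_mem (Finset.mem_univ v), Finset.card_univ] at h1
  obtain ⟨M, hM, hle⟩ := union_fam hC F J (fun j _ => hF1 j)
  refine ⟨M, hM, ?_⟩
  calc 3 * (Fintype.card V - 1) ≤ 3 * ∑ j ∈ Finset.range J, (E j).card :=
        Nat.mul_le_mul_left _ hcard
    _ ≤ _ := hcount
    _ ≤ _ := Nat.mul_le_mul_left _ (by omega)

end AbsDrawing
end SDE
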