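import Pool.Agent.SDL.StrA

/-!
# SDL/Straight
Existence of simple drawings of the complete graph: straight segments between points of a parabola.
-/

open Set

namespace SDE

/-- the point of the parabola with real part `x` -/
private noncomputable def pb (x : ℝ) : ℂ := ⟨x, x ^ 2⟩

/-- the straight segment between two points of the parabola -/
private noncomputable def cv (x y : ℝ) (t : ℝ) : ℂ := pb x + t * (pb y - pb x)

private theorem cv_re (x y t : ℝ) : (cv x y t).re = x + t * (y - x) := by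
  simp [cv, pb]

private theorem cv_im (x y t : ℝ) : (cv x y t).im = x ^ 2 + t * (y ^ 2 - x ^ 2) := by
  simp [cv, pb]

private theorem cv_zero (x y : ℝ) : cv x y 0 = pb x := by
  simp [cv]

private theorem cv_one (x y : ℝ) : cv x y 1 = pb y := by
  simp [cv]

private theorem cv_rev (x y t : ℝ) : cv y x t = cv x y (1 - t) := by
  apply Complex.ext
  · rw [cv_re, cv_re]
    ring
  · rw [cv_im, cv_im]
    ring

private theorem cv_cont (x y : ℝ) : Continuous (cv x y) := by
  unfold cv
  fun_prop

private theorem cv_comm (x y : ℝ) : cv x y '' Icc 0 1 = cv y x '' Icc 0 1 := by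
  have h : ∀ x y : ℝ, cv x y '' Icc 0 1 ⊆ cv y x '' Icc 0 1 := by
    rintro x y _ ⟨t, ht, rfl⟩
    refine ⟨1 - t, ⟨by linarith [ht.2], by linarith [ht.1]⟩, ?_⟩
    rw [cv_rev x y (1 - t), sub_sub_cancel]
  exact Subset.antisymm (h x y) (h y x)

/-- a point of the parabola on a segment is an endpoint -/
private theorem mem_vertex {x y w : ℝ} (h : pb w ∈ cv x y '' Icc 0 1) : w = x ∨ w = y := by
  obtain ⟨t, _, ht⟩ := h
  have h1 := congrArg Complex.re ht
  have h2 := congrArg Complex.im ht
  rw [cv_re] at h1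
  rw [cv_im] at h2
  simp only [pb] at h1 h2
  have h3 : (w - x) * (w - y) = 0 := by
    linear_combination (x + y) * h1 - h2
  rcases mul_eq_zero.mp h3 with h | h
  · left
    linarith
  · right
    linarith

/-- two segments with a common endpoint have only this point in common -/
private theorem share {x y z : ℝ} (hxy : x ≠ y) (_hxz : x ≠ z) (hyz : y ≠ z) :
    cv x y '' Icc 0 1 ∩ cv x z '' Icc 0 1 ⊆ {pb x} := by
  rintro p ⟨⟨s, _, hs⟩, ⟨t, _, ht⟩⟩
  have h1 := congrArg Complex.re (hs.trans ht.symm)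
  have h2 := congrArg Complex.im (hs.trans ht.symm)
  rw [cv_re, cv_re] at h1
  rw [cv_im, cv_im] at h2
  have h3 : s * ((y - x) * (y - z)) = 0 := by
    linear_combination h2 - (x + z) * h1
  have h4 : s = 0 := by
    rcases mul_eq_zero.mp h3 with h | h
    · exact h
    · exact absurd h (mul_ne_zero (sub_ne_zero.mpr hxy.symm) (sub_ne_zero.mpr hyz))
  rw [h4, cv_zero] at hs
  exact hs.symm

/-- two segments without common endpoint which meet are not parallel -/
private theorem delta {a b c d s t : ℝ} (hac : a ≠ c) (hbc : b ≠ c)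
    (h : cv a b s = cv c d t) : (d + c) - (b + a) ≠ 0 := by
  have h1 := congrArg Complex.re h
  have h2 := congrArg Complex.im h
  rw [cv_re, cv_re] at h1
  rw [cv_im, cv_im] at h2
  intro h3
  have h4 : (c - a) * (b - c) = 0 := by
    linear_combination h2 - (a + b) * h1 + t * (d - c) * h3
  rcases mul_eq_zero.mp h4 with h | h
  · exact hac (by linarith)
  · exact hbc (by linarith)

/-- **Existence.** Proof. `pt i = i + i ^ 2 * I` (real part `i`, imaginary part `i²`),
`curve u v t = pt u + t * (pt v - pt u)`. Continuity, injectivity on `[0,1]`, `start`, `finish`,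
`rev` are clear. Three different points of the parabola are not collinear:
`(j - i) (k² - i²) - (j² - i²) (k - i) = (j - i) (k - i) (k - j) ≠ 0`. `vertex`: a point of the
parabola on the segment from `pt u` to `pt v` with parameter `t ∈ [0,1]`: real part
`w = u + t (v - u)`, imaginary part `w² = u² + t (v² - u²)`, so
`(w - u)(w + u) = t (v - u)(v + u) = (w - u)(v + u)`, i.e. `w = u` or `w = v`. `one`, `cross`: let
`{a, b} ≠ {c, d}` and `p = pt a + s (pt b - pt a) = pt c + t (pt d - pt c)`. If `{a, b}` and `{c, d}`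
have exactly one common vertex, say `a = c` (the other cases are similar or follow by reversal),
then `s (pt b - pt a) = t (pt d - pt a)` and non-collinearity gives `s = t = 0`, `p = pt a`. If
`a, b, c, d` are different then `0 < s < 1`, `0 < t < 1` by `vertex`, the determinant of
`pt b - pt a` and `pt d - pt c` is `(b - a) (d² - c²) - (b² - a²) (d - c) =
(b - a) (d - c) ((d + c) - (b + a))`; it is not zero: if `d + c = b + a =: σ` then `p` would satisfy
`Im p = a² + s (b - a) σ = c² + t (d - c) σ` and `Re p = a + s (b - a) = c + t (d - c)`, so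
`a² - a σ = c² - c σ`, `(a - c)(a + c - σ) = 0`, `a = c` or `c = b`: contradiction. So the common
point is unique (`one`) and `properCross_segments` gives `cross`. -/
theorem exists_simpleDrawing (n : ℕ) : Nonempty (SimpleDrawing (Fin n)) := by
  have hc : ∀ u v : Fin n, u ≠ v → ((u : ℕ) : ℝ) ≠ ((v : ℕ) : ℝ) := by
    intro u v huv h
    exact huv (Fin.ext (by exact_mod_cast h))
  refine ⟨{
    pt := fun i => pb ((i : ℕ) : ℝ)
    curve := fun u v => cv ((u : ℕ) : ℝ) ((v : ℕ) : ℝ)
    pt_inj := ?_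
    cont := ?_
    inj := ?_
    start := ?_
    finish := ?_
    rev := ?_
    vertex := ?_
    one := ?_
    cross := ?_ }⟩
  · intro u v huv
    have h := congrArg Complex.re huv
    simp only [pb] at h
    exact Fin.ext (by exact_mod_cast h)
  · intro u v _
    exact (cv_cont _ _).continuousOn
  · intro u v huv s _ t _ hst
    have h := congrArg Complex.re hst
    rw [cv_re, cv_re] at h
    have h1 : ((v : ℕ) : ℝ) - ((u : ℕ) : ℝ) ≠ 0 := sub_ne_zero.mpr (hc u v huv).symm
    have h2 : s * (((v : ℕ) : ℝ) - ((u : ℕ) : ℝ)) = t * (((v : ℕ) : ℝ) - ((u : ℕ) : ℝ)) := by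
      linarith
    exact mul_right_cancel₀ h1 h2
  · intro u v _
    exact cv_zero _ _
  · intro u v _
    exact cv_one _ _
  · intro u v _ t _
    exact cv_rev _ _ t
  · intro u v w _ hwu hwv hw
    rcases mem_vertex hw with h | h
    · exact hc w u hwu h
    · exact hc w v hwv h
  · intro a b c d hab hcd h1 h2
    by_cases hac : a = c
    · subst hac
      have hbd : b ≠ d := fun h => h1 ⟨rfl, h⟩
      exact (subsingleton_singleton).anti (share (hc a b hab) (hc a d hcd) (hc b d hbd))
    by_cases had : a = d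
    · subst had
      have hbc : b ≠ c := fun h => h2 ⟨rfl, h⟩
      rw [cv_comm ((c : ℕ) : ℝ)]
      exact (subsingleton_singleton).anti (share (hc a b hab) (hc a c hac) (hc b c hbc))
    by_cases hbc : b = c
    · subst hbc
      rw [cv_comm ((a : ℕ) : ℝ)]
      exact (subsingleton_singleton).anti (share (hc b a hab.symm) (hc b d hcd) (hc a d had))
    by_cases hbd : b = d
    · subst hbd
      rw [cv_comm ((a : ℕ) : ℝ), cv_comm ((c : ℕ) : ℝ)]
      exact (subsingleton_singleton).anti (share (hc b a hab.symm) (hc b c hbc) (hc a c hac))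
    rintro p ⟨⟨s, hs, hps⟩, ⟨t, ht, hpt⟩⟩ p' ⟨⟨s', hs', hps'⟩, ⟨t', ht', hpt'⟩⟩
    have hδ := delta (hc a c hac) (hc b c hbc) (hps.trans hpt.symm)
    have e1 := congrArg Complex.re (hps.trans hpt.symm)
    have e2 := congrArg Complex.im (hps.trans hpt.symm)
    have e3 := congrArg Complex.re (hps'.trans hpt'.symm)
    have e4 := congrArg Complex.im (hps'.trans hpt'.symm)
    rw [cv_re, cv_re] at e1 e3
    rw [cv_im, cv_im] at e2 e4
    have hba : ((b : ℕ) : ℝ) - ((a : ℕ) : ℝ) ≠ 0 := sub_ne_zero.mpr (hc a b hab).symm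
    have hss : s = s' := by
      have h3 : (s - s') * ((((b : ℕ) : ℝ) - ((a : ℕ) : ℝ)) *
          ((((d : ℕ) : ℝ) + ((c : ℕ) : ℝ)) - (((b : ℕ) : ℝ) + ((a : ℕ) : ℝ)))) = 0 := by
        linear_combination (((d : ℕ) : ℝ) + ((c : ℕ) : ℝ)) * (e1 - e3) - (e2 - e4)
      rcases mul_eq_zero.mp h3 with h | h
      · linarith
      · exact absurd h (mul_ne_zero hba hδ)
    rw [← hps, ← hps', hss]
  · intro a b c d hab hcd h1 h2 p hp
    by_cases hac : a = c
    · subst hac
      have hbd : b ≠ d := fun h => h1 ⟨rfl, h⟩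
      have h := share (hc a b hab) (hc a d hcd) (hc b d hbd) hp
      exact Or.inl ⟨Or.inl h, Or.inl h⟩
    by_cases had : a = d
    · subst had
      have hbc : b ≠ c := fun h => h2 ⟨rfl, h⟩
      rw [cv_comm ((c : ℕ) : ℝ)] at hp
      have h := share (hc a b hab) (hc a c hac) (hc b c hbc) hp
      exact Or.inl ⟨Or.inl h, Or.inr h⟩
    by_cases hbc : b = c
    · subst hbc
      rw [cv_comm ((a : ℕ) : ℝ)] at hp
      have h := share (hc b a hab.symm) (hc b d hcd) (hc a d had) hp
      exact Or.inl ⟨Or.inr h, Or.inl h⟩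
    by_cases hbd : b = d
    · subst hbd
      rw [cv_comm ((a : ℕ) : ℝ), cv_comm ((c : ℕ) : ℝ)] at hp
      have h := share (hc b a hab.symm) (hc b c hbc) (hc a c hac) hp
      exact Or.inl ⟨Or.inr h, Or.inr h⟩
    right
    have key : ∀ u v w : Fin n, w ≠ u → w ≠ v →
        p ∈ cv ((u : ℕ) : ℝ) ((v : ℕ) : ℝ) '' Icc 0 1 → p ≠ pb ((w : ℕ) : ℝ) := by
      intro u v w hu hv hq he
      rw [he] at hq
      rcases mem_vertex hq with h | h
      · exact hc w u hu h
      · exact hc w v hv h
    have pa := key c d a hac had hp.2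
    have pb' := key c d b hbc hbd hp.2
    have pc := key a b c (Ne.symm hac) (Ne.symm hbc) hp.1
    have pd := key a b d (Ne.symm had) (Ne.symm hbd) hp.1
    refine ⟨pa, pb', pc, pd, ?_⟩
    obtain ⟨⟨s, hs, hps⟩, ⟨t, ht, hpt⟩⟩ := hp
    have hδ := delta (hc a c hac) (hc b c hbc) (hps.trans hpt.symm)
    have hs0 : s ≠ 0 := by
      rintro rfl
      exact pa (hps.symm.trans (cv_zero _ _))
    have hs1 : s ≠ 1 := by
      rintro rfl
      exact pb' (hps.symm.trans (cv_one _ _))
    have ht0 : t ≠ 0 := by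
      rintro rfl
      exact pc (hpt.symm.trans (cv_zero _ _))
    have ht1 : t ≠ 1 := by
      rintro rfl
      exact pd (hpt.symm.trans (cv_one _ _))
    have hba : ((b : ℕ) : ℝ) - ((a : ℕ) : ℝ) ≠ 0 := sub_ne_zero.mpr (hc a b hab).symm
    have hdc : ((d : ℕ) : ℝ) - ((c : ℕ) : ℝ) ≠ 0 := sub_ne_zero.mpr (hc c d hcd).symm
    have hdet : (pb ((b : ℕ) : ℝ) - pb ((a : ℕ) : ℝ)).re *
        (pb ((d : ℕ) : ℝ) - pb ((c : ℕ) : ℝ)).im -
        (pb ((b : ℕ) : ℝ) - pb ((a : ℕ) : ℝ)).im *
        (pb ((d : ℕ) : ℝ) - pb ((c : ℕ) : ℝ)).re ≠ 0 := by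
      simp only [pb, Complex.sub_re, Complex.sub_im]
      intro h
      have h3 : (((b : ℕ) : ℝ) - ((a : ℕ) : ℝ)) * (((d : ℕ) : ℝ) - ((c : ℕ) : ℝ)) *
          ((((d : ℕ) : ℝ) + ((c : ℕ) : ℝ)) - (((b : ℕ) : ℝ) + ((a : ℕ) : ℝ))) = 0 := by
        linear_combination h
      exact mul_ne_zero (mul_ne_zero hba hdc) hδ h3
    exact properCross_segments hdet ⟨lt_of_le_of_ne hs.1 (Ne.symm hs0), lt_of_le_of_ne hs.2 hs1⟩
      ⟨lt_of_le_of_ne ht.1 (Ne.symm ht0), lt_of_le_of_ne ht.2 ht1⟩ hps.symm hpt.symm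

end SDE
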