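import Pool.Agent.SDL.BlkP
import Pool.Agent.SDE.Sep

/-!
# SDL/AA
Separation by a chain of 55 elements: Lemmas A1 and A2.
-/

namespace SDE
namespace AbsDrawing

variable {V : Type*} {D : AbsDrawing V} {v : V} {k : ℕ} {x : ℕ → V}

/-- A block of a chain which avoids the points of `P` is a `TChain` with external set `P`. Proof:
`inj, ne` from `Ch.inj`, `Ch.ne`; `btw1 = Ch.btw_mid`, `btw2 = Ch.btw_hi`, `btw3 = Ch.btw_lo`,
`cr1`, `cr2 = Ch.cr_mid`, `cr3 = Ch.cr_lo`; `notU`, `btwU` from the hypothesis. -/
theorem Ch.toTChain (h : D.Ch v k x) {P : Finset V} (hv : v ∉ P) {s : ℕ} (hs : s + 11 ≤ k)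
    (hP : ∀ p ∈ P, (∀ i, i < 11 → p ≠ x (s + i)) ∧
      ∀ i j, i < j → j < 11 → D.btw v (x (s + i)) (x (s + j)) p = false) :
    D.TChain v P 11 (fun i => x (s + i)) := by
  refine ⟨?_, ?_, ?_, hv, ?_, ?_, ?_, ?_, ?_, ?_, ?_⟩
  · intro i j hi hj he
    have := h.inj (i := s + i) (j := s + j) (by omega) (by omega) he
    omega
  · intro i hi
    exact h.ne _ (by omega)
  · intro i hi hm
    exact (hP _ hm).1 i hi rfl
  · intro i j l h1 h2 h3
    exact h.btw_mid (by omega) (by omega) (by omega)
  · intro i j l h1 h2 h3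
    exact h.btw_hi (by omega) (by omega) (by omega)
  · intro i j l h1 h2 h3
    exact h.btw_lo (by omega) (by omega) (by omega)
  · intro i j h1 h2 u hu
    exact (hP u hu).2 i j h1 h2
  · intro i j l h1 h2 h3
    exact h.cr1 _ _ _ (by omega) (by omega) (by omega)
  · intro i j l h1 h2 h3
    exact h.cr_mid (by omega) (by omega) (by omega)
  · intro i j l h1 h2 h3
    exact h.cr_lo (by omega) (by omega) (by omega)

/-- **Lemma A1.** Proof. If `p = q` or `u = p` or `u = q` or ... the crossing is degenerate
(`cr_ne`); so let `cr p q v u = true` for a contradiction, then all are different. Apply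
`Ch.exists_block` with `P = {p, q, u}` and `Ch.toTChain`; write `y i = x (s + i)`. All pairs of the
block have `btw = false` for `p, q, u`, so `Hp, Hq, Lu` give all `cr (y i) (y j) v _`.
`TChain.winHigh` with `t = 0` gives `cr p q v (y 0) = cr p q v (y 1) = false` and
`cr p q (y 0) (y 1) = false`. Now `p4` with triangle `(v, y 0, y 1)`, `a = u`, `b = v`, `c = p`,
`d = q`: the `bef` terms vanish (`v y0`, `v y1` have the common vertex `v` with `uv`;
`cr u v (y 0) (y 1) = cr (y 0) (y 1) v u = false`), `side u = false ^^ false`,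
`side p = false ^^ true`: contradiction. -/
theorem Ch.A1 (h : D.Ch v k x) (hk : 55 ≤ k) {p q u : V} (hp : p ≠ v) (hq : q ≠ v) (hu : u ≠ v)
    (Hp : D.Hi v k x p) (Hq : D.Hi v k x q) (Lu : D.Lo v k x u) : D.cr p q v u = false := by
  classical
  rcases hc : D.cr p q v u with _ | _
  · rfl
  · exfalso
    obtain ⟨npq, -, npu, -, nqu, -⟩ := D.cr_ne hc
    have hcard : ({p, q, u} : Finset V).card ≤ 4 := le_trans Finset.card_le_three (by norm_num)
    obtain ⟨s, hs, hP⟩ := h.exists_block hk {p, q, u} hcard
    have hv : v ∉ ({p, q, u} : Finset V) := by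
      simp only [Finset.mem_insert, Finset.mem_singleton, not_or]
      exact ⟨hp.symm, hq.symm, hu.symm⟩
    have mp : p ∈ ({p, q, u} : Finset V) := by simp
    have mq : q ∈ ({p, q, u} : Finset V) := by simp
    have mu : u ∈ ({p, q, u} : Finset V) := by simp
    have T := h.toTChain (s := s) hv (by omega) hP
    have cp : D.cr (x (s + 9)) (x (s + 10)) v p = true :=
      Hp _ _ (by omega) (by omega) ((hP p mp).2 9 10 (by omega) (by omega))
    have cq : D.cr (x (s + 9)) (x (s + 10)) v q = true :=
      Hq _ _ (by omega) (by omega) ((hP q mq).2 9 10 (by omega) (by omega))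
    obtain ⟨H1, H2⟩ := T.winHigh (t := 0) (by omega) mp mq npq cp cq
    have b1 := (hP u mu).2 0 1 (by omega) (by omega)
    have b2 := (hP p mp).2 0 1 (by omega) (by omega)
    have c1 : D.cr (x (s + 0)) (x (s + 1)) v u = false := Lu _ _ (by omega) (by omega) b1
    have c2 : D.cr (x (s + 0)) (x (s + 1)) v p = true := Hp _ _ (by omega) (by omega) b2
    have n01 : x (s + 0) ≠ x (s + 1) := fun e => by
      have := h.inj (i := s + 0) (j := s + 1) (by omega) (by omega) e
      omega
    have hc' : D.cr u v p q = true := by rw [← D.cr_comm, D.cr_swap']; exact hc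
    have e := D.p4 (h.ne _ (by omega : s + 0 < k)).symm (h.ne _ (by omega : s + 1 < k)).symm n01
      hu ((hP u mu).1 0 (by omega)) ((hP u mu).1 1 (by omega)) hp
      ((hP p mp).1 0 (by omega)) ((hP p mp).1 1 (by omega)) hc'
      (H1 0 (by omega) (by omega)) (H1 1 (by omega) (by omega)) (H2 0 1 (by omega) (by omega)
      (by omega))
    have f1 : D.bef u v p q v (x (s + 0)) = false := by
      unfold bef; rw [D.cr_self4]; rfl
    have f2 : D.bef u v p q v (x (s + 1)) = false := by
      unfold bef; rw [D.cr_self4]; rfl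
    have f3 : D.bef u v p q (x (s + 0)) (x (s + 1)) = false := by
      unfold bef
      rw [← D.cr_comm, D.cr_swap', c1]; rfl
    have g1 : D.side v (x (s + 0)) (x (s + 1)) u = false := by
      unfold side; rw [b1, c1]; rfl
    have g2 : D.side v (x (s + 0)) (x (s + 1)) p = true := by
      unfold side; rw [b2, c2]; rfl
    rw [f1, f2, f3, g1, g2] at e
    exact absurd e (by decide)

/-- **Lemma A2.** Proof. By contradiction `cr p q u w = true`, so all are different. Apply
`Ch.exists_block` with `P = {p, q, u, w}`, `Ch.toTChain`, and `TChain.sep` with `t = 0` (note the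
order of its arguments: the low points first), using `cr_comm`. -/
theorem Ch.A2 (h : D.Ch v k x) (hk : 55 ≤ k) {p q u w : V} (hp : p ≠ v) (hq : q ≠ v) (hu : u ≠ v)
    (hw : w ≠ v) (Hp : D.Hi v k x p) (Hq : D.Hi v k x q) (Lu : D.Lo v k x u)
    (Lw : D.Lo v k x w) : D.cr p q u w = false := by
  classical
  have hcard : ({p, q, u, w} : Finset V).card ≤ 4 := Finset.card_le_four
  obtain ⟨s, hs, hP⟩ := h.exists_block hk {p, q, u, w} hcard
  have hv : v ∉ ({p, q, u, w} : Finset V) := by
    simp only [Finset.mem_insert, Finset.mem_singleton, not_or]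
    exact ⟨hp.symm, hq.symm, hu.symm, hw.symm⟩
  have mp : p ∈ ({p, q, u, w} : Finset V) := by simp
  have mq : q ∈ ({p, q, u, w} : Finset V) := by simp
  have mu : u ∈ ({p, q, u, w} : Finset V) := by simp
  have mw : w ∈ ({p, q, u, w} : Finset V) := by simp
  have T := h.toTChain (s := s) hv (by omega) hP
  have cp : D.cr (x (s + 9)) (x (s + 10)) v p = true :=
    Hp _ _ (by omega) (by omega) ((hP p mp).2 9 10 (by omega) (by omega))
  have cq : D.cr (x (s + 9)) (x (s + 10)) v q = true :=
    Hq _ _ (by omega) (by omega) ((hP q mq).2 9 10 (by omega) (by omega))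
  have cu : D.cr (x (s + 0)) (x (s + 1)) v u = false :=
    Lu _ _ (by omega) (by omega) ((hP u mu).2 0 1 (by omega) (by omega))
  have cw : D.cr (x (s + 0)) (x (s + 1)) v w = false :=
    Lw _ _ (by omega) (by omega) ((hP w mw).2 0 1 (by omega) (by omega))
  have e := T.sep (t := 0) (by omega) mu mw mp mq cu cw cp cq
  rw [← D.cr_comm]
  exact e

end AbsDrawing
end SDE
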