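import Pool.Agent.SDL.Desc

/-!
# SDL/Bd
The weight of a stack is at most the number of vertices.
-/

namespace SDE
namespace AbsDrawing

variable {V : Type*} {D : AbsDrawing V} {v : V}

/-- `b` is one of the inner elements of the chains of `S`. -/
private def DeepIn (S : List (ℕ × (ℕ → V))) (b : V) : Prop :=
  ∃ W ∈ S, ∃ i, i < W.1 - 220 ∧ b = W.2 i

private theorem not_deep {S : List (ℕ × (ℕ → V))} (hs : D.IsStk v S) {x : V} (hx : x ≠ v)
    (hA : D.Above v S x) : ¬ DeepIn S x := by
  rintro ⟨W, hW, i, hi, he⟩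
  obtain ⟨T, S0, rfl⟩ := List.append_of_mem hW
  have hW1 : 2 ≤ W.1 - 55 := by omega
  rcases eq_or_ne T [] with hT | hT
  · subst hT
    have hA' : D.Hi v W.1 W.2 x := hA
    exact Hi.ne (by omega) hA' (show i < W.1 by omega) he
  · have h1 := desc hT hs hx hA
    exact Hi.ne hW1 h1 (show i < W.1 - 55 by omega) he

private theorem exists_deep (S : List (ℕ × (ℕ → V))) :
    D.IsStk v S → ∃ B : Finset V, B.card = wt S ∧ ∀ b ∈ B, DeepIn S b := by
  classical
  induction S with
  | nil => exact fun _ => ⟨∅, by simp [wt], by simp⟩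
  | cons W S ih =>
    intro hs
    obtain ⟨h165, hch, hab, hst⟩ := hs
    obtain ⟨B, hB, hBd⟩ := ih hst
    refine ⟨(Finset.range (W.1 - 220)).image W.2 ∪ B, ?_, ?_⟩
    · rw [Finset.card_union_of_disjoint, Finset.card_image_of_injOn, Finset.card_range, hB]
      · rfl
      · intro i hi j hj he
        rw [Finset.mem_coe, Finset.mem_range] at hi hj
        exact hch.inj (by omega) (by omega) he
      · rw [Finset.disjoint_left]
        intro b hb hb'
        obtain ⟨i, hi, rfl⟩ := Finset.mem_image.mp hb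
        rw [Finset.mem_range] at hi
        exact not_deep hst (hch.ne i (by omega)) (hab i (by omega)) (hBd _ hb')
    · intro b hb
      rcases Finset.mem_union.mp hb with hb | hb
      · obtain ⟨i, hi, rfl⟩ := Finset.mem_image.mp hb
        rw [Finset.mem_range] at hi
        exact ⟨W, by simp, i, hi, rfl⟩
      · obtain ⟨W', hW', i, hi, he⟩ := hBd b hb
        exact ⟨W', List.mem_cons_of_mem _ hW', i, hi, he⟩

/-- **Bounded weight.** Proof. Call `b` *deep* in `S` if `∃ W ∈ S, ∃ i, i < W.1 - 220 ∧ b = W.2 i`.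
Claim 1: if `IsStk v S`, `x ≠ v`, `Above v S x` then `x` is not deep in `S`. Let `W ∈ S`,
`S = T ++ W :: S0`. If `T = []`: `Hi v W.1 W.2 x` and `Hi.ne`. If `T ≠ []`: `desc` gives
`Hi v (W.1 - 55) W.2 x`, and `i < W.1 - 220 ≤ W.1 - 55`; `Hi.ne` again (`W.1 - 55 ≥ 110`).
Claim 2: by induction on `S`, if `IsStk v S` there is `B : Finset V` with `B.card = wt S` and all
`b ∈ B` deep in `S`: for `W :: S` add the elements `W.2 i`, `i < W.1 - 220`: they are different
(`Ch.inj`) and not deep in `S` by claim 1 (they are above `S` and `≠ v`). Hence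
`wt S = B.card ≤ Fintype.card V`. -/
theorem wt_le [Fintype V] {S : List (ℕ × (ℕ → V))} (hs : D.IsStk v S) :
    wt S ≤ Fintype.card V := by
  classical
  obtain ⟨B, hB, -⟩ := exists_deep S hs
  rw [← hB]
  exact Finset.card_le_univ B

end AbsDrawing
end SDE
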