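import Pool.Agent.SDL.ChB

/-!
# SDL/BlkP
Among five blocks of eleven elements of a chain one avoids four given points.
-/

namespace SDE
namespace AbsDrawing

variable {V : Type*} {D : AbsDrawing V} {v : V} {k : ℕ} {x : ℕ → V}

private def BadBlk (D : AbsDrawing V) (v : V) (x : ℕ → V) (b : ℕ) (p : V) : Prop :=
  (∃ i, i < 11 ∧ p = x (11 * b + i)) ∨
    ∃ i j, i < j ∧ j < 11 ∧ D.btw v (x (11 * b + i)) (x (11 * b + j)) p = true

private theorem bad_inc {b : ℕ} {p : V} (hk : 11 * b + 11 ≤ k)
    (hm : ∀ i j, i < j → j < k → D.th v (x i) < D.th v (x j)) (h : BadBlk D v x b p) :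
    D.th v (x (11 * b)) ≤ D.th v p ∧ D.th v p ≤ D.th v (x (11 * b + 10)) := by
  have hle : ∀ i j, i ≤ j → j < k → D.th v (x i) ≤ D.th v (x j) := by
    intro i j h1 h2
    rcases Nat.lt_or_ge i j with h3 | h3
    · exact (hm i j h3 h2).le
    · have : i = j := by omega
      rw [this]
  rcases h with ⟨i, hi, rfl⟩ | ⟨i, j, hij, hj, hb⟩
  · exact ⟨hle _ _ (by omega) (by omega), hle _ _ (by omega) (by omega)⟩
  · unfold btw at hb
    rw [decide_eq_true_eq] at hb
    have h0 := hle (11 * b) (11 * b + i) (by omega) (by omega)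
    have h1 := hle (11 * b + j) (11 * b + 10) (by omega) (by omega)
    have h2 := hm (11 * b + i) (11 * b + j) (by omega) (by omega)
    rcases hb with ⟨h3, h4⟩ | ⟨h3, h4⟩
    · exact ⟨by linarith, by linarith⟩
    · exfalso
      linarith

private theorem bad_dec {b : ℕ} {p : V} (hk : 11 * b + 11 ≤ k)
    (hm : ∀ i j, i < j → j < k → D.th v (x j) < D.th v (x i)) (h : BadBlk D v x b p) :
    D.th v p ≤ D.th v (x (11 * b)) ∧ D.th v (x (11 * b + 10)) ≤ D.th v p := by
  have hle : ∀ i j, i ≤ j → j < k → D.th v (x j) ≤ D.th v (x i) := by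
    intro i j h1 h2
    rcases Nat.lt_or_ge i j with h3 | h3
    · exact (hm i j h3 h2).le
    · have : i = j := by omega
      rw [this]
  rcases h with ⟨i, hi, rfl⟩ | ⟨i, j, hij, hj, hb⟩
  · exact ⟨hle _ _ (by omega) (by omega), hle _ _ (by omega) (by omega)⟩
  · unfold btw at hb
    rw [decide_eq_true_eq] at hb
    have h0 := hle (11 * b) (11 * b + i) (by omega) (by omega)
    have h1 := hle (11 * b + j) (11 * b + 10) (by omega) (by omega)
    have h2 := hm (11 * b + i) (11 * b + j) (by omega) (by omega)
    rcases hb with ⟨h3, h4⟩ | ⟨h3, h4⟩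
    · exfalso
      linarith
    · exact ⟨by linarith, by linarith⟩

/-- **Block pigeonhole.** Proof. For `b = 0, .., 4` let block `b` be the indices
`11 b, ..., 11 b + 10`. A point `p ∈ P` is *bad* for block `b` if `p = x i` for some `i` in the
block or `btw v (x i) (x j) p = true` for some `i < j` in the block. In both cases `th v p` lies in
the closed interval between `th v (x (11 b))` and `th v (x (11 b + 10))` (`h.mono`); these closed
intervals are disjoint for different blocks, so every `p` is bad for at most one block. Since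
`P.card ≤ 4` there is a block (of five) for which no `p ∈ P` is bad (`Finset` pigeonhole: otherwise
choose for every block `b : Fin 5` a bad point `f b ∈ P`; `f` is injective, so `5 ≤ P.card`). -/
theorem Ch.exists_block (h : D.Ch v k x) (hk : 55 ≤ k) (P : Finset V) (hP : P.card ≤ 4) :
    ∃ s, s + 11 ≤ 55 ∧ ∀ p ∈ P, (∀ i, i < 11 → p ≠ x (s + i)) ∧
      ∀ i j, i < j → j < 11 → D.btw v (x (s + i)) (x (s + j)) p = false := by
  by_contra hcon
  have hbad : ∀ b : Fin 5, ∃ p, p ∈ P ∧ BadBlk D v x b.1 p := by
    intro b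
    by_contra hb
    apply hcon
    refine ⟨11 * b.1, by omega, fun p hp => ⟨fun i hi he => ?_, fun i j hij hj => ?_⟩⟩
    · exact hb ⟨p, hp, Or.inl ⟨i, hi, he⟩⟩
    · rcases Bool.eq_false_or_eq_true (D.btw v (x (11 * b.1 + i)) (x (11 * b.1 + j)) p) with
        h1 | h1
      · exact absurd ⟨p, hp, Or.inr ⟨i, j, hij, hj, h1⟩⟩ hb
      · exact h1
  choose f hfP hf using hbad
  have hlt : ∀ b c : Fin 5, b.1 < c.1 → f b ≠ f c := by
    intro b c hbc he
    have h1 := hf b
    have h2 := hf c
    rw [he] at h1
    rcases h.mono with hm | hm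
    · have h3 := (bad_inc (by omega) hm h1).2
      have h4 := (bad_inc (by omega) hm h2).1
      have h5 := hm (11 * b.1 + 10) (11 * c.1) (by omega) (by omega)
      linarith
    · have h3 := (bad_dec (by omega) hm h1).2
      have h4 := (bad_dec (by omega) hm h2).1
      have h5 := hm (11 * b.1 + 10) (11 * c.1) (by omega) (by omega)
      linarith
  have hinj : Function.Injective f := by
    intro b c he
    rcases lt_trichotomy b.1 c.1 with h1 | h1 | h1
    · exact absurd he (hlt b c h1)
    · exact Fin.ext h1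
    · exact absurd he.symm (hlt c b h1)
  have hcard : Fintype.card (Fin 5) ≤ P.card := by
    have := Finset.card_le_card_of_injOn (s := Finset.univ) (t := P) f
      (fun b _ => hfP b) (fun b _ c _ he => hinj he)
    simpa using this
  simp at hcard
  omega

end AbsDrawing
end SDE
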