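import Pool.Agent.SDL.CLem
import Pool.Agent.SDE.LemE

/-!
# SDL/CCov
A non alternating family of uncrossed chords with a relation `R` which covers all elements with a
good neighbour.
-/

namespace SDE
namespace AbsDrawing

variable {V : Type*} [DecidableEq V] (D : AbsDrawing V)

/-- **Cover lemma for a relation `R`.** Proof: as `lemE` in `SDE/LemE.lean` (copy that proof).
`F ⊆ E ×ˢ E` is a family with the first two properties of maximal cardinality. Let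
`D.Adj v E z z'`, `R z z'` and `R z w` for all `w ∈ E` with `cr z z' v w = true`, and suppose that `z`
is on no chord of `F`. `Y = {y ∈ E | y = z ∨ ∀ p ∈ F, ¬ Alt v p.1 p.2 z y}`; `z' ∈ Y`, because a chord
`p` of `F` alternating with `z z'` would (by `Alt.symm`) have `btw v z z' p.1 ≠ btw v z z' p.2`,
against `Adj`. `D.Adj v Y z z'` (`Adj.mono`). `lemCp` gives `y ∈ Y`, `y ≠ z`, `Unc v Y z y` and
(`y = z'` or `cr z z' v y = true`), so `R z y`. `Unc v E z y` as in `lemE` (`sep_max`, `lemD`). So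
`insert (z, y) F` is a larger family: contradiction. -/
theorem coverR {v : V} {E : Finset V} (hv : v ∉ E) (R : V → V → Prop) :
    ∃ F : Finset (V × V),
      (∀ p ∈ F, p.1 ∈ E ∧ p.2 ∈ E ∧ p.1 ≠ p.2 ∧ D.Unc v E p.1 p.2 ∧ R p.1 p.2) ∧
      (∀ p ∈ F, ∀ q ∈ F, ¬ D.Alt v p.1 p.2 q.1 q.2) ∧
      (∀ z z', D.Adj v E z z' → R z z' → (∀ w ∈ E, D.cr z z' v w = true → R z w) →
        ∃ y, (z, y) ∈ F ∨ (y, z) ∈ F) := by
  classical
  obtain ⟨F, hF, hmax⟩ := Finset.exists_max_image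
    (((E ×ˢ E).powerset).filter fun F : Finset (V × V) =>
      (∀ p ∈ F, p.1 ∈ E ∧ p.2 ∈ E ∧ p.1 ≠ p.2 ∧ D.Unc v E p.1 p.2 ∧ R p.1 p.2) ∧
        ∀ p ∈ F, ∀ q ∈ F, ¬ D.Alt v p.1 p.2 q.1 q.2) Finset.card
    ⟨∅, by simp⟩
  rw [Finset.mem_filter, Finset.mem_powerset] at hF
  obtain ⟨hFX, hF1, hF2⟩ := hF
  refine ⟨F, hF1, hF2, fun z z' hadj hR hRw => ?_⟩
  have hz : z ∈ E := hadj.2.1
  by_contra hcov
  push Not at hcov
  have hne : ∀ {x : V}, x ∈ E → x ≠ v := fun hx h => hv (h ▸ hx)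
  have hzF : ∀ p ∈ F, z ≠ p.1 ∧ z ≠ p.2 := by
    intro p hp
    refine ⟨fun h => (hcov p.2).1 ?_, fun h => (hcov p.1).2 ?_⟩
    · rw [h]
      exact hp
    · rw [h]
      exact hp
  set Y : Finset V := E.filter fun y => y = z ∨ ∀ p ∈ F, ¬ D.Alt v p.1 p.2 z y with hY
  have hYX : Y ⊆ E := Finset.filter_subset _ _
  have hzY : z ∈ Y := Finset.mem_filter.2 ⟨hz, Or.inl rfl⟩
  have hz'Y : z' ∈ Y := by
    refine Finset.mem_filter.2 ⟨hadj.2.2.1, Or.inr fun p hp ha => ?_⟩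
    have h4 := Alt.symm (hne (hF1 p hp).1) (hne (hF1 p hp).2.1) (hne hz) (hne hadj.2.2.1) ha
    exact h4.2.2.2.2 (hadj.2.2.2 p.1 (hF1 p hp).1 p.2 (hF1 p hp).2.1 h4.1 h4.2.1 h4.2.2.1
      h4.2.2.2.1)
  have hadjY : D.Adj v Y z z' :=
    ⟨hadj.1, hzY, hz'Y, fun p hp q hq => hadj.2.2.2 p (hYX hp) q (hYX hq)⟩
  obtain ⟨y, hyY, hyz, hunc, hyor⟩ := lemCp (fun h => hv (hYX h)) hadjY
  have hyX : y ∈ E := hYX hyY
  have hRy : R z y := by
    rcases hyor with h | h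
    · rw [h]
      exact hR
    · exact hRw y hyX h
  have hyA : ∀ p ∈ F, ¬ D.Alt v p.1 p.2 z y := by
    rcases (Finset.mem_filter.1 hyY).2 with h | h
    · exact absurd h hyz
    · exact h
  have huncX : D.Unc v E z y := by
    intro w hw
    by_cases hwY : w ∈ Y
    · exact hunc w hwY
    · have h1 : ∃ p ∈ F, D.Alt v p.1 p.2 z w := by
        by_contra hcon
        push Not at hcon
        exact hwY (Finset.mem_filter.2 ⟨hw, Or.inr hcon⟩)
      obtain ⟨p, hp, ha, hr1, hr2⟩ := D.sep_max hv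
        (fun p hp => ⟨(hF1 p hp).1, (hF1 p hp).2.1, (hF1 p hp).2.2.1⟩) hF2 hz hw hzF h1
      obtain ⟨hp1, hp2, hp12, hpu, -⟩ := hF1 p hp
      have hp1Y : p.1 ∈ Y := Finset.mem_filter.2 ⟨hp1, Or.inr hr1⟩
      have hp2Y : p.2 ∈ Y := Finset.mem_filter.2 ⟨hp2, Or.inr hr2⟩
      refine D.lemD hp12 (hne hp1).symm (hne hp2).symm ha.1 ha.2.1 ha.2.2.1 ha.2.2.2.1
        (hpu z hz) (hpu w hw) ?_ ha.2.2.2.2 (hunc p.1 hp1Y) (hunc p.2 hp2Y)
      by_cases h2 : y = p.1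
      · exact Or.inl h2
      by_cases h3 : y = p.2
      · exact Or.inr (Or.inl h3)
      refine Or.inr (Or.inr ⟨?_, hpu y hyX⟩)
      by_contra h4
      exact hyA p hp ⟨ha.1, ha.2.1, h2, h3, fun h5 => h4 h5.symm⟩
  have hnew : insert (z, y) F ∈ ((E ×ˢ E).powerset).filter fun F : Finset (V × V) =>
      (∀ p ∈ F, p.1 ∈ E ∧ p.2 ∈ E ∧ p.1 ≠ p.2 ∧ D.Unc v E p.1 p.2 ∧ R p.1 p.2) ∧
        ∀ p ∈ F, ∀ q ∈ F, ¬ D.Alt v p.1 p.2 q.1 q.2 := by
    rw [Finset.mem_filter, Finset.mem_powerset]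
    refine ⟨?_, ?_, ?_⟩
    · intro p hp
      rcases Finset.mem_insert.1 hp with rfl | hp
      · exact Finset.mem_product.2 ⟨hz, hyX⟩
      · exact hFX hp
    · intro p hp
      rcases Finset.mem_insert.1 hp with rfl | hp
      · exact ⟨hz, hyX, hyz.symm, huncX, hRy⟩
      · exact hF1 p hp
    · intro p hp q hq
      rcases Finset.mem_insert.1 hp with rfl | hp
      · rcases Finset.mem_insert.1 hq with rfl | hq
        · exact fun ha => ha.1 rfl
        · intro ha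
          exact hyA q hq (Alt.symm (hne hz) (hne hyX) (hne (hF1 q hq).1) (hne (hF1 q hq).2.1) ha)
      · rcases Finset.mem_insert.1 hq with rfl | hq
        · exact hyA p hp
        · exact hF2 p hp q hq
  have h1 := hmax _ hnew
  rw [Finset.card_insert_of_notMem (hcov y).1] at h1
  omega

end AbsDrawing
end SDE
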