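import Pool.Agent.SDL.Defs

/-!
# SDL/CDefs
Levels, families of edges of a level, separated sets. The numbers: `30000` is the height of a level.
-/

namespace SDE
namespace AbsDrawing

variable {V : Type*} (D : AbsDrawing V) (v : V) (Cl : ℕ → V → V → Prop)

/-- A family of pairwise disjoint edges of level `j`. -/
structure Fam (j : ℕ) (M : Finset (V × V)) : Prop where
  ne1 : ∀ p ∈ M, p.1 ≠ v
  ne2 : ∀ p ∈ M, p.2 ≠ v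
  ne : ∀ p ∈ M, p.1 ≠ p.2
  dis : ∀ p ∈ M, ∀ q ∈ M, p ≠ q → p.1 ≠ q.1 ∧ p.1 ≠ q.2 ∧ p.2 ≠ q.1 ∧ p.2 ≠ q.2 ∧
    D.cr p.1 p.2 q.1 q.2 = false
  lo : ∀ p ∈ M, Cl (j * 30000 - 1652) p.1 p.2
  hi1 : ∀ p ∈ M, ¬ Cl ((j + 2) * 30000) p.1 p.1
  hi2 : ∀ p ∈ M, ¬ Cl ((j + 2) * 30000) p.2 p.2

/-- A separated set of order `th`. -/
structure SepSet (th : ℕ) (Z : Finset V) : Prop where
  ne : ∀ z ∈ Z, z ≠ v
  hi : ∀ z ∈ Z, Cl (th + 882) z z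
  sep : ∀ z ∈ Z, ∀ z' ∈ Z, z ≠ z' → ¬ Cl th z z'

end AbsDrawing
end SDE
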