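import Pool.Agent.SDL.CCov

/-!
# SDL/CHub
Maximal matching in the covering family and the hub map, with a relation `R`.
-/

namespace SDE
namespace AbsDrawing

variable {V : Type*} [DecidableEq V] (D : AbsDrawing V)

/-- **Hub lemma for a relation `R`.** Proof: as `hub` in `SDE/Hub.lean` (copy that proof) with `F` from
`coverR` and `C = {z ∈ E | ∃ y, (z, y) ∈ F ∨ (y, z) ∈ F}` in place of all of `X`. `R z (h z)` uses
`hsym` if `(h z, z) ∈ F`. -/
theorem hubR {v : V} {E : Finset V} (hv : v ∉ E) (R : V → V → Prop)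
    (hsym : ∀ x y, R x y → R y x) :
    ∃ (M : Finset (V × V)) (H C : Finset V) (h : V → V),
      D.IsPM E M ∧ (∀ p ∈ M, R p.1 p.2) ∧ H ⊆ E ∧ C ⊆ E ∧ H.card ≤ 2 * M.card ∧
      (∀ z ∈ C, z ∉ H → h z ∈ H ∧ D.Unc v E z (h z) ∧ R z (h z)) ∧
      (∀ z ∈ C, z ∉ H → ∀ z' ∈ C, z' ∉ H → ¬ D.Alt v z (h z) z' (h z')) ∧
      (∀ z z', D.Adj v E z z' → R z z' → (∀ w ∈ E, D.cr z z' v w = true → R z w) → z ∈ C) := by
  classical
  obtain ⟨F, hF1, hF2, hF3⟩ := D.coverR hv R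
  obtain ⟨Q, hQ⟩ : ∃ Q : Finset (V × V) → Prop, Q = fun M => ∀ p ∈ M, ∀ q ∈ M, p ≠ q →
    p.1 ≠ q.1 ∧ p.1 ≠ q.2 ∧ p.2 ≠ q.1 ∧ p.2 ≠ q.2 := ⟨_, rfl⟩
  have hne : (F.powerset.filter Q).Nonempty := by
    refine ⟨∅, ?_⟩
    rw [Finset.mem_filter, hQ]
    exact ⟨Finset.empty_mem_powerset F, fun p hp => absurd hp (Finset.notMem_empty p)⟩
  obtain ⟨M, hM, hmax⟩ := Finset.exists_max_image _ Finset.card hne
  rw [Finset.mem_filter, Finset.mem_powerset] at hM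
  obtain ⟨hMF, hMQ⟩ := hM
  have hMQ' : ∀ p ∈ M, ∀ q ∈ M, p ≠ q → p.1 ≠ q.1 ∧ p.1 ≠ q.2 ∧ p.2 ≠ q.1 ∧ p.2 ≠ q.2 := by
    rw [hQ] at hMQ
    exact hMQ
  obtain ⟨H, hH⟩ : ∃ H : Finset V, H = M.image Prod.fst ∪ M.image Prod.snd := ⟨_, rfl⟩
  have hH1 : ∀ p ∈ M, p.1 ∈ H := by
    intro p hp
    rw [hH]
    exact Finset.mem_union_left _ (Finset.mem_image_of_mem _ hp)
  have hH2 : ∀ p ∈ M, p.2 ∈ H := by
    intro p hp
    rw [hH]
    exact Finset.mem_union_right _ (Finset.mem_image_of_mem _ hp)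
  have hvX : ∀ x ∈ E, v ≠ x := by
    rintro x hx rfl
    exact hv hx
  -- a pair outside of `H` could be added
  have hadd : ∀ p ∈ F, p.1 ∉ H → p.2 ∉ H → False := by
    intro p hp h1 h2
    have hpM : p ∉ M := fun h => h1 (hH1 p h)
    have h3 : insert p M ∈ F.powerset.filter Q := by
      rw [Finset.mem_filter, Finset.mem_powerset, hQ]
      refine ⟨Finset.insert_subset hp hMF, ?_⟩
      intro a ha b hb hab
      rcases Finset.mem_insert.1 ha with rfl | ha2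
      · rcases Finset.mem_insert.1 hb with rfl | hb2
        · exact absurd rfl hab
        · refine ⟨?_, ?_, ?_, ?_⟩
          · intro e
            exact h1 (e ▸ hH1 b hb2)
          · intro e
            exact h1 (e ▸ hH2 b hb2)
          · intro e
            exact h2 (e ▸ hH1 b hb2)
          · intro e
            exact h2 (e ▸ hH2 b hb2)
      · rcases Finset.mem_insert.1 hb with rfl | hb2
        · refine ⟨?_, ?_, ?_, ?_⟩
          · intro e
            exact h1 (e ▸ hH1 a ha2)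
          · intro e
            exact h2 (e ▸ hH1 a ha2)
          · intro e
            exact h1 (e ▸ hH2 a ha2)
          · intro e
            exact h2 (e ▸ hH2 a ha2)
        · exact hMQ' a ha2 b hb2 hab
    have h4 := hmax _ h3
    rw [Finset.card_insert_of_notMem hpM] at h4
    omega
  obtain ⟨C, hC⟩ : ∃ C : Finset V, ∀ z, z ∈ C ↔ z ∈ E ∧ ∃ y, (z, y) ∈ F ∨ (y, z) ∈ F :=
    ⟨E.filter fun z => ∃ y, (z, y) ∈ F ∨ (y, z) ∈ F, fun z => Finset.mem_filter⟩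
  have key : ∀ z, ∃ y, z ∈ C → z ∉ H → y ∈ H ∧ ((z, y) ∈ F ∨ (y, z) ∈ F) := by
    intro z
    by_cases hz : z ∈ C
    · obtain ⟨-, y, hy⟩ := (hC z).1 hz
      refine ⟨y, fun _ hzH => ⟨?_, hy⟩⟩
      by_contra hyH
      rcases hy with hy | hy
      · exact hadd _ hy hzH hyH
      · exact hadd _ hy hyH hzH
    · exact ⟨z, fun h => absurd h hz⟩
  choose h hh using key
  refine ⟨M, H, C, h, ⟨?_, ?_⟩, ?_, ?_, ?_, ?_, ?_, ?_, ?_⟩
  · intro p hp
    have h1 := hF1 p (hMF hp)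
    exact ⟨h1.1, h1.2.1, h1.2.2.1⟩
  · intro p hp q hq hpq
    obtain ⟨d1, d2, d3, d4⟩ := hMQ' p hp q hq hpq
    refine ⟨d1, d2, d3, d4, ?_⟩
    obtain ⟨p1, p2, p3, p4, -⟩ := hF1 p (hMF hp)
    obtain ⟨q1, q2, q3, q4, -⟩ := hF1 q (hMF hq)
    have e := D.p5 (hvX _ p1) (hvX _ p2) p3 (hvX _ q1).symm d1.symm d3.symm (hvX _ q2).symm
      d2.symm d4.symm q3
    have e1 : D.cr q.1 q.2 v p.1 = false := q4 _ p1
    have e2 : D.cr q.1 q.2 v p.2 = false := q4 _ p2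
    have e3 : D.cr p.1 p.2 v q.1 = false := p4 _ q1
    have e4 : D.cr p.1 p.2 v q.2 = false := p4 _ q2
    have e5 : D.btw v p.1 p.2 q.1 = D.btw v p.1 p.2 q.2 := by
      by_contra h5
      exact hF2 p (hMF hp) q (hMF hq) ⟨d1.symm, d3.symm, d2.symm, d4.symm, h5⟩
    unfold side at e
    rw [e1, e2, e3, e4, e5] at e
    simp only [Bool.xor_false, Bool.xor_self] at e
    rw [← D.cr_comm]
    exact e
  · intro p hp
    exact (hF1 p (hMF hp)).2.2.2.2
  · intro x hx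
    rw [hH, Finset.mem_union, Finset.mem_image, Finset.mem_image] at hx
    rcases hx with ⟨p, hp, rfl⟩ | ⟨p, hp, rfl⟩
    · exact (hF1 p (hMF hp)).1
    · exact (hF1 p (hMF hp)).2.1
  · intro x hx
    exact ((hC x).1 hx).1
  · rw [hH]
    refine (Finset.card_union_le _ _).trans ?_
    have h1 := Finset.card_image_le (s := M) (f := Prod.fst)
    have h2 := Finset.card_image_le (s := M) (f := Prod.snd)
    omega
  · intro z hz hzH
    obtain ⟨h1, h2⟩ := hh z hz hzH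
    refine ⟨h1, ?_⟩
    rcases h2 with h2 | h2
    · exact ⟨(hF1 _ h2).2.2.2.1, (hF1 _ h2).2.2.2.2⟩
    · exact ⟨((hF1 _ h2).2.2.2.1).symm, hsym _ _ (hF1 _ h2).2.2.2.2⟩
  · intro z hz hzH z' hz' hzH' hA
    obtain ⟨-, h2⟩ := hh z hz hzH
    obtain ⟨-, h2'⟩ := hh z' hz' hzH'
    rcases h2 with h2 | h2
    · rcases h2' with h2' | h2'
      · exact hF2 _ h2 _ h2' hA
      · exact hF2 _ h2 _ h2' hA.swap2
    · rcases h2' with h2' | h2'
      · exact hF2 _ h2 _ h2' hA.swap1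
      · exact hF2 _ h2 _ h2' hA.swap1.swap2
  · intro z z' hadj hR hRw
    exact (hC z).2 ⟨hadj.2.1, hF3 z z' hadj hR hRw⟩

end AbsDrawing
end SDE
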