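import Pool.Agent.SDE.LemC
import Pool.Agent.SDE.Enm

/-!
# SDL/CLem
Refined Lemma C; neighbours in an enumeration.
-/

namespace SDE
namespace AbsDrawing

variable {V : Type*} {D : AbsDrawing V}

/-- Proof: `btw_comm`. -/
theorem Adj.symm {v : V} {Y : Finset V} {z z' : V} (h : D.Adj v Y z z') : D.Adj v Y z' z := by
  obtain ⟨h1, h2, h3, h4⟩ := h
  refine ⟨h1.symm, h3, h2, fun p hp q hq hpz hpz' hqz hqz' => ?_⟩
  rw [D.btw_comm v z z' p, D.btw_comm v z z' q]
  exact h4 p hp q hq hpz' hpz hqz' hqz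

/-- Consecutive elements of the enumeration are neighbours. Proof: an element `p ∈ X` different from
`z i` and `z (i+1)` has `btw v (z i) (z (i+1)) p = false` by `Enum.out` with the block
`[i, i+2)`; `z i ≠ z (i+1)` by `Enum.mono`. -/
theorem Enum.adj {v : V} {X : Finset V} {z : ℕ → V} (h : D.Enum v X z) {i : ℕ}
    (hi : i + 1 < X.card) : D.Adj v X (z i) (z (i + 1)) := by
  have key : ∀ p ∈ X, p ≠ z i → p ≠ z (i + 1) → D.btw v (z i) (z (i + 1)) p = false := by
    intro p hp h1 h2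
    refine h.out (a := i) (b := i + 2) le_rfl (Nat.lt_succ_self i) (by omega) (by omega) hp ?_
    intro k hk1 hk2
    have hk : k = i ∨ k = i + 1 := by omega
    rcases hk with rfl | rfl
    · exact h1
    · exact h2
  refine ⟨fun he => ?_, h.mem i (by omega), h.mem (i + 1) hi, fun p hp q hq h1 h2 h3 h4 => ?_⟩
  · have h1 := h.inj (by omega : i < X.card) hi he
    omega
  · rw [key p hp h1 h2, key q hq h3 h4]

/-- **Refined Lemma C.** Proof. Put `J = {q ∈ Y | cr z z' v q = true}`. If `J = ∅` take `w = z'`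
(`Unc v Y z z'`). Otherwise let `q1 ∈ J` and `Y' = insert z (insert z' J) ⊆ Y`; `2 ≤ Y'.card`. By
`lemC` (for `Y'`, `v ∉ Y'`) there is `w ∈ Y'`, `w ≠ z`, `Unc v Y' z w`. `w ≠ z'` because `q1 ∈ Y'` and
`cr z z' v q1 = true`. So `w ∈ J`, i.e. `cr z z' v w = true`. For `q ∈ Y \ Y'`: `cr z z' v q = false`, and
`lemB` (`btw v z z' w = btw v z z' q` by `Adj`) gives `cr z w v q = false`. Hence `Unc v Y z w`.
(The same steps are in the proof of `lemC` in `SDE/LemC.lean`, copy them.) -/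
theorem lemCp [DecidableEq V] {v : V} {Y : Finset V} (hv : v ∉ Y) {z z' : V}
    (h : D.Adj v Y z z') :
    ∃ w ∈ Y, w ≠ z ∧ D.Unc v Y z w ∧ (w = z' ∨ D.cr z z' v w = true) := by
  by_cases hJ : ∀ q ∈ Y, D.cr z z' v q = false
  · exact ⟨z', h.2.2.1, h.1.symm, hJ, Or.inl rfl⟩
  push Not at hJ
  obtain ⟨q1, hq1, hq1c⟩ := hJ
  have hq1c' : D.cr z z' v q1 = true := by
    rcases h' : D.cr z z' v q1 with _ | _
    · exact absurd h' hq1c
    · rfl
  obtain ⟨Y', hY'⟩ : ∃ Y' : Finset V, ∀ q, q ∈ Y' ↔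
      q = z ∨ q = z' ∨ (q ∈ Y ∧ D.cr z z' v q = true) :=
    ⟨insert z (insert z' (Y.filter fun q => D.cr z z' v q = true)), fun q => by simp⟩
  have hsub : Y' ⊆ Y := by
    intro q hq
    rcases (hY' q).1 hq with rfl | rfl | h'
    · exact h.2.1
    · exact h.2.2.1
    · exact h'.1
  have hzY' : z ∈ Y' := (hY' z).2 (Or.inl rfl)
  have hz'Y' : z' ∈ Y' := (hY' z').2 (Or.inr (Or.inl rfl))
  have h2' : 2 ≤ Y'.card := by
    have h1 : ({z, z'} : Finset V) ⊆ Y' := by
      intro q hq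
      rcases Finset.mem_insert.1 hq with rfl | h'
      · exact hzY'
      · rw [Finset.mem_singleton.1 h']
        exact hz'Y'
    have h' := Finset.card_le_card h1
    rwa [Finset.card_pair h.1] at h'
  obtain ⟨w, hw, hwz, hunc⟩ :=
    D.lemC Y'.card Y' rfl (fun h' => hv (hsub h')) h2' z hzY'
  have hwz' : w ≠ z' := by
    rintro rfl
    have h' := hunc q1 ((hY' q1).2 (Or.inr (Or.inr ⟨hq1, hq1c'⟩)))
    rw [hq1c'] at h'
    exact absurd h' (by decide)
  have hwc : D.cr z z' v w = true := by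
    rcases (hY' w).1 hw with h' | h' | h'
    · exact absurd h' hwz
    · exact absurd h' hwz'
    · exact h'.2
  refine ⟨w, hsub hw, hwz, fun q hq => ?_, Or.inr hwc⟩
  by_cases hqY' : q ∈ Y'
  · exact hunc q hqY'
  · have hqz : q ≠ z := fun h' => hqY' ((hY' q).2 (Or.inl h'))
    have hqa : q ≠ z' := fun h' => hqY' ((hY' q).2 (Or.inr (Or.inl h')))
    have hqw : q ≠ w := fun h' => hqY' (h' ▸ hw)
    have hqv : q ≠ v := fun h' => hv (h' ▸ hq)
    have hqc : D.cr z z' v q = false := by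
      rcases h' : D.cr z z' v q with _ | _
      · rfl
      · exact absurd ((hY' q).2 (Or.inr (Or.inr ⟨hq, h'⟩))) hqY'
    exact (D.lemB hqv hqz hqa hqw
      (h.2.2.2 w (hsub hw) q hq hwz hwz' hqz hqa) hwc hqc).1

end AbsDrawing
end SDE
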