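import Pool.Agent.SDL.CDefs

/-!
# SDL/CPoor
Poor elements of a separated set split into four.
-/

namespace SDE
namespace AbsDrawing

variable {V : Type*} {D : AbsDrawing V} {v : V} {Cl : ℕ → V → V → Prop}

private theorem poor_four (hC : D.CloseSys v Cl) {th : ℕ} {z : V} (hzv : z ≠ v)
    (hz : Cl (th + 882) z z)
    (hpoor : ∀ u u' : V, u ≠ u' → u ≠ v → u' ≠ v → Cl (th + 495) u z →
      Cl (th + 495) u' z → Cl (th + 30882) u u ∨ Cl (th + 30882) u' u') :
    ∃ T : Finset V, T.card = 4 ∧ (∀ x ∈ T, x ≠ v ∧ Cl (th + 495) x z ∧ Cl (th + 30882) x x) ∧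
      ∀ x ∈ T, ∀ y ∈ T, x ≠ y → ¬ Cl (th + 826) x y := by
  classical
  have h1 : Cl (th + 495 + 56) z z := hC.mono (by omega) hz
  obtain ⟨x, hinj, hx, hsep⟩ := hC.p7 (t := th + 495) hzv h1
  have hcard : 4 ≤ (Finset.univ.filter fun a : Fin 5 => Cl (th + 30882) (x a) (x a)).card := by
    have h2 : (Finset.univ.filter fun a : Fin 5 => ¬ Cl (th + 30882) (x a) (x a)).card ≤ 1 := by
      rw [Finset.card_le_one]
      intro a ha b hb
      by_contra hab
      rw [Finset.mem_filter] at ha hb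
      rcases hpoor (x a) (x b) (fun h => hab (hinj h)) (hx a).1 (hx b).1 (hx a).2 (hx b).2
        with h | h
      · exact ha.2 h
      · exact hb.2 h
    have h3 := Finset.card_filter_add_card_filter_not (s := (Finset.univ : Finset (Fin 5)))
      (fun a : Fin 5 => Cl (th + 30882) (x a) (x a))
    rw [Finset.card_univ, Fintype.card_fin] at h3
    omega
  obtain ⟨A, hA, hA4⟩ := Finset.exists_subset_card_eq hcard
  refine ⟨A.image x, ?_, ?_, ?_⟩
  · rw [Finset.card_image_of_injective _ hinj, hA4]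
  · intro y hy
    obtain ⟨a, ha, rfl⟩ := Finset.mem_image.1 hy
    exact ⟨(hx a).1, (hx a).2, (Finset.mem_filter.1 (hA ha)).2⟩
  · intro y hy y' hy' hne
    obtain ⟨a, _, rfl⟩ := Finset.mem_image.1 hy
    obtain ⟨b, _, rfl⟩ := Finset.mem_image.1 hy'
    have hab : a ≠ b := fun h => hne (by rw [h])
    exact hsep a b hab

/-- Poor elements. Proof. For `z ∈ Z` apply `p7` with `t = th + 495` (`Cl (th + 551) z z` by `mono`):
`x : Fin 5 → V` injective, `x a ≠ v`, `Cl (th + 495) (x a) z`, and for `a ≠ b`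
`¬ Cl (th + 826) (x a) (x b)`. By `hpoor` at most one `a` has `¬ Cl (th + 30882) (x a) (x a)`; so
there is a set `T z` of four elements of the form `x a` with `Cl (th + 30882)`. For different `z`,
`z'` and `x ∈ T z`, `y ∈ T z'`: `¬ Cl (th + 30000) x y`, otherwise (`mono`) `p2` twice gives
`Cl (th + 495 - 110 - 110) z z'`, so `Cl th z z'`: contradiction; in particular `x ≠ y`
(`Cl (th + 30882) x x`). Take `Z' = Z.biUnion T`; `Z'.card = 4 * Z.card`
(`Finset.card_biUnion`). Inside one `T z`: `¬ Cl (th + 30000)` by `mono` from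
`¬ Cl (th + 826)`. -/
theorem petals_poor [DecidableEq V] (hC : D.CloseSys v Cl) {th : ℕ} {Z : Finset V}
    (hZ : SepSet v Cl th Z)
    (hpoor : ∀ z ∈ Z, ∀ u u' : V, u ≠ u' → u ≠ v → u' ≠ v → Cl (th + 495) u z →
      Cl (th + 495) u' z → Cl (th + 30882) u u ∨ Cl (th + 30882) u' u') :
    ∃ Z' : Finset V, SepSet v Cl (th + 30000) Z' ∧ Z'.card = 4 * Z.card := by
  classical
  have h0 : ∀ z ∈ Z, ∃ T : Finset V, T.card = 4 ∧
      (∀ x ∈ T, x ≠ v ∧ Cl (th + 495) x z ∧ Cl (th + 30882) x x) ∧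
      ∀ x ∈ T, ∀ y ∈ T, x ≠ y → ¬ Cl (th + 826) x y := fun z hz =>
    poor_four hC (hZ.ne z hz) (hZ.hi z hz) (hpoor z hz)
  choose! T hT using h0
  have hcross : ∀ z ∈ Z, ∀ z' ∈ Z, z ≠ z' → ∀ x ∈ T z, ∀ y ∈ T z', ¬ Cl (th + 30000) x y := by
    intro z hz z' hz' hne x hx y hy hxy
    obtain ⟨hxv, hxz, _⟩ := (hT z hz).2.1 x hx
    obtain ⟨hyv, hyz, _⟩ := (hT z' hz').2.1 y hy
    have h1 : Cl (th + 495) x y := hC.mono (by omega) hxy
    have h2 := hC.p2 (hZ.ne z hz) hxv hyv (hC.symm hxz) h1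
    have h3 : Cl (th + 495 - 110) y z' := hC.mono (by omega) hyz
    have h4 := hC.p2 (hZ.ne z hz) hyv (hZ.ne z' hz') h2 h3
    exact hZ.sep z hz z' hz' hne (hC.mono (by omega) h4)
  refine ⟨Z.biUnion T, ⟨?_, ?_, ?_⟩, ?_⟩
  · intro x hx
    obtain ⟨z, hz, hxz⟩ := Finset.mem_biUnion.1 hx
    exact ((hT z hz).2.1 x hxz).1
  · intro x hx
    obtain ⟨z, hz, hxz⟩ := Finset.mem_biUnion.1 hx
    exact hC.mono (by omega) ((hT z hz).2.1 x hxz).2.2
  · intro x hx y hy hne
    obtain ⟨z, hz, hxz⟩ := Finset.mem_biUnion.1 hx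
    obtain ⟨z', hz', hyz⟩ := Finset.mem_biUnion.1 hy
    by_cases hzz : z = z'
    · subst hzz
      intro h
      exact (hT z hz).2.2 x hxz y hyz hne (hC.mono (by omega) h)
    · exact hcross z hz z' hz' hzz x hxz y hyz
  · rw [Finset.card_biUnion]
    · rw [Finset.sum_congr rfl fun z hz => (hT z hz).1, Finset.sum_const, smul_eq_mul, mul_comm]
    · intro z hz z' hz' hne
      rw [Function.onFun, Finset.disjoint_left]
      intro x hx hx'
      exact hcross z hz z' hz' hne x hx x hx' (hC.mono (by omega) ((hT z hz).2.1 x hx).2.2)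

end AbsDrawing
end SDE
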