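import Pool.Agent.SDL.CRich
import Pool.Agent.SDL.CPoor

/-!
# SDL/CPet
The petal lemma.
-/

namespace SDE
namespace AbsDrawing

variable {V : Type*} {D : AbsDrawing V} {v : V} {Cl : ℕ → V → V → Prop}

/-- **Petal lemma** (Lemma 3.5). Put `th = j * 30000 - 882` (`j ≥ 1`, so `th + 882 = j * 30000`).
Proof. `z ∈ Z` is rich if there are `u ≠ u'`, both `≠ v`, with `Cl (th + 495) u z`,
`Cl (th + 495) u' z`, `¬ Cl (th + 30882) u u`, `¬ Cl (th + 30882) u' u'`. `Zr` the set of rich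
elements, `Zp` the set of the others. For rich `z` choose `a z = u`, `b z = u'`. By `petals_rich`
(for `Zr`) the family `M = Zr.image (fun z => (a z, b z))` is a `Fam` of level `j`, of cardinality
`Zr.card`: `lo` because `j * 30000 - 1652 ≤ th + 385` (`mono`), `hi1, hi2` because
`th + 30882 = (j + 1) * 30000 ≤ (j + 2) * 30000`. By `petals_poor` (`SepSet` for the subset `Zp`) there
is `Z'` with `SepSet (th + 30000) Z'`, `th + 30000 = (j + 1) * 30000 - 882`, and
`Z'.card = 4 * Zp.card`. `Z.card = Zr.card + Zp.card`. -/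
theorem petals [DecidableEq V] (hC : D.CloseSys v Cl) {j : ℕ} (hj : 1 ≤ j) {Z : Finset V}
    (hZ : SepSet v Cl (j * 30000 - 882) Z) :
    ∃ (M : Finset (V × V)) (Z' : Finset V), D.Fam v Cl j M ∧
      SepSet v Cl ((j + 1) * 30000 - 882) Z' ∧ 4 * Z.card ≤ 4 * M.card + Z'.card := by
  classical
  have e : (j + 1) * 30000 - 882 = j * 30000 - 882 + 30000 := by omega
  rw [e]
  obtain ⟨th, hth⟩ : ∃ th, th = j * 30000 - 882 := ⟨_, rfl⟩
  rw [← hth] at hZ ⊢
  let R : V → Prop := fun z => ∃ u u' : V, u ≠ u' ∧ u ≠ v ∧ u' ≠ v ∧ Cl (th + 495) u z ∧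
    Cl (th + 495) u' z ∧ ¬ Cl (th + 30882) u u ∧ ¬ Cl (th + 30882) u' u'
  have hR : ∀ z, ∃ u u' : V, R z → (u ≠ u' ∧ u ≠ v ∧ u' ≠ v ∧ Cl (th + 495) u z ∧
      Cl (th + 495) u' z ∧ ¬ Cl (th + 30882) u u ∧ ¬ Cl (th + 30882) u' u') := by
    intro z
    by_cases h : R z
    · obtain ⟨u, u', h'⟩ := h
      exact ⟨u, u', fun _ => h'⟩
    · exact ⟨z, z, fun h' => absurd h' h⟩
  choose a b hab using hR
  have hr : ∀ z ∈ Z.filter R, a z ≠ b z ∧ a z ≠ v ∧ b z ≠ v ∧ Cl (th + 495) (a z) z ∧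
      Cl (th + 495) (b z) z ∧ ¬ Cl (th + 30882) (a z) (a z) ∧ ¬ Cl (th + 30882) (b z) (b z) :=
    fun z hz => hab z (Finset.mem_filter.mp hz).2
  obtain ⟨p1, p2⟩ := petals_rich hC (th := th) (Z := Z.filter R)
    (fun z hz => hZ.ne z (Finset.mem_filter.mp hz).1)
    (fun z hz z' hz' => hZ.sep z (Finset.mem_filter.mp hz).1 z' (Finset.mem_filter.mp hz').1)
    a b (fun z hz => ⟨(hr z hz).2.1, (hr z hz).2.2.1, (hr z hz).2.2.2.1, (hr z hz).2.2.2.2.1⟩)
  obtain ⟨Z', q1, q2⟩ := petals_poor hC (th := th) (Z := Z.filter fun z => ¬ R z)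
    ⟨fun z hz => hZ.ne z (Finset.mem_filter.mp hz).1,
      fun z hz => hZ.hi z (Finset.mem_filter.mp hz).1,
      fun z hz z' hz' => hZ.sep z (Finset.mem_filter.mp hz).1 z' (Finset.mem_filter.mp hz').1⟩
    (by
      intro z hz u u' h1 h2 h3 h4 h5
      by_contra hc
      rw [not_or] at hc
      exact (Finset.mem_filter.mp hz).2 ⟨u, u', h1, h2, h3, h4, h5, hc.1, hc.2⟩)
  refine ⟨(Z.filter R).image fun z => (a z, b z), Z', ?_, q1, ?_⟩
  · refine ⟨?_, ?_, ?_, ?_, ?_, ?_, ?_⟩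
    · intro p hp
      obtain ⟨z, hz, rfl⟩ := Finset.mem_image.mp hp
      exact (hr z hz).2.1
    · intro p hp
      obtain ⟨z, hz, rfl⟩ := Finset.mem_image.mp hp
      exact (hr z hz).2.2.1
    · intro p hp
      obtain ⟨z, hz, rfl⟩ := Finset.mem_image.mp hp
      exact (hr z hz).1
    · intro p hp q hq hpq
      obtain ⟨z, hz, rfl⟩ := Finset.mem_image.mp hp
      obtain ⟨z', hz', rfl⟩ := Finset.mem_image.mp hq
      refine p2 z hz z' hz' ?_
      rintro rfl
      exact hpq rfl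
    · intro p hp
      obtain ⟨z, hz, rfl⟩ := Finset.mem_image.mp hp
      exact hC.mono (by omega) (p1 z hz)
    · intro p hp
      obtain ⟨z, hz, rfl⟩ := Finset.mem_image.mp hp
      intro h
      exact (hr z hz).2.2.2.2.2.1 (hC.mono (by omega) h)
    · intro p hp
      obtain ⟨z, hz, rfl⟩ := Finset.mem_image.mp hp
      intro h
      exact (hr z hz).2.2.2.2.2.2 (hC.mono (by omega) h)
  · have hcard : ((Z.filter R).image fun z => (a z, b z)).card = (Z.filter R).card := by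
      apply Finset.card_image_of_injOn
      intro z hz z' hz' h
      by_contra hne
      exact (p2 z hz z' hz' hne).1 (congrArg Prod.fst h)
    have hsum := Finset.card_filter_add_card_filter_not (s := Z) R
    omega

end AbsDrawing
end SDE
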