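import Pool.Agent.SDL.CDefs

/-!
# SDL/CRich
Rich elements of a separated set give disjoint edges.
-/

namespace SDE
namespace AbsDrawing

variable {V : Type*} {D : AbsDrawing V} {v : V} {Cl : ℕ → V → V → Prop}

private theorem petals_rich_aux (hC : D.CloseSys v Cl) {th : ℕ} {z z' x y : V} (hz : z ≠ v)
    (hz' : z' ≠ v) (hx : x ≠ v) (hy : y ≠ v) (hsep : ¬ Cl th z z')
    (h1 : Cl (th + 495) x z) (h2 : Cl (th + 495) y z') : ¬ Cl (th + 220) x y := by
  intro h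
  apply hsep
  have e1 : Cl (th + 220) z x := hC.mono (by omega) (hC.symm h1)
  have e2 := hC.p2 hz hx hy e1 h
  have e3 : Cl (th + 110) z y := hC.mono (by omega) e2
  have e4 : Cl (th + 110) y z' := hC.mono (by omega) h2
  have e5 := hC.p2 hz hy hz' e3 e4
  exact hC.mono (by omega) e5

/-- Edges at rich elements. Proof. (i) `Cl (th + 385) (a z) (b z)` by `p2` (`th + 495 - 110`), `symm`.
(ii) For `z ≠ z'` in `Z` and `x ∈ {a z, b z}`, `y ∈ {a z', b z'}`: `¬ Cl (th + 220) x y`; otherwise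
`Cl (th + 220) z x`, `Cl (th + 220) x y` (`mono`, `symm`) give `Cl (th + 110) z y` and with
`Cl (th + 110) y z'`: `Cl th z z'`, contradiction. Consequently `x ≠ y` (`left`: `Cl (th + 495) x z`
gives `Cl (th + 220) x x`). (iii) `p5` with `n = th + 220`, `p = a z`, `q = b z`, `u = a z'`, `w = b z'`:
`cr (a z) (b z) (a z') (b z') = false`. The map `z ↦ (a z, b z)` is injective on `Z` by (ii). -/
theorem petals_rich (hC : D.CloseSys v Cl) {th : ℕ} {Z : Finset V} (hv : ∀ z ∈ Z, z ≠ v)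
    (hsep : ∀ z ∈ Z, ∀ z' ∈ Z, z ≠ z' → ¬ Cl th z z') (a b : V → V)
    (h : ∀ z ∈ Z, a z ≠ v ∧ b z ≠ v ∧ Cl (th + 495) (a z) z ∧ Cl (th + 495) (b z) z) :
    (∀ z ∈ Z, Cl (th + 385) (a z) (b z)) ∧
    ∀ z ∈ Z, ∀ z' ∈ Z, z ≠ z' → a z ≠ a z' ∧ a z ≠ b z' ∧ b z ≠ a z' ∧ b z ≠ b z' ∧
      D.cr (a z) (b z) (a z') (b z') = false := by
  have hself : ∀ {x z : V}, Cl (th + 495) x z → Cl (th + 220) x x := by
    intro x z hx
    exact hC.mono (by omega) (hC.left hx)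
  have h1 : ∀ z ∈ Z, Cl (th + 385) (a z) (b z) := by
    intro z hz
    obtain ⟨ha, hb, hca, hcb⟩ := h z hz
    have e := hC.p2 ha (hv z hz) hb hca (hC.symm hcb)
    exact hC.mono (by omega) e
  refine ⟨h1, ?_⟩
  intro z hz z' hz' hne
  obtain ⟨ha, hb, hca, hcb⟩ := h z hz
  obtain ⟨ha', hb', hca', hcb'⟩ := h z' hz'
  have hs := hsep z hz z' hz' hne
  have k1 := petals_rich_aux hC (hv z hz) (hv z' hz') ha ha' hs hca hca'
  have k2 := petals_rich_aux hC (hv z hz) (hv z' hz') ha hb' hs hca hcb'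
  have k3 := petals_rich_aux hC (hv z hz) (hv z' hz') hb ha' hs hcb hca'
  have k4 := petals_rich_aux hC (hv z hz) (hv z' hz') hb hb' hs hcb hcb'
  refine ⟨?_, ?_, ?_, ?_, ?_⟩
  · intro e; rw [← e] at k1; exact k1 (hself hca)
  · intro e; rw [← e] at k2; exact k2 (hself hca)
  · intro e; rw [← e] at k3; exact k3 (hself hcb)
  · intro e; rw [← e] at k4; exact k4 (hself hcb)
  · exact hC.p5 ha hb ha' hb' (hC.mono (by omega) (h1 z hz)) k1 k2

end AbsDrawing
end SDE
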