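import Pool.Agent.SDL.Defs

/-!
# SDL/ChB
Basic facts on chains.
-/

namespace SDE
namespace AbsDrawing

variable {V : Type*} {D : AbsDrawing V} {v : V} {k : ℕ} {x : ℕ → V}

theorem Ch.sub (h : D.Ch v k x) {a m : ℕ} (ham : a + m ≤ k) : D.Ch v m (fun i => x (a + i)) := by
  refine ⟨fun i hi => h.ne _ (by omega), ?_, fun i j l h1 h2 h3 => h.cr1 _ _ _ (by omega)
    (by omega) (by omega)⟩
  rcases h.mono with hm | hm
  · exact Or.inl fun i j h1 h2 => hm _ _ (by omega) (by omega)
  · exact Or.inr fun i j h1 h2 => hm _ _ (by omega) (by omega)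

theorem Ch.pre (h : D.Ch v k x) {m : ℕ} (hm : m ≤ k) : D.Ch v m x := by
  refine ⟨fun i hi => h.ne _ (by omega), ?_, fun i j l h1 h2 h3 => h.cr1 _ _ _ h1 h2 (by omega)⟩
  rcases h.mono with hm' | hm'
  · exact Or.inl fun i j h1 h2 => hm' _ _ h1 (by omega)
  · exact Or.inr fun i j h1 h2 => hm' _ _ h1 (by omega)

theorem Hi.sub {u : V} (h : D.Hi v k x u) {a m : ℕ} (ham : a + m ≤ k) :
    D.Hi v m (fun i => x (a + i)) u :=
  fun i j h1 h2 h3 => h _ _ (by omega) (by omega) h3

theorem Hi.pre {u : V} (h : D.Hi v k x u) {m : ℕ} (hm : m ≤ k) : D.Hi v m x u :=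
  fun i j h1 h2 h3 => h _ _ h1 (by omega) h3

theorem Lo.sub {u : V} (h : D.Lo v k x u) {a m : ℕ} (ham : a + m ≤ k) :
    D.Lo v m (fun i => x (a + i)) u :=
  fun i j h1 h2 h3 => h _ _ (by omega) (by omega) h3

theorem Lo.pre {u : V} (h : D.Lo v k x u) {m : ℕ} (hm : m ≤ k) : D.Lo v m x u :=
  fun i j h1 h2 h3 => h _ _ h1 (by omega) h3

theorem Ch.inj (h : D.Ch v k x) {i j : ℕ} (hi : i < k) (hj : j < k) (he : x i = x j) : i = j := by
  rcases lt_trichotomy i j with h1 | h1 | h1
  · exfalso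
    rcases h.mono with hm | hm
    · have := hm i j h1 hj
      rw [he] at this
      exact lt_irrefl _ this
    · have := hm i j h1 hj
      rw [he] at this
      exact lt_irrefl _ this
  · exact h1
  · exfalso
    rcases h.mono with hm | hm
    · have := hm j i h1 hi
      rw [he] at this
      exact lt_irrefl _ this
    · have := hm j i h1 hi
      rw [he] at this
      exact lt_irrefl _ this

theorem Ch.btw_mid (h : D.Ch v k x) {i j l : ℕ} (hij : i < j) (hjl : j < l) (hl : l < k) :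
    D.btw v (x i) (x l) (x j) = true := by
  unfold btw
  rw [decide_eq_true_eq]
  rcases h.mono with hm | hm
  · exact Or.inl ⟨hm i j hij (by omega), hm j l hjl hl⟩
  · exact Or.inr ⟨hm j l hjl hl, hm i j hij (by omega)⟩

theorem Ch.btw_hi (h : D.Ch v k x) {i j l : ℕ} (hij : i < j) (hjl : j < l) (hl : l < k) :
    D.btw v (x i) (x j) (x l) = false := by
  unfold btw
  rw [decide_eq_false_iff_not]
  rcases h.mono with hm | hm
  · have h1 := hm i j hij (by omega)
    have h2 := hm j l hjl hl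
    rintro (⟨h3, h4⟩ | ⟨h3, h4⟩) <;> linarith
  · have h1 := hm i j hij (by omega)
    have h2 := hm j l hjl hl
    rintro (⟨h3, h4⟩ | ⟨h3, h4⟩) <;> linarith

theorem Ch.btw_lo (h : D.Ch v k x) {i j l : ℕ} (hij : i < j) (hjl : j < l) (hl : l < k) :
    D.btw v (x j) (x l) (x i) = false := by
  unfold btw
  rw [decide_eq_false_iff_not]
  rcases h.mono with hm | hm
  · have h1 := hm i j hij (by omega)
    have h2 := hm j l hjl hl
    rintro (⟨h3, h4⟩ | ⟨h3, h4⟩) <;> linarith
  · have h1 := hm i j hij (by omega)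
    have h2 := hm j l hjl hl
    rintro (⟨h3, h4⟩ | ⟨h3, h4⟩) <;> linarith

theorem Ch.cr_mid (h : D.Ch v k x) {i j l : ℕ} (hij : i < j) (hjl : j < l) (hl : l < k) :
    D.cr (x i) (x l) v (x j) = false := by
  have h1 := h.cr1 i j l hij hjl hl
  -- pairs `x i x j | v x l` and `x i x l | v x j`
  have h2 : D.cr (x i) (x j) (x l) v = true := by rw [D.cr_swap']; exact h1
  have h3 := D.S2 h2
  rw [D.cr_swap']
  exact h3

theorem Ch.cr_lo (h : D.Ch v k x) {i j l : ℕ} (hij : i < j) (hjl : j < l) (hl : l < k) :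
    D.cr (x j) (x l) v (x i) = false := by
  have h1 := h.cr1 i j l hij hjl hl
  have h2 : D.cr (x j) (x i) (x l) v = true := by rw [D.cr_swap', D.cr_swap]; exact h1
  have h3 := D.S2 h2
  rw [D.cr_swap']
  exact h3

/-- Of three elements, `u` is outside the first or outside the second gap. -/
theorem Ch.free3 (h : D.Ch v k x) {i j l : ℕ} (hij : i < j) (hjl : j < l) (hl : l < k) (u : V) :
    D.btw v (x i) (x j) u = false ∨ D.btw v (x j) (x l) u = false := by
  by_contra hc
  rw [not_or, Bool.not_eq_false, Bool.not_eq_false] at hc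
  obtain ⟨h1, h2⟩ := hc
  unfold btw at h1 h2
  rw [decide_eq_true_eq] at h1 h2
  rcases h.mono with hm | hm
  · have h3 := hm i j hij (by omega)
    have h4 := hm j l hjl hl
    rcases h1 with ⟨h5, h6⟩ | ⟨h5, h6⟩ <;> rcases h2 with ⟨h7, h8⟩ | ⟨h7, h8⟩ <;> linarith
  · have h3 := hm i j hij (by omega)
    have h4 := hm j l hjl hl
    rcases h1 with ⟨h5, h6⟩ | ⟨h5, h6⟩ <;> rcases h2 with ⟨h7, h8⟩ | ⟨h7, h8⟩ <;> linarith

/-- Of three elements of a chain which is below `u`, two neighbours form a pair which is free for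
`u` and crosses `vu`. -/
theorem Hi.pair3 {u : V} (h : D.Ch v k x) (hu : D.Hi v k x u) {i j l : ℕ} (hij : i < j)
    (hjl : j < l) (hl : l < k) :
    (D.btw v (x i) (x j) u = false ∧ D.cr (x i) (x j) v u = true) ∨
      (D.btw v (x j) (x l) u = false ∧ D.cr (x j) (x l) v u = true) := by
  rcases h.free3 hij hjl hl u with h1 | h1
  · exact Or.inl ⟨h1, hu i j hij (by omega) h1⟩
  · exact Or.inr ⟨h1, hu j l hjl hl h1⟩

/-- An element of the chain is not on its high side. -/
theorem Hi.ne (hk : 2 ≤ k) {u : V} (hu : D.Hi v k x u) {i : ℕ} (hi : i < k) :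
    u ≠ x i := by
  rintro rfl
  rcases Nat.eq_zero_or_pos i with h0 | h0
  · subst h0
    have h1 : D.btw v (x 0) (x 1) (x 0) = false := by
      unfold btw
      rw [decide_eq_false_iff_not]
      rintro (⟨h3, h4⟩ | ⟨h3, h4⟩)
      · exact lt_irrefl _ h3
      · exact lt_irrefl _ h4
    have h2 := hu 0 1 (by omega) (by omega) h1
    rw [D.cr_self3] at h2
    exact absurd h2 (by decide)
  · have h1 : D.btw v (x 0) (x i) (x i) = false := by
      unfold btw
      rw [decide_eq_false_iff_not]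
      rintro (⟨h3, h4⟩ | ⟨h3, h4⟩)
      · exact lt_irrefl _ h4
      · exact lt_irrefl _ h3
    have h2 := hu 0 i h0 hi h1
    rw [D.cr_self5] at h2
    exact absurd h2 (by decide)

end AbsDrawing
end SDE
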