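import Pool.Agent.SDE.WBlk

/-!
# SDL/Defs
Linear lower bound for the number of pairwise disjoint edges of simple drawings of `K_n`
(MP_df6f91_co). Definitions: chains, high and low sides, stacks of chains, closeness.
Full paper proof: /team-store/SD_Linear.md.
-/

namespace SDE
namespace AbsDrawing

variable {V : Type*} (D : AbsDrawing V)

/-- A chain of size `k` at `v`: the vertices `x 0, ..., x (k-1)`, monotone in the rotation at `v`,
such that the edge `x i x j` crosses `v x l` for `i < j < l < k`. -/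
structure Ch (v : V) (k : ℕ) (x : ℕ → V) : Prop where
  ne : ∀ i, i < k → x i ≠ v
  mono : (∀ i j, i < j → j < k → D.th v (x i) < D.th v (x j)) ∨
    (∀ i j, i < j → j < k → D.th v (x j) < D.th v (x i))
  cr1 : ∀ i j l, i < j → j < l → l < k → D.cr (x i) (x j) v (x l) = true

/-- `u` is on the high side: all edges `x i x j` of the chain such that `u` is not between `x i` and
`x j` in the rotation at `v` cross `vu`. -/
def Hi (v : V) (k : ℕ) (x : ℕ → V) (u : V) : Prop :=
  ∀ i j, i < j → j < k → D.btw v (x i) (x j) u = false → D.cr (x i) (x j) v u = true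

/-- `u` is on the low side: no edge `x i x j` of the chain such that `u` is not between `x i` and
`x j` in the rotation at `v` crosses `vu`. -/
def Lo (v : V) (k : ℕ) (x : ℕ → V) (u : V) : Prop :=
  ∀ i j, i < j → j < k → D.btw v (x i) (x j) u = false → D.cr (x i) (x j) v u = false

/-- `u` is above the stack `S` (a list of chains `(k, x)`, the top chain first). -/
def Above (v : V) : List (ℕ × (ℕ → V)) → V → Prop
  | [], _ => True
  | W :: _, u => D.Hi v W.1 W.2 u

/-- Stacks: all chains have size at least `165` and all elements of a chain are above the rest of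
the stack. -/
def IsStk (v : V) : List (ℕ × (ℕ → V)) → Prop
  | [] => True
  | W :: S => 165 ≤ W.1 ∧ D.Ch v W.1 W.2 ∧ (∀ i, i < W.1 → D.Above v S (W.2 i)) ∧ IsStk v S

/-- Weight of a stack. -/
def wt : List (ℕ × (ℕ → V)) → ℕ
  | [] => 0
  | W :: S => (W.1 - 220) + wt S

/-- `x` and `y` are close of order `n`: they are above a common stack of weight at least `n`. -/
def Cl (v : V) (n : ℕ) (x y : V) : Prop :=
  ∃ S : List (ℕ × (ℕ → V)), D.IsStk v S ∧ n ≤ wt S ∧ D.Above v S x ∧ D.Above v S y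

/-- The properties of the closeness relation used in the counting part. -/
structure CloseSys (v : V) (Cl : ℕ → V → V → Prop) : Prop where
  symm : ∀ {n : ℕ} {x y : V}, Cl n x y → Cl n y x
  mono : ∀ {m n : ℕ} {x y : V}, m ≤ n → Cl n x y → Cl m x y
  zero : ∀ x y : V, Cl 0 x y
  left : ∀ {n : ℕ} {x y : V}, Cl n x y → Cl n x x
  bdd : ∃ N : ℕ, ∀ x : V, x ≠ v → ¬ Cl N x x
  p2 : ∀ {n : ℕ} {x w y : V}, x ≠ v → w ≠ v → y ≠ v → Cl n x w → Cl n w y → Cl (n - 110) x y
  p3 : ∀ {n : ℕ} {p q u : V}, p ≠ v → q ≠ v → u ≠ v → Cl n p q → D.cr p q v u = true →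
    Cl (n - 55) p u
  p4 : ∀ {n : ℕ} {a b c d : V}, a ≠ v → b ≠ v → c ≠ v → d ≠ v → Cl n a b → Cl n c d →
    D.Alt v a b c d → Cl (n - 275) a c
  p5 : ∀ {n : ℕ} {p q u w : V}, p ≠ v → q ≠ v → u ≠ v → w ≠ v → Cl (n + 165) p q →
    ¬ Cl n p u → ¬ Cl n p w → D.cr p q u w = false
  p6 : ∀ {n m : ℕ} {w : V} {E : Finset V} {z : ℕ → V}, 168 ≤ m → D.WBlock v w E (4 ^ m) z →
    (∀ i, i < 4 ^ m → Cl n (z i) w) → ∃ i, i < 4 ^ m ∧ Cl (n - 165 + (m - 223)) (z i) (z i)
  p7 : ∀ {t : ℕ} {z : V}, z ≠ v → Cl (t + 56) z z → ∃ x : Fin 5 → V, Function.Injective x ∧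
    (∀ a, x a ≠ v ∧ Cl t (x a) z) ∧ ∀ a b, a ≠ b → ¬ Cl (t + 331) (x a) (x b)

end AbsDrawing
end SDE
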