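import Pool.Agent.SDL.TT
import Pool.Agent.SDL.AA

/-!
# SDL/Desc
Descent in a stack.
-/

namespace SDE
namespace AbsDrawing

variable {V : Type*} {D : AbsDrawing V} {v : V}

/-- If two elements `p, q` are above the top chain `W` and `pq` crosses `vu` then `u` is high for
`W` without its last 55 elements. Proof: otherwise (`Ch.hi_trim` with `c = 55`) `u` is low for the
last 55 elements `fun i => W.2 (W.1 - 55 + i)`, which form a chain (`Ch.sub`) for which `p, q` are
high (`Hi.sub`); `Ch.A1` gives `cr p q v u = false`. -/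
theorem hi_of_cross {W : ℕ × (ℕ → V)} (h : D.Ch v W.1 W.2) (hk : 55 ≤ W.1) {p q u : V}
    (hp : p ≠ v) (hq : q ≠ v) (hu : u ≠ v) (Hp : D.Hi v W.1 W.2 p) (Hq : D.Hi v W.1 W.2 q)
    (hc : D.cr p q v u = true) : D.Hi v (W.1 - 55) W.2 u := by
  apply h.hi_trim hu hk
  intro Lu
  have hsub : D.Ch v 55 (fun i => W.2 (W.1 - 55 + i)) := h.sub (by omega)
  have e := hsub.A1 le_rfl hp hq hu (Hp.sub (by omega)) (Hq.sub (by omega)) Lu
  rw [hc] at e
  exact absurd e (by decide)

/-- One step of the descent: `x` is high for the top chain `W'` without its last `c ≤ 110`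
elements; then it is high for the next chain `W` without its last 55 elements. Proof:
`W'.1 - c ≥ 55 ≥ 3`, so by `Hi.pair3` (for the chain `Ch.pre`, indices `0,1,2`) there are
`i < j` in `{0,1,2}` with `cr (W'.2 i) (W'.2 j) v x = true`; the elements of `W'` are above
`W :: S`, i.e. high for `W`; `hi_of_cross`. -/
theorem desc_step {W' W : ℕ × (ℕ → V)} {S : List (ℕ × (ℕ → V))}
    (hs : D.IsStk v (W' :: W :: S)) {x : V} (hx : x ≠ v) {c : ℕ} (hc : c ≤ 110)
    (H : D.Hi v (W'.1 - c) W'.2 x) : D.Hi v (W.1 - 55) W.2 x := by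
  obtain ⟨h1, h2, h3, h4⟩ := hs
  obtain ⟨k1, k2, k3, k4⟩ := h4
  have hpre : D.Ch v (W'.1 - c) W'.2 := h2.pre (Nat.sub_le _ _)
  rcases Hi.pair3 hpre H (i := 0) (j := 1) (l := 2) (by omega) (by omega) (by omega) with
    ⟨_, e⟩ | ⟨_, e⟩
  · exact hi_of_cross k2 (by omega) (h2.ne 0 (by omega)) (h2.ne 1 (by omega)) hx
      (h3 0 (by omega)) (h3 1 (by omega)) e
  · exact hi_of_cross k2 (by omega) (h2.ne 1 (by omega)) (h2.ne 2 (by omega)) hx
      (h3 1 (by omega)) (h3 2 (by omega)) e

private theorem desc_aux {W : ℕ × (ℕ → V)} {S : List (ℕ × (ℕ → V))} :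
    ∀ (T : List (ℕ × (ℕ → V))) (W' : ℕ × (ℕ → V)), D.IsStk v (W' :: (T ++ W :: S)) →
      ∀ {x : V}, x ≠ v → D.Hi v (W'.1 - 55) W'.2 x → D.Hi v (W.1 - 55) W.2 x := by
  intro T
  induction T with
  | nil => intro W' hs x hx H; exact desc_step hs hx (c := 55) (by norm_num) H
  | cons W'' T ih =>
    intro W' hs x hx H
    exact ih W'' hs.2.2.2 hx (desc_step (W := W'') hs hx (c := 55) (by norm_num) H)

/-- **Descent.** Proof: induction on `T` (generalize `x`): for `T = [W']`: `desc_step` with `c = 0`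
(`Above` of `W' :: _` is `Hi v W'.1 W'.2`). To make the induction work first prove the statement
with the hypothesis `Hi v (W'.1 - 55) W'.2 x` for the top chain `W'` of `T` (`Hi.pre` gives it from
`Above`) and use `desc_step` with `c = 55`. `IsStk` of a tail is part of `IsStk`. -/
theorem desc {T : List (ℕ × (ℕ → V))} {W : ℕ × (ℕ → V)} {S : List (ℕ × (ℕ → V))}
    (hT : T ≠ []) (hs : D.IsStk v (T ++ W :: S)) {x : V} (hx : x ≠ v)
    (hA : D.Above v (T ++ W :: S) x) : D.Hi v (W.1 - 55) W.2 x := by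
  cases T with
  | nil => exact absurd rfl hT
  | cons W' T =>
    exact desc_aux T W' hs hx (Hi.pre (k := W'.1) hA (Nat.sub_le _ _))

/-- A tail of a stack is a stack. Induction on `T`. -/
theorem IsStk.tail {T S : List (ℕ × (ℕ → V))} (hs : D.IsStk v (T ++ S)) : D.IsStk v S := by
  induction T with
  | nil => exact hs
  | cons W T ih => exact ih hs.2.2.2

/-- Weight of a concatenation. Induction on `T`. -/
theorem wt_append (T S : List (ℕ × (ℕ → V))) : wt (T ++ S) = wt T + wt S := by
  induction T with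
  | nil => simp [wt]
  | cons W T ih =>
    simp only [List.cons_append, wt, ih]
    omega

end AbsDrawing
end SDE
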