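import Pool.Agent.SDL.PZero

/-!
# SDL/Graft
Changing the base of a stack.
-/

namespace SDE
namespace AbsDrawing

variable {V : Type*} {D : AbsDrawing V} {v : V}

/-- **Grafting.** Proof: induction on `T`. `T = []`: trivial. `T = W :: T'`: by induction
`IsStk v (T' ++ B)` and everything (`≠ v`) above `T' ++ L` is above `T' ++ B`; the elements of `W`
are `≠ v` (`Ch.ne`) and above `T' ++ L`; `Above` for `W :: _` only depends on `W`. -/
theorem graft {T L B : List (ℕ × (ℕ → V))} (hs : D.IsStk v (T ++ L)) (hb : D.IsStk v B)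
    (hab : ∀ y, y ≠ v → D.Above v L y → D.Above v B y) :
    D.IsStk v (T ++ B) ∧ ∀ y, y ≠ v → D.Above v (T ++ L) y → D.Above v (T ++ B) y := by
  induction T with
  | nil => exact ⟨hb, hab⟩
  | cons W T ih =>
    obtain ⟨h1, h2, h3, h4⟩ := hs
    obtain ⟨k1, k2⟩ := ih h4
    exact ⟨⟨h1, h2, fun i hi => k2 _ (h2.ne i hi) (h3 i hi), k1⟩, fun y _ hy => hy⟩

/-- **Replacement lemma.** `z` is above the stack `T ++ W :: S0`; the elements number `i < j` of `W`
are above another stack `S'`; `j < i0 < W.1`. Then `z` is above a stack of weight at least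
`wt S' + wt T + (W.1 - i0) - 275`. Proof. If `S' = []`, take `S'' = T ++ W :: S0` itself:
`wt T + (W.1 - 220) + wt S0 + 275 ≥ wt T + (W.1 - i0)`. Let `S' = W' :: S1`. For `c` with
`j < c < W.1`: `cr (W.2 i) (W.2 j) v (W.2 c) = true`, so by `hi_of_cross`
`Hi v (W'.1 - 55) W'.2 (W.2 c)`. (α) `165 ≤ W.1 - i0`: `trim` with `c = 55`,
`A u := ∃ c, i0 ≤ c ∧ c < W.1 ∧ u = W.2 c` gives `B0`, `wt B0 + 55 ≥ wt S'`;
`B = (W.1 - i0, fun s => W.2 (i0 + s)) :: B0` is a stack (`Ch.sub`); `graft` with `L = W :: S0`: if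
`Hi v W.1 W.2 y` then `y` is high for the upper part (`Hi.sub`). `S'' = T ++ B` has weight
`wt T + (W.1 - i0 - 220) + wt B0`. (β) `W.1 - i0 < 165`: put `m = W.1 - 1 ≥ i0 > j`. For `y ≠ v`
with `Hi v W.1 W.2 y`: by `Hi.pair3` (indices `i < j < m`) one of the pairs
`W.2 i, W.2 j` and `W.2 j, W.2 m` crosses `vy`; all three are high for `R = (W'.1 - 55, W'.2)`
(`Hi.pre`), so `hi_of_cross` for `R` gives `Hi v (W'.1 - 55 - 55) W'.2 y`. `trim` with `c = 110` and
`A y := y ≠ v ∧ Hi v W.1 W.2 y` gives `B` with `wt B + 110 ≥ wt S'`; `graft` with `L = W :: S0`,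
`S'' = T ++ B`. (`wt_append`.) -/
theorem replace {T S0 S' : List (ℕ × (ℕ → V))} {W : ℕ × (ℕ → V)}
    (hs : D.IsStk v (T ++ W :: S0)) {z : V} (hz : z ≠ v) (hzA : D.Above v (T ++ W :: S0) z)
    (hs' : D.IsStk v S') {i j i0 : ℕ} (hij : i < j) (hj : j < i0) (hi0 : i0 < W.1)
    (hi : D.Above v S' (W.2 i)) (hjA : D.Above v S' (W.2 j)) :
    ∃ S'', D.IsStk v S'' ∧ D.Above v S'' z ∧ wt S' + wt T + (W.1 - i0) ≤ wt S'' + 275 := by
  have hWst : D.IsStk v (W :: S0) := hs.tail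
  have hW : D.Ch v W.1 W.2 := hWst.2.1
  have hW1 : 165 ≤ W.1 := hWst.1
  cases S' with
  | nil =>
    refine ⟨T ++ W :: S0, hs, hzA, ?_⟩
    rw [wt_append]
    simp only [wt]
    omega
  | cons W' S1 =>
    have hW'1 : 165 ≤ W'.1 := hs'.1
    have hW' : D.Ch v W'.1 W'.2 := hs'.2.1
    have hiH : D.Hi v W'.1 W'.2 (W.2 i) := hi
    have hjH : D.Hi v W'.1 W'.2 (W.2 j) := hjA
    have hc : ∀ c, j < c → c < W.1 → D.Hi v (W'.1 - 55) W'.2 (W.2 c) := fun c h1 h2 =>
      hi_of_cross hW' (by omega) (hW.ne i (by omega)) (hW.ne j (by omega)) (hW.ne c h2) hiH hjH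
        (hW.cr1 i j c hij h1 h2)
    by_cases hα : 165 ≤ W.1 - i0
    · obtain ⟨B0, g1, g2, g3⟩ := trim S1 W' 55 le_rfl (by norm_num) hs'
        (fun u => ∃ c, i0 ≤ c ∧ c < W.1 ∧ u = W.2 c) (by
          rintro u ⟨c, h1, h2, rfl⟩
          exact ⟨hW.ne c h2, hc c (by omega) h2⟩)
      have hB : D.IsStk v ((W.1 - i0, fun s => W.2 (i0 + s)) :: B0) :=
        ⟨hα, hW.sub (by omega), fun s hs => g3 _ ⟨i0 + s, by omega, by
          have hs1 : s < W.1 - i0 := hs
          omega, rfl⟩, g1⟩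
      obtain ⟨k1, k2⟩ := graft (T := T) (L := W :: S0) hs hB
        (fun y _ hy => Hi.sub (k := W.1) (x := W.2) hy (by omega))
      refine ⟨_, k1, k2 z hz hzA, ?_⟩
      rw [wt_append]
      simp only [wt] at g2 ⊢
      omega
    · obtain ⟨B, g1, g2, g3⟩ := trim S1 W' 110 (by norm_num) le_rfl hs'
        (fun y => y ≠ v ∧ D.Hi v W.1 W.2 y) (by
          rintro y ⟨hy, hyH⟩
          refine ⟨hy, ?_⟩
          have hR : D.Ch v (W'.1 - 55) W'.2 := hW'.pre (Nat.sub_le _ _)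
          have e : W'.1 - 110 = W'.1 - 55 - 55 := by omega
          rw [e]
          rcases Hi.pair3 hW hyH (i := i) (j := j) (l := W.1 - 1) hij (by omega) (by omega) with
            ⟨_, h⟩ | ⟨_, h⟩
          · exact hi_of_cross (W := (W'.1 - 55, W'.2)) hR (by
              show 55 ≤ W'.1 - 55
              omega) (hW.ne i (by omega)) (hW.ne j (by omega)) hy
              (hiH.pre (Nat.sub_le _ _)) (hjH.pre (Nat.sub_le _ _)) h
          · exact hi_of_cross (W := (W'.1 - 55, W'.2)) hR (by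
              show 55 ≤ W'.1 - 55
              omega) (hW.ne j (by omega)) (hW.ne _ (by omega)) hy
              (hjH.pre (Nat.sub_le _ _)) (hc _ (by omega) (by omega)) h)
      obtain ⟨k1, k2⟩ := graft (T := T) (L := W :: S0) hs g1
        (fun y hy hA => g3 y ⟨hy, hA⟩)
      refine ⟨_, k1, k2 z hz hzA, ?_⟩
      rw [wt_append]
      omega

end AbsDrawing
end SDE
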