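import Pool.Agent.SDL.ChB

/-!
# SDL/MI
Monotonicity of the sides along a chain: the three basic steps.
-/

namespace SDE
namespace AbsDrawing

variable {V : Type*} {D : AbsDrawing V} {v : V} {k : ℕ} {x : ℕ → V}

/-- (I1). Exactly as `TChain.mono1` in `SDE/LemI.lean` (contrapositive; copy that proof): by
contradiction `cr xi xl v u = true`; `p4` with triangle `(v, xi, xj)`, `a = xl`, `b = xi`,
`c = u`, `d = v`. `g = uv` misses the triangle (`hc`), `bef` terms: only `v xj` could count,
`cr xl xi v xj = false` (`Ch.cr_mid`, `cr_swap`). `side v xi xj xl = false ^^ true` (`Ch.btw_hi`,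
`cr1`), `side v xi xj u = false ^^ false` (`hf`, `hc`). Contradiction. -/
theorem Ch.I1 (h : D.Ch v k x) {i j l : ℕ} (hij : i < j) (hjl : j < l) (hl : l < k) {u : V}
    (hu : u ≠ v) (hux : ∀ a, a < k → u ≠ x a) (hf : D.btw v (x i) (x j) u = false)
    (hc : D.cr (x i) (x j) v u = false) : D.cr (x i) (x l) v u = false := by
  rcases hcr : D.cr (x i) (x l) v u with _ | _
  · rfl
  exfalso
  have hi : i < k := hij.trans (hjl.trans hl)
  have hj : j < k := hjl.trans hl
  have hne : ∀ a b, a < k → b < k → a ≠ b → x a ≠ x b := fun a b ha hb hab he =>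
    hab (h.inj ha hb he)
  have hc' : D.cr (x l) (x i) u v = true := by
    rw [D.cr_swap', D.cr_swap]
    exact hcr
  have k3 : D.cr u v (x i) (x j) = false := by
    rw [D.cr_comm, D.cr_swap']
    exact hc
  have key := D.p4 (h.ne i hi).symm (h.ne j hj).symm (hne i j hi hj hij.ne) (h.ne l hl)
    (hne l i hl hi (hij.trans hjl).ne') (hne l j hl hj hjl.ne') hu (hux i hi) (hux j hj) hc'
    (D.cr_self4 _ _ _) (D.cr_self4 _ _ _) k3
  have b2 : D.cr (x l) (x i) v (x j) = false := by
    rw [D.cr_swap]
    exact h.cr_mid hij hjl hl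
  have s1 : D.side v (x i) (x j) (x l) = true := by
    unfold side
    rw [h.btw_hi hij hjl hl, h.cr1 i j l hij hjl hl]
    rfl
  have s2 : D.side v (x i) (x j) u = false := by
    unfold side
    rw [hf, hc]
    rfl
  rw [s1, s2] at key
  unfold bef at key
  rw [D.cr_self5, b2, D.cr_self4] at key
  simp at key

/-- (I2). Exactly as `TChain.mono2` in `SDE/LemI.lean` (contrapositive; copy that proof): by
contradiction `cr xj xl v u = true`; `p4` with triangle `(v, xi, xl)`, `a = xj`, `b = xl`,
`c = u`, `d = v`. `bef` terms: `v xl`, `xi xl` have a common vertex with `e = xj xl`,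
`cr xj xl v xi = false` (`Ch.cr_lo`). `side v xi xl xj = true ^^ false` (`Ch.btw_mid`,
`Ch.cr_mid`), `side v xi xl u = false`. Contradiction. -/
theorem Ch.I2 (h : D.Ch v k x) {i j l : ℕ} (hij : i < j) (hjl : j < l) (hl : l < k) {u : V}
    (hu : u ≠ v) (hux : ∀ a, a < k → u ≠ x a) (hf : D.btw v (x i) (x l) u = false)
    (hc : D.cr (x i) (x l) v u = false) : D.cr (x j) (x l) v u = false := by
  rcases hcr : D.cr (x j) (x l) v u with _ | _
  · rfl
  exfalso
  have hi : i < k := hij.trans (hjl.trans hl)
  have hj : j < k := hjl.trans hl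
  have hil : i < l := hij.trans hjl
  have hne : ∀ a b, a < k → b < k → a ≠ b → x a ≠ x b := fun a b ha hb hab he =>
    hab (h.inj ha hb he)
  have hc' : D.cr (x j) (x l) u v = true := by
    rw [D.cr_swap']
    exact hcr
  have k3 : D.cr u v (x i) (x l) = false := by
    rw [D.cr_comm, D.cr_swap']
    exact hc
  have key := D.p4 (h.ne i hi).symm (h.ne l hl).symm (hne i l hi hl hil.ne) (h.ne j hj)
    (hne j i hj hi hij.ne') (hne j l hj hl hjl.ne) hu (hux i hi) (hux l hl) hc'
    (D.cr_self4 _ _ _) (D.cr_self4 _ _ _) k3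
  have s1 : D.side v (x i) (x l) (x j) = true := by
    unfold side
    rw [h.btw_mid hij hjl hl, h.cr_mid hij hjl hl]
    rfl
  have s2 : D.side v (x i) (x l) u = false := by
    unfold side
    rw [hf, hc]
    rfl
  rw [s1, s2] at key
  unfold bef at key
  rw [h.cr_lo hij hjl hl, D.cr_self5, D.cr_self5] at key
  simp at key

/-- (I3). Proof: by contradiction `cr xj xl v u = true`. `g = xj xl` misses the triangle
`T = (v, xi, xi')`: `cr xj xl v xi = false`, `cr xj xl v xi' = false` (`Ch.cr_lo`), and by `p5`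
with triangle `(v, xi, xi')`, `a = xj`, `c = xl`:
`cr xj xl xi xi' = side xj ^^ side xl = (false ^^ true) ^^ (false ^^ true) = false`
(`Ch.btw_hi`, `cr1`). Now `p4` with triangle `(v, xi, xi')`, `a = u`, `b = v`, `c = xj`,
`d = xl`: `e = uv` crosses `g` (hypothesis, symmetries). `bef` terms: `v xi`, `v xi'` have the
common vertex `v` with `e`, `cr u v xi xi' = false` (`hc`). So
`false = side u ^^ side xj = (false ^^ false) ^^ (false ^^ true) = true`: contradiction. -/
theorem Ch.I3 (h : D.Ch v k x) {i i' j l : ℕ} (hii : i < i') (hij : i' < j) (hjl : j < l)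
    (hl : l < k) {u : V} (hu : u ≠ v) (hux : ∀ a, a < k → u ≠ x a)
    (hf : D.btw v (x i) (x i') u = false) (hc : D.cr (x i) (x i') v u = false) :
    D.cr (x j) (x l) v u = false := by
  rcases hcr : D.cr (x j) (x l) v u with _ | _
  · rfl
  exfalso
  have hj : j < k := hjl.trans hl
  have hi' : i' < k := hij.trans hj
  have hi : i < k := hii.trans hi'
  have hne : ∀ a b, a < k → b < k → a ≠ b → x a ≠ x b := fun a b ha hb hab he =>
    hab (h.inj ha hb he)
  have hj1 : D.side v (x i) (x i') (x j) = true := by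
    unfold side
    rw [h.btw_hi hii hij hj, h.cr1 i i' j hii hij hj]
    rfl
  have hl1 : D.side v (x i) (x i') (x l) = true := by
    unfold side
    rw [h.btw_hi hii (hij.trans hjl) hl, h.cr1 i i' l hii (hij.trans hjl) hl]
    rfl
  have g1 : D.cr (x j) (x l) v (x i) = false := h.cr_lo (hii.trans hij) hjl hl
  have g2 : D.cr (x j) (x l) v (x i') = false := h.cr_lo hij hjl hl
  have g3 : D.cr (x j) (x l) (x i) (x i') = false := by
    have key := D.p5 (h.ne i hi).symm (h.ne i' hi').symm (hne i i' hi hi' hii.ne) (h.ne j hj)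
      (hne j i hj hi (hii.trans hij).ne') (hne j i' hj hi' hij.ne') (h.ne l hl)
      (hne l i hl hi (hii.trans (hij.trans hjl)).ne') (hne l i' hl hi' (hij.trans hjl).ne')
      (hne j l hj hl hjl.ne)
    rw [g1, g2, hj1, hl1] at key
    simpa using key
  have hc' : D.cr u v (x j) (x l) = true := by
    rw [D.cr_comm, D.cr_swap']
    exact hcr
  have key := D.p4 (h.ne i hi).symm (h.ne i' hi').symm (hne i i' hi hi' hii.ne) hu (hux i hi)
    (hux i' hi') (h.ne j hj) (hne j i hj hi (hii.trans hij).ne') (hne j i' hj hi' hij.ne') hc'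
    g1 g2 g3
  have s2 : D.side v (x i) (x i') u = false := by
    unfold side
    rw [hf, hc]
    rfl
  have b3 : D.cr u v (x i) (x i') = false := by
    rw [D.cr_comm, D.cr_swap']
    exact hc
  rw [s2, hj1] at key
  unfold bef at key
  rw [D.cr_self4, D.cr_self4, b3] at key
  simp at key

end AbsDrawing
end SDE
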