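import Pool.Agent.SDL.MI

/-!
# SDL/MM
Lemma M: the sides are monotone along a chain.
-/

namespace SDE
namespace AbsDrawing

variable {V : Type*} {D : AbsDrawing V} {v : V} {k : ℕ} {x : ℕ → V}

/-- **Lemma M.** Proof. Case 1: `u = x m` for some `m < k`. From `hc` and `Ch.cr_mid`, `Ch.cr_lo`,
`cr_ne` (degenerate cases) one gets `l < m` (if `m < j`: `cr_lo`; `m = j`, `m = l`: degenerate,
`cr_self3`, `cr_self5`; `j < m < l`: `cr_mid`), so `i < i' ≤ l < m` and `Ch.cr1` gives the claim.
Case 2: `u ≠ x a` for all `a < k`. Suppose `cr xi xi' v u = false`. If `i' < j`: `Ch.I3` gives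
`cr xj xl v u = false`, contradiction. If `j ≤ i'`: then `btw v (x i) (x l) u = false`: `u` is
different from all `x a`, so `th v u ≠ th v (x a)` (`th_inj`), the sequence `th v (x a)` is
monotone (`h.mono`), `i ≤ j ≤ i' ≤ l`, `u` is not between `x i, x i'` and not between `x j, x l`;
real numbers, case analysis (if `j = i'` use that `th v u ≠ th v (x j)`). Then `Ch.I1`
(`i < i' < l`; nothing to do if `i' = l`) gives `cr xi xl v u = false`, and `Ch.I2`
(`i < j < l`; nothing to do if `i = j`) gives `cr xj xl v u = false`: contradiction. -/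
theorem Ch.mono_hi (h : D.Ch v k x) {u : V} (hu : u ≠ v) {i i' j l : ℕ} (hi : i < i') (hj : j < l)
    (hl : l < k) (h1 : i ≤ j) (h2 : i' ≤ l) (f1 : D.btw v (x i) (x i') u = false)
    (f2 : D.btw v (x j) (x l) u = false) (hc : D.cr (x j) (x l) v u = true) :
    D.cr (x i) (x i') v u = true := by
  have hk : ∀ a, a ≤ l → a < k := fun a ha => lt_of_le_of_lt ha hl
  by_cases hux : ∀ a, a < k → u ≠ x a
  swap
  · push Not at hux
    obtain ⟨m, hm, rfl⟩ := hux
    have hlm : l < m := by
      rcases lt_trichotomy m j with h3 | h3 | h3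
      · rw [h.cr_lo h3 hj hl] at hc
        exact absurd hc (by decide)
      · subst h3
        rw [D.cr_self3] at hc
        exact absurd hc (by decide)
      · rcases lt_trichotomy m l with h4 | h4 | h4
        · rw [h.cr_mid h3 h4 hl] at hc
          exact absurd hc (by decide)
        · subst h4
          rw [D.cr_self5] at hc
          exact absurd hc (by decide)
        · exact h4
    exact h.cr1 i i' m hi (lt_of_le_of_lt h2 hlm) hm
  rcases hcr : D.cr (x i) (x i') v u with _ | _
  swap
  · rfl
  exfalso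
  rcases lt_or_ge i' j with h3 | h3
  · rw [h.I3 hi h3 hj hl hu hux f1 hcr] at hc
    exact absurd hc (by decide)
  have hth : ∀ a, a < k → D.th v u ≠ D.th v (x a) := fun a ha he =>
    hux a ha (D.th_inj hu (h.ne a ha) he)
  have hf : D.btw v (x i) (x l) u = false := by
    unfold btw at f1 f2 ⊢
    rw [decide_eq_false_iff_not] at f1 f2 ⊢
    have e1 := hth i' (hk i' h2)
    rcases h.mono with hm | hm
    · have m1 : D.th v (x i) < D.th v (x l) := hm i l (lt_of_lt_of_le hi h2) hl
      have m2 : D.th v (x j) ≤ D.th v (x i') := by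
        rcases h3.eq_or_lt with h4 | h4
        · rw [h4]
        · exact (hm j i' h4 (hk i' h2)).le
      rintro (⟨h5, h6⟩ | ⟨h5, h6⟩)
      · rcases lt_or_gt_of_ne e1 with h7 | h7
        · exact f1 (Or.inl ⟨h5, h7⟩)
        · exact f2 (Or.inl ⟨lt_of_le_of_lt m2 h7, h6⟩)
      · linarith
    · have m1 : D.th v (x l) < D.th v (x i) := hm i l (lt_of_lt_of_le hi h2) hl
      have m2 : D.th v (x i') ≤ D.th v (x j) := by
        rcases h3.eq_or_lt with h4 | h4
        · rw [h4]
        · exact (hm j i' h4 (hk i' h2)).le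
      rintro (⟨h5, h6⟩ | ⟨h5, h6⟩)
      · linarith
      · rcases lt_or_gt_of_ne e1 with h7 | h7
        · exact f2 (Or.inr ⟨h5, lt_of_lt_of_le h7 m2⟩)
        · exact f1 (Or.inr ⟨h7, h6⟩)
  have c1 : D.cr (x i) (x l) v u = false := by
    rcases h2.eq_or_lt with h4 | h4
    · rw [← h4]
      exact hcr
    · exact h.I1 hi h4 hl hu hux f1 hcr
  have c2 : D.cr (x j) (x l) v u = false := by
    rcases h1.eq_or_lt with h4 | h4
    · rw [← h4]
      exact c1
    · exact h.I2 h4 hj hl hu hux hf c1
  rw [c2] at hc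
  exact absurd hc (by decide)

end AbsDrawing
end SDE
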