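import Pool.Agent.SDE.Abs

/-!
# SDL/NN
Lemma N: two pairs which are low for each other have no common point above them.
-/

namespace SDE
namespace AbsDrawing

variable {V : Type*} (D : AbsDrawing V)

/-- One half of Lemma N. Proof: `g = yy'` misses the triangle `T = (v, x, x')`: `k1', k2'` and `p5`
(`a = y`, `c = y'`): `cr y y' x x' = side y ^^ side y' = (false ^^ false) ^^ (false ^^ false)`
(`b1, b2, c1, c2`; the terms `cr y y' v x`, `cr y y' v x'` are `false`). `p4` with triangle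
`(v, x, x')`, `a = w`, `b = v`, `c = y`, `d = y'`: `e = wv` crosses `g` (`w2`). `bef` terms:
`v x`, `v x'` have a common vertex with `e`; so
`bef w v y y' x x' = side w ^^ side y = (false ^^ true) ^^ false = true`, i.e.
`pos w v x x' < pos w v y y'`. -/
theorem nn_half {v x x' y y' w : V} (hvx : v ≠ x) (hvx' : v ≠ x') (hxx : x ≠ x') (hyv : y ≠ v)
    (hyx : y ≠ x) (hyx' : y ≠ x') (hy'v : y' ≠ v) (hy'x : y' ≠ x) (hy'x' : y' ≠ x') (hyy : y ≠ y')
    (hwv : w ≠ v) (hwx : w ≠ x) (hwx' : w ≠ x')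
    (b0 : D.btw v x x' w = false) (b1 : D.btw v x x' y = false) (b2 : D.btw v x x' y' = false)
    (c1 : D.cr x x' v y = false) (c2 : D.cr x x' v y' = false)
    (k1 : D.cr y y' v x = false) (k2 : D.cr y y' v x' = false)
    (w1 : D.cr x x' v w = true) (w2 : D.cr y y' v w = true) :
    D.pos w v x x' < D.pos w v y y' := by
  have sy : D.side v x x' y = false := by rw [side, b1, c1]; rfl
  have sy' : D.side v x x' y' = false := by rw [side, b2, c2]; rfl
  have sw : D.side v x x' w = true := by rw [side, b0, w1]; rfl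
  have k3 : D.cr y y' x x' = false := by
    have h := D.p5 hvx hvx' hxx hyv hyx hyx' hy'v hy'x hy'x' hyy
    rw [k1, k2, sy, sy'] at h
    simpa using h
  have hcr : D.cr w v y y' = true := by
    rw [D.cr_swap v w y y', D.cr_comm y y' v w, w2]
  have h := D.p4 hvx hvx' hxx hwv hwx hwx' hyv hyx hyx' hcr k1 k2 k3
  have e1 : D.bef w v y y' v x = false := by rw [bef, D.cr_self4]; rfl
  have e2 : D.bef w v y y' v x' = false := by rw [bef, D.cr_self4]; rfl
  rw [e1, e2, sw, sy] at h
  have h' : D.bef w v y y' x x' = true := by simpa using h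
  rw [bef, Bool.and_eq_true] at h'
  exact of_decide_eq_true h'.2

/-- **Lemma N.** Proof: `nn_half` twice (once with the two pairs exchanged) gives
`pos w v x x' < pos w v y y' < pos w v x x'`. -/
theorem lemN {v x x' y y' w : V} (hvx : v ≠ x) (hvx' : v ≠ x') (hxx : x ≠ x') (hyv : y ≠ v)
    (hyx : y ≠ x) (hyx' : y ≠ x') (hy'v : y' ≠ v) (hy'x : y' ≠ x) (hy'x' : y' ≠ x') (hyy : y ≠ y')
    (hwv : w ≠ v) (hwx : w ≠ x) (hwx' : w ≠ x') (hwy : w ≠ y) (hwy' : w ≠ y')
    (b0 : D.btw v x x' w = false) (b1 : D.btw v x x' y = false) (b2 : D.btw v x x' y' = false)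
    (d0 : D.btw v y y' w = false) (d1 : D.btw v y y' x = false) (d2 : D.btw v y y' x' = false)
    (c1 : D.cr x x' v y = false) (c2 : D.cr x x' v y' = false)
    (k1 : D.cr y y' v x = false) (k2 : D.cr y y' v x' = false)
    (w1 : D.cr x x' v w = true) (w2 : D.cr y y' v w = true) : False := by
  have h1 := D.nn_half hvx hvx' hxx hyv hyx hyx' hy'v hy'x hy'x' hyy hwv hwx hwx' b0 b1 b2 c1 c2
    k1 k2 w1 w2
  have h2 := D.nn_half hyv.symm hy'v.symm hyy hvx.symm hyx.symm hy'x.symm hvx'.symm hyx'.symm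
    hy'x'.symm hxx hwv hwy hwy' d0 d1 d2 k1 k2 c1 c2 w2 w1
  exact lt_asymm h1 h2

end AbsDrawing
end SDE
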