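import Pool.Agent.SDL.PTwo

/-!
# SDL/PFive
(P5): separation.
-/

namespace SDE
namespace AbsDrawing

variable {V : Type*} {D : AbsDrawing V} {v : V}

/-- Splitting a stack at a weight. Induction on `S`: for `W :: S`, if `th < wt S` use the induction
hypothesis (`T := W :: T`), otherwise `T = []`. -/
theorem split_wt : ∀ (S : List (ℕ × (ℕ → V))) (th : ℕ), th < wt S →
    ∃ (T : List (ℕ × (ℕ → V))) (W : ℕ × (ℕ → V)) (S0 : List (ℕ × (ℕ → V))),
      S = T ++ W :: S0 ∧ wt S0 ≤ th ∧ th < wt (W :: S0) := by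
  intro S
  induction S with
  | nil => intro th h; exact absurd h (Nat.not_lt_zero _)
  | cons W S ih =>
    intro th h
    by_cases h1 : th < wt S
    · obtain ⟨T, W', S0, e1, e2, e3⟩ := ih th h1
      exact ⟨W :: T, W', S0, by rw [e1]; rfl, e2, e3⟩
    · exact ⟨[], W, S, rfl, not_lt.mp h1, h⟩

/-- `p, q` are above `T ++ W :: S0`, the chain `W` is heavy and `u` is not close to `p` of order
`n`, `n + 164 < wt (W :: S0)`; then `u` is low for the last 110 elements of `W`. Proof: otherwise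
(`Ch.hi_trim` with `c = 110`) `Hi v (W.1 - 110) W.2 u`. `W.1 > 220` because
`wt S0 ≤ n + 164 < wt (W :: S0)`. Let `R = (W.1 - 55, W.2)`; `R :: S0` is a stack (`Ch.pre`) of weight
`wt (W :: S0) - 55`, `p` is high for `R` without its last 55 elements (from `hpW` by `Hi.pre`) and
so is `u`; `trim` with `c = 55` gives a stack of weight `≥ wt (W :: S0) - 110 ≥ n` with `p, u`
above: contradiction. -/
theorem lo_of_far {W : ℕ × (ℕ → V)} {S0 : List (ℕ × (ℕ → V))} (hs : D.IsStk v (W :: S0))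
    {p u : V} (hp : p ≠ v) (hu : u ≠ v) (hpW : D.Hi v (W.1 - 55) W.2 p) {n : ℕ}
    (h1 : wt S0 ≤ n + 164) (h2 : n + 164 < wt (W :: S0)) (hn : ¬ D.Cl v n p u) :
    D.Lo v 110 (fun i => W.2 (W.1 - 110 + i)) u := by
  by_contra hl
  obtain ⟨hs1, hs2, hs3, hs4⟩ := hs
  have hw : wt (W :: S0) = (W.1 - 220) + wt S0 := rfl
  have hiu : D.Hi v (W.1 - 110) W.2 u := hs2.hi_trim hu (by omega) hl
  have hR : D.IsStk v ((W.1 - 55, W.2) :: S0) :=
    ⟨show 165 ≤ W.1 - 55 by omega, hs2.pre (by omega),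
      fun i hi => hs3 i (lt_of_lt_of_le hi (Nat.sub_le _ _)), hs4⟩
  obtain ⟨S', k1, k2, k3⟩ := trim S0 (W.1 - 55, W.2) 55 le_rfl (by norm_num) hR
    (fun y => y = p ∨ y = u) (by
      rintro y (rfl | rfl)
      · exact ⟨hp, hpW.pre (show W.1 - 55 - 55 ≤ W.1 - 55 by omega)⟩
      · exact ⟨hu, hiu.pre (show W.1 - 55 - 55 ≤ W.1 - 110 by omega)⟩)
  have hw2 : wt ((W.1 - 55, W.2) :: S0) = (W.1 - 55 - 220) + wt S0 := rfl
  exact hn ⟨S', k1, by omega, k3 p (Or.inl rfl), k3 u (Or.inr rfl)⟩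

/-- **(P5).** Proof: `S` the stack of `h`, `n + 164 < wt S`; `split_wt` with `th = n + 164`:
`S = T ++ W :: S0`. `p, q` are high for `W` without its last 55 elements (if `T = []`: `Hi.pre`;
else `desc`). By `lo_of_far` `u` and `w` are low for the last 110 elements of `W`; the 55 elements
`fun i => W.2 (W.1 - 110 + i)`, `i < 55`, form a chain (`Ch.sub`) for which `u, w` are low (`Lo.pre`)
and `p, q` are high (`Hi.sub` with `a = W.1 - 110`, `m = 55`, `a + m = W.1 - 55`). `Ch.A2`. -/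
theorem Cl.p5 {n : ℕ} {p q u w : V} (hp : p ≠ v) (hq : q ≠ v) (hu : u ≠ v) (hw : w ≠ v)
    (h : D.Cl v (n + 165) p q) (hpu : ¬ D.Cl v n p u) (hpw : ¬ D.Cl v n p w) :
    D.cr p q u w = false := by
  obtain ⟨S, h1, h2, h3, h4⟩ := h
  obtain ⟨T, W, S0, e1, e2, e3⟩ := split_wt S (n + 164) (by omega)
  subst e1
  have hs : D.IsStk v (W :: S0) := IsStk.tail h1
  have hD : ∀ y, y ≠ v → D.Above v (T ++ W :: S0) y → D.Hi v (W.1 - 55) W.2 y := by
    intro y hy hA
    rcases T with _ | ⟨W', T'⟩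
    · have hA' : D.Hi v W.1 W.2 y := hA
      exact hA'.pre (by omega)
    · exact desc (by simp) h1 hy hA
  have hpW := hD p hp h3
  have hqW := hD q hq h4
  have hwt : wt (W :: S0) = (W.1 - 220) + wt S0 := rfl
  have lu := lo_of_far hs hp hu hpW e2 e3 hpu
  have lw := lo_of_far hs hp hw hpW e2 e3 hpw
  have hc : D.Ch v 55 (fun i => W.2 (W.1 - 110 + i)) := hs.2.1.sub (by omega)
  exact hc.A2 le_rfl hp hq hu hw (hpW.sub (by omega)) (hqW.sub (by omega))
    (lu.pre (by norm_num)) (lw.pre (by norm_num))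

end AbsDrawing
end SDE
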