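import Pool.Agent.SDL.PTwo
import Pool.Agent.SDE.AltS

/-!
# SDL/PFour
(P4): alternating pairs.
-/

namespace SDE
namespace AbsDrawing

variable {V : Type*} {D : AbsDrawing V} {v : V}

/-- Two chains, `a, b` high for the first and `c, d` high for the second; if `ab` and `cd` alternate
then one of the four points is not low for the last 55 elements of the other chain. Proof:
suppose all four are low. Then with the chains `fun i => x (k - 55 + i)`, `fun i => y (l - 55 + i)`
(`Ch.sub`, `Hi.sub`): `Ch.A2`: `cr a b c d = false`; `Ch.A1`: `cr a b v c = cr a b v d = false`,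
`cr c d v a = cr c d v b = false`. `p5` with triangle `(v, c, d)`, edge `ab`:
`cr a b c d ^^ cr a b v c ^^ cr a b v d = side v c d a ^^ side v c d b`, so
`btw v c d a = btw v c d b`, contradicting `Alt` (`Alt.symm`). (All points are different: `Alt`
gives `c, d ≠ a, b`; `a = b` or `c = d` would make the `btw` equal.) -/
theorem alt_core {k l : ℕ} {x y : ℕ → V} (hx : D.Ch v k x) (hk : 55 ≤ k) (hy : D.Ch v l y)
    (hl : 55 ≤ l) {a b c d : V} (ha : a ≠ v) (hb : b ≠ v) (hc : c ≠ v) (hd : d ≠ v)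
    (Ha : D.Hi v k x a) (Hb : D.Hi v k x b) (Hc : D.Hi v l y c) (Hd : D.Hi v l y d)
    (halt : D.Alt v a b c d) :
    ¬ (D.Lo v 55 (fun i => x (k - 55 + i)) c ∧ D.Lo v 55 (fun i => x (k - 55 + i)) d ∧
      D.Lo v 55 (fun i => y (l - 55 + i)) a ∧ D.Lo v 55 (fun i => y (l - 55 + i)) b) := by
  rintro ⟨Lc, Ld, La, Lb⟩
  have hX : D.Ch v 55 (fun i => x (k - 55 + i)) := hx.sub (by omega)
  have hY : D.Ch v 55 (fun i => y (l - 55 + i)) := hy.sub (by omega)
  have Ha' : D.Hi v 55 (fun i => x (k - 55 + i)) a := Ha.sub (by omega)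
  have Hb' : D.Hi v 55 (fun i => x (k - 55 + i)) b := Hb.sub (by omega)
  have Hc' : D.Hi v 55 (fun i => y (l - 55 + i)) c := Hc.sub (by omega)
  have Hd' : D.Hi v 55 (fun i => y (l - 55 + i)) d := Hd.sub (by omega)
  have e1 : D.cr a b c d = false := hX.A2 le_rfl ha hb hc hd Ha' Hb' Lc Ld
  have e2 : D.cr a b v c = false := hX.A1 le_rfl ha hb hc Ha' Hb' Lc
  have e3 : D.cr a b v d = false := hX.A1 le_rfl ha hb hd Ha' Hb' Ld
  have e4 : D.cr c d v a = false := hY.A1 le_rfl hc hd ha Hc' Hd' La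
  have e5 : D.cr c d v b = false := hY.A1 le_rfl hc hd hb Hc' Hd' Lb
  have halt' := Alt.symm ha hb hc hd halt
  obtain ⟨n1, n2, n3, n4, n5⟩ := halt
  have n6 : c ≠ d := fun e => n5 (by rw [e])
  have n7 : a ≠ b := fun e => halt'.2.2.2.2 (by rw [e])
  have e := D.p5 hc.symm hd.symm n6 ha n1.symm n3.symm hb n2.symm n4.symm n7
  rw [e1, e2, e3] at e
  unfold side at e
  rw [e4, e5] at e
  apply halt'.2.2.2.2
  revert e
  cases D.btw v c d a <;> cases D.btw v c d b <;> decide

/-- **(P4).** Proof: stacks `S` (for `a, b`), `S'` (for `c, d`); if one is `[]` then `n = 0`. By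
`alt_core` one of four points is not low for the last 55 elements of the other top chain, so by
`Ch.hi_trim` it is high for this chain without its last 55 elements, and `trim` (`c = 55`) gives
closeness of order `n - 55` of this point with both points of the other pair. Then `Cl.p2` (at
most twice, with `Cl.mono`, `Cl.symm`) gives `Cl v (n - 275) a c`: e.g. if `b, d` are close of
order `n - 55`, then `a, d` of order `n - 165` and `a, c` of order `n - 275`. -/
theorem Cl.p4 {n : ℕ} {a b c d : V} (ha : a ≠ v) (hb : b ≠ v) (hc : c ≠ v) (hd : d ≠ v)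
    (h1 : D.Cl v n a b) (h2 : D.Cl v n c d) (halt : D.Alt v a b c d) :
    D.Cl v (n - 275) a c := by
  obtain ⟨S, hS, hn, aA, bA⟩ := h1
  obtain ⟨S', hS', hn', cA, dA⟩ := h2
  have H1 : D.Cl v n a b := ⟨S, hS, hn, aA, bA⟩
  have H2 : D.Cl v n c d := ⟨S', hS', hn', cA, dA⟩
  cases S with
  | nil =>
    have h0 : n = 0 := by
      have h0 : wt ([] : List (ℕ × (ℕ → V))) = 0 := rfl
      omega
    subst h0
    exact Cl.zero a c
  | cons W S0 =>
    cases S' with
    | nil =>
      have h0 : n = 0 := by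
        have h0 : wt ([] : List (ℕ × (ℕ → V))) = 0 := rfl
        omega
      subst h0
      exact Cl.zero a c
    | cons W' S0' =>
      have hW : 165 ≤ W.1 := hS.1
      have hW' : 165 ≤ W'.1 := hS'.1
      have aH : D.Hi v W.1 W.2 a := aA
      have bH : D.Hi v W.1 W.2 b := bA
      have cH : D.Hi v W'.1 W'.2 c := cA
      have dH : D.Hi v W'.1 W'.2 d := dA
      have key := alt_core hS.2.1 (by omega) hS'.2.1 (by omega) ha hb hc hd aH bH cH dH halt
      have tr1 : ∀ u, u ≠ v → D.Hi v (W.1 - 55) W.2 u →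
          D.Cl v (n - 55) a u ∧ D.Cl v (n - 55) b u := by
        intro u hu huH
        obtain ⟨T, t1, t2, t3⟩ := trim S0 W 55 le_rfl (by norm_num) hS
          (fun y => y = a ∨ y = b ∨ y = u) (by
            rintro y (rfl | rfl | rfl)
            · exact ⟨ha, aH.pre (Nat.sub_le _ _)⟩
            · exact ⟨hb, bH.pre (Nat.sub_le _ _)⟩
            · exact ⟨hu, huH⟩)
        exact ⟨⟨T, t1, by omega, t3 a (Or.inl rfl), t3 u (Or.inr (Or.inr rfl))⟩,
          ⟨T, t1, by omega, t3 b (Or.inr (Or.inl rfl)), t3 u (Or.inr (Or.inr rfl))⟩⟩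
      have tr2 : ∀ u, u ≠ v → D.Hi v (W'.1 - 55) W'.2 u →
          D.Cl v (n - 55) c u ∧ D.Cl v (n - 55) d u := by
        intro u hu huH
        obtain ⟨T, t1, t2, t3⟩ := trim S0' W' 55 le_rfl (by norm_num) hS'
          (fun y => y = c ∨ y = d ∨ y = u) (by
            rintro y (rfl | rfl | rfl)
            · exact ⟨hc, cH.pre (Nat.sub_le _ _)⟩
            · exact ⟨hd, dH.pre (Nat.sub_le _ _)⟩
            · exact ⟨hu, huH⟩)
        exact ⟨⟨T, t1, by omega, t3 c (Or.inl rfl), t3 u (Or.inr (Or.inr rfl))⟩,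
          ⟨T, t1, by omega, t3 d (Or.inr (Or.inl rfl)), t3 u (Or.inr (Or.inr rfl))⟩⟩
      by_cases k1 : D.Lo v 55 (fun i => W.2 (W.1 - 55 + i)) c
      · by_cases k2 : D.Lo v 55 (fun i => W.2 (W.1 - 55 + i)) d
        · by_cases k3 : D.Lo v 55 (fun i => W'.2 (W'.1 - 55 + i)) a
          · have k4 : ¬ D.Lo v 55 (fun i => W'.2 (W'.1 - 55 + i)) b :=
              fun k4 => key ⟨k1, k2, k3, k4⟩
            have hb' := hS'.2.1.hi_trim hb (by omega) k4
            have q := (tr2 b hb hb').1.symm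
            exact (Cl.p2 ha hb hc (H1.mono (Nat.sub_le n 55)) q).mono (by omega)
          · have ha' := hS'.2.1.hi_trim ha (by omega) k3
            exact (tr2 a ha ha').1.symm.mono (by omega)
        · have hd' := hS.2.1.hi_trim hd (by omega) k2
          have q := (tr1 d hd hd').1
          exact (Cl.p2 ha hd hc q (H2.symm.mono (Nat.sub_le n 55))).mono (by omega)
      · have hc' := hS.2.1.hi_trim hc (by omega) k1
        exact (tr1 c hc hc').1.mono (by omega)

end AbsDrawing
end SDE
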