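import Pool.Agent.SDL.Graft
import Pool.Agent.SDL.PFive

/-!
# SDL/PSeven
(P7): splitting.
-/

namespace SDE
namespace AbsDrawing

variable {V : Type*} {D : AbsDrawing V} {v : V}

/-- **(P7).** Proof. Let `N` be the largest number with `Cl v N z z` (`Cl.bdd`; `Nat.findGreatest` or
a maximum), `N ≥ t + 56`, and `S` its stack; `wt S = N` by maximality. `split_wt` with
`th = t + 55 < wt S`: `S = T ++ W :: S0`, `wt S0 ≤ t + 55 < (W.1 - 220) + wt S0`. Put
`i0 = t + 55 - wt S0 + 220`; so `220 ≤ i0 < W.1`. `x a = W.2 (i0 - 5 + a)`, `a : Fin 5`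
(injective: `Ch.inj`; `≠ v`: `Ch.ne`). Common stack of `x a` and `z`:
`(i0 - 55, W.2) :: S0` (`Ch.pre`, `i0 - 55 ≥ 165`), weight `(i0 - 55 - 220) + wt S0 ≥ t`
(`omega`); `x a` is above it because its index is `≥ i0 - 55` (`Ch.cr1`); `z` is above it because
`Hi v (W.1 - 55) W.2 z` (`desc` if `T ≠ []`, `Hi.pre` if `T = []`) and `i0 - 55 ≤ W.1 - 55`. Suppose
`a ≠ b`, w.l.o.g. `a < b` (`Cl.symm`), and `Cl v (t + 331) (x a) (x b)` with stack `S'`. By
`replace` (indices `i0 - 5 + a < i0 - 5 + b < i0`) there is `S''` with `z` above and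
`wt S' + wt T + (W.1 - i0) ≤ wt S'' + 275`. `wt S'' ≤ N = wt T + (W.1 - 220) + wt S0` by
maximality. So `t + 331 ≤ wt S' ≤ (W.1 - 220) + wt S0 + 275 - (W.1 - i0) = i0 + 55 + wt S0 =
t + 330`: contradiction (`omega`). -/
theorem Cl.p7 [Fintype V] {t : ℕ} {z : V} (hz : z ≠ v) (h : D.Cl v (t + 56) z z) :
    ∃ x : Fin 5 → V, Function.Injective x ∧ (∀ a, x a ≠ v ∧ D.Cl v t (x a) z) ∧
      ∀ a b, a ≠ b → ¬ D.Cl v (t + 331) (x a) (x b) := by
  classical
  -- the largest order of closeness of `z` to itself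
  obtain ⟨N, hN1, hN2⟩ : ∃ N, D.Cl v N z z ∧ ∀ M, D.Cl v M z z → M ≤ N := by
    have hb : ∀ M, D.Cl v M z z → M ≤ Fintype.card V := by
      intro M hM
      by_contra hlt
      exact Cl.bdd z (hM.mono (by omega))
    refine ⟨Nat.findGreatest (fun M => D.Cl v M z z) (Fintype.card V), ?_, fun M hM =>
      Nat.le_findGreatest (hb M hM) hM⟩
    exact Nat.findGreatest_spec (P := fun M => D.Cl v M z z) (m := 0) (Nat.zero_le _)
      (Cl.zero z z)
  have hNt := hN2 _ h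
  obtain ⟨S, hS, hw, hz1, -⟩ := hN1
  obtain ⟨T, W, S0, rfl, h1, h2⟩ := split_wt S (t + 55) (by omega)
  have hmax : ∀ S' : List (ℕ × (ℕ → V)), D.IsStk v S' → D.Above v S' z → wt S' ≤ N :=
    fun S' ha hb => hN2 _ ⟨S', ha, le_rfl, hb, hb⟩
  have hwS := hmax _ hS hz1
  have hWw : wt (W :: S0) = (W.1 - 220) + wt S0 := rfl
  have hap := wt_append T (W :: S0)
  have htl : D.IsStk v (W :: S0) := hS.tail
  obtain ⟨hk, hch, hab, hS0⟩ := htl
  have hzW : D.Hi v (W.1 - 55) W.2 z := by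
    by_cases hT : T = []
    · subst hT
      exact Hi.pre (k := W.1) hz1 (by omega)
    · exact desc hT hS hz hz1
  obtain ⟨i0, hi0⟩ : ∃ i0, i0 = t + 55 - wt S0 + 220 := ⟨_, rfl⟩
  have hi0W : i0 < W.1 := by omega
  have hfar : ∀ a b : Fin 5, a < b →
      ¬ D.Cl v (t + 331) (W.2 (i0 - 5 + (a : ℕ))) (W.2 (i0 - 5 + (b : ℕ))) := by
    rintro a b hlt ⟨S', hs', hwt', ha', hb'⟩
    have hlt' : (a : ℕ) < (b : ℕ) := hlt
    have hb5 := b.2
    obtain ⟨S'', hs'', hz'', hineq⟩ := replace hS hz hz1 hs' (i := i0 - 5 + (a : ℕ))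
      (j := i0 - 5 + (b : ℕ)) (i0 := i0) (by omega) (by omega) hi0W ha' hb'
    have := hmax _ hs'' hz''
    omega
  refine ⟨fun a => W.2 (i0 - 5 + (a : ℕ)), ?_, ?_, ?_⟩
  · intro a b hab'
    have ha := a.2
    have hb := b.2
    have := hch.inj (i := i0 - 5 + (a : ℕ)) (j := i0 - 5 + (b : ℕ)) (by omega) (by omega) hab'
    apply Fin.ext
    omega
  · intro a
    have ha := a.2
    refine ⟨hch.ne _ (by omega), (i0 - 55, W.2) :: S0, ⟨?_, hch.pre (by omega), ?_, hS0⟩, ?_,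
      ?_, ?_⟩
    · show 165 ≤ i0 - 55
      omega
    · intro i hi
      have hi' : i < i0 - 55 := hi
      exact hab i (by omega)
    · show t ≤ (i0 - 55 - 220) + wt S0
      omega
    · intro i j h3 h4 _
      have h4' : j < i0 - 55 := h4
      exact hch.cr1 i j (i0 - 5 + (a : ℕ)) h3 (by omega) (by omega)
    · exact Hi.pre hzW (by show i0 - 55 ≤ W.1 - 55; omega)
  · intro a b hab' hc
    rcases lt_or_gt_of_ne hab' with h3 | h3
    · exact hfar a b h3 hc
    · exact hfar b a h3 hc.symm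

end AbsDrawing
end SDE
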