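import Pool.Agent.SDL.PTwo
import Pool.Agent.SDE.Chain

/-!
# SDL/PSix
(P6): a W-block of close elements contains a high element.
-/

namespace SDE
namespace AbsDrawing

variable {V : Type*} [DecidableEq V] {D : AbsDrawing V} {v : V}

omit [DecidableEq V] in
private theorem PSix_mono {m : ℕ} {x : ℕ → V} (hm : 3 ≤ m)
    (h : ∀ i j l, i < j → j < l → l < m → D.btw v (x i) (x l) (x j) = true) :
    (∀ i j, i < j → j < m → D.th v (x i) < D.th v (x j)) ∨
      (∀ i j, i < j → j < m → D.th v (x j) < D.th v (x i)) := by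
  have h' : ∀ i j l, i < j → j < l → l < m →
      (D.th v (x i) < D.th v (x j) ∧ D.th v (x j) < D.th v (x l)) ∨
        (D.th v (x l) < D.th v (x j) ∧ D.th v (x j) < D.th v (x i)) := by
    intro i j l h1 h2 h3
    have h4 := h i j l h1 h2 h3
    unfold btw at h4
    rw [decide_eq_true_eq] at h4
    exact h4
  rcases h' 0 1 2 (by omega) (by omega) (by omega) with ⟨h1, h2⟩ | ⟨h1, h2⟩
  · left
    have h0 : ∀ j, 0 < j → j < m → D.th v (x 0) < D.th v (x j) := by
      intro j hj hjm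
      rcases Nat.lt_or_ge 1 j with h3 | h3
      · rcases h' 0 1 j (by omega) h3 hjm with ⟨h4, h5⟩ | ⟨h4, h5⟩
        · exact h4.trans h5
        · exact absurd h1 (not_lt.2 h5.le)
      · have : j = 1 := by omega
        rw [this]
        exact h1
    intro i j hij hj
    rcases Nat.eq_zero_or_pos i with h3 | h3
    · rw [h3]
      exact h0 j (by omega) hj
    · rcases h' 0 i j h3 hij hj with ⟨h4, h5⟩ | ⟨h4, h5⟩
      · exact h5
      · exact absurd (h0 i h3 (by omega)) (not_lt.2 h5.le)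
  · right
    have h0 : ∀ j, 0 < j → j < m → D.th v (x j) < D.th v (x 0) := by
      intro j hj hjm
      rcases Nat.lt_or_ge 1 j with h3 | h3
      · rcases h' 0 1 j (by omega) h3 hjm with ⟨h4, h5⟩ | ⟨h4, h5⟩
        · exact absurd h2 (not_lt.2 h4.le)
        · exact h4.trans h5
      · have : j = 1 := by omega
        rw [this]
        exact h2
    intro i j hij hj
    rcases Nat.eq_zero_or_pos i with h3 | h3
    · rw [h3]
      exact h0 j (by omega) hj
    · rcases h' 0 i j h3 hij hj with ⟨h4, h5⟩ | ⟨h4, h5⟩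
      · exact absurd (h0 i h3 (by omega)) (not_lt.2 h4.le)
      · exact h4

/-- **(P6).** Proof: `WBlock.chain` with `G = 4 ^ m` gives `x 0, ..., x (m-1)`, a `TChain`; every
`x i` is some `z k`, `k < 4 ^ m` (`x i ∈ E` and `TChain.notU`). It is a chain: `D.Ch v m x` (`ne`;
`cr1`; `mono` from `btw1`: the real numbers `th v (x i)` satisfy: for `i < j < l` the middle one is
between the outer ones, and they are different (`inj`, `th_inj`), so the sequence is strictly
increasing or strictly decreasing on `0..m-1`; e.g. compare all with `th v (x 0) < th v (x 1)` or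
`>`). `Cl v n (x 0) w` and `Cl v n (x 1) w` give `Cl v (n - 110) (x 0) (x 1)` (`Cl.p2`, `Cl.symm`,
`w ≠ v` since `w ∈ E`, `v ∉ E`). Let `S` be its stack. If `S = []` then put `S' = []`; if
`S = W :: S0`: for `l ≥ 2`, `cr (x 0) (x 1) v (x l) = true`, so `hi_of_cross` gives
`Hi v (W.1 - 55) W.2 (x l)`, and `trim` (`c = 55`, `A u := ∃ l, 2 ≤ l ∧ l < m ∧ u = x l`) gives `S'`
with weight `≥ n - 165` and all `x l`, `2 ≤ l < m`, above. Then `(m - 3, fun i => x (2 + i)) :: S'` is
a stack (`m - 3 ≥ 165`; `Ch.sub`) of weight `≥ (n - 165) + (m - 3 - 220)`, and `x (m - 1)` is above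
it: for `i < j < m - 3`: `cr (x (2+i)) (x (2+j)) v (x (m-1)) = true` (`cr1`). -/
theorem Cl.p6 {n m : ℕ} {w : V} {E : Finset V} {z : ℕ → V} (hm : 168 ≤ m)
    (hB : D.WBlock v w E (4 ^ m) z) (hc : ∀ i, i < 4 ^ m → D.Cl v n (z i) w) :
    ∃ i, i < 4 ^ m ∧ D.Cl v (n - 165 + (m - 223)) (z i) (z i) := by
  obtain ⟨x, hxE, hT⟩ := hB.chain m le_rfl
  have hz : ∀ i, i < m → ∃ k, k < 4 ^ m ∧ x i = z k := by
    intro i hi
    by_contra hcon
    push Not at hcon
    exact hT.notU i hi (Finset.mem_filter.2 ⟨hxE i hi, hcon⟩)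
  have hch : D.Ch v m x :=
    ⟨hT.ne, PSix_mono (by omega) fun i j l h1 h2 h3 => hT.btw1 i j l h1 h2 h3, hT.cr1⟩
  have hwv : w ≠ v := by
    rintro rfl
    exact hB.vX hB.wX
  have hcx : ∀ i, i < m → D.Cl v n (x i) w := by
    intro i hi
    obtain ⟨k, hk, he⟩ := hz i hi
    rw [he]
    exact hc k hk
  have h01 : D.Cl v (n - 110) (x 0) (x 1) :=
    Cl.p2 (hT.ne 0 (by omega)) hwv (hT.ne 1 (by omega)) (hcx 0 (by omega))
      (hcx 1 (by omega)).symm
  have key : ∃ S', D.IsStk v S' ∧ n - 165 ≤ wt S' ∧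
      ∀ l, 2 ≤ l → l < m → D.Above v S' (x l) := by
    obtain ⟨S, hS, hw, h0, h1⟩ := h01
    cases S with
    | nil =>
      refine ⟨[], trivial, ?_, fun l _ _ => trivial⟩
      unfold wt at hw
      omega
    | cons W S0 =>
      have hS' := hS
      obtain ⟨hW1, hW2, -, -⟩ := hS'
      obtain ⟨S', g1, g2, g3⟩ := trim S0 W 55 le_rfl (by omega) hS
        (fun u => ∃ l, 2 ≤ l ∧ l < m ∧ u = x l) (by
          rintro u ⟨l, hl2, hlm, rfl⟩
          exact ⟨hT.ne l hlm, hi_of_cross hW2 (by omega) (hT.ne 0 (by omega))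
            (hT.ne 1 (by omega)) (hT.ne l hlm) h0 h1 (hT.cr1 0 1 l (by omega) (by omega) hlm)⟩)
      exact ⟨S', g1, by omega, fun l hl2 hlm => g3 _ ⟨l, hl2, hlm, rfl⟩⟩
  obtain ⟨S', g1, g2, g3⟩ := key
  obtain ⟨k, hk, he⟩ := hz (m - 1) (by omega)
  have hHi : D.Above v ((m - 3, fun i => x (2 + i)) :: S') (z k) := by
    rw [← he]
    intro i j hij hj _
    exact hT.cr1 (2 + i) (2 + j) (m - 1) (by omega) (by dsimp at hj; omega) (by omega)
  refine ⟨k, hk, (m - 3, fun i => x (2 + i)) :: S', ⟨by dsimp; omega, hch.sub (by dsimp; omega),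
    fun i hi => g3 _ (by omega) (by dsimp at hi; omega), g1⟩, ?_, hHi, hHi⟩
  change n - 165 + (m - 223) ≤ (m - 3 - 220) + wt S'
  omega

end AbsDrawing
end SDE
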