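import Mathlib

/-!
# SDL/Sel
Two monotone sequences of 55 real numbers: disjoint neighbouring pairs.
-/

namespace SDE

/-- `c` lies in the closed interval with endpoints `a, b`. -/
def InI (a b c : ℝ) : Prop := (a ≤ c ∧ c ≤ b) ∨ (b ≤ c ∧ c ≤ a)

private theorem inI_iff (a b c : ℝ) : InI a b c ↔ min a b ≤ c ∧ c ≤ max a b := by
  unfold InI
  rcases le_total a b with h | h
  · rw [min_eq_left h, max_eq_right h]
    constructor
    · rintro (⟨h1, h2⟩ | ⟨h1, h2⟩)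
      · exact ⟨h1, h2⟩
      · exact ⟨by linarith, by linarith⟩
    · intro h1
      exact Or.inl h1
  · rw [min_eq_right h, max_eq_left h]
    constructor
    · rintro (⟨h1, h2⟩ | ⟨h1, h2⟩)
      · exact ⟨by linarith, by linarith⟩
      · exact ⟨h1, h2⟩
    · intro h1
      exact Or.inr h1

private theorem core (m M m' M' p q u v : ℝ) (h : M < m' ∨ M' < m)
    (hM : ¬ (p ≤ M ∧ M ≤ q)) (hM' : ¬ (p ≤ M' ∧ M' ≤ q))
    (p1 : p ≤ u) (p2 : p ≤ v) (q1 : u ≤ q) (q2 : v ≤ q)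
    (hA : (m ≤ u ∧ u ≤ M) ∨ (m ≤ v ∧ v ≤ M)) (hB : (m' ≤ u ∧ u ≤ M') ∨ (m' ≤ v ∧ v ≤ M')) :
    False := by
  rcases h with h | h
  · rcases hA with ⟨a1, a2⟩ | ⟨a1, a2⟩
    · rcases hB with ⟨b1, b2⟩ | ⟨b1, b2⟩
      · linarith
      · exact hM ⟨le_trans p1 a2, le_trans (le_of_lt h) (le_trans b1 q2)⟩
    · rcases hB with ⟨b1, b2⟩ | ⟨b1, b2⟩
      · exact hM ⟨le_trans p2 a2, le_trans (le_of_lt h) (le_trans b1 q1)⟩
      · linarith
  · rcases hA with ⟨a1, a2⟩ | ⟨a1, a2⟩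
    · rcases hB with ⟨b1, b2⟩ | ⟨b1, b2⟩
      · linarith
      · exact hM' ⟨le_trans p2 b2, le_trans (le_of_lt h) (le_trans a1 q1)⟩
    · rcases hB with ⟨b1, b2⟩ | ⟨b1, b2⟩
      · exact hM' ⟨le_trans p1 b2, le_trans (le_of_lt h) (le_trans a1 q2)⟩
      · linarith

private theorem key (a b a' b' u v : ℝ) (h : max a b < min a' b' ∨ max a' b' < min a b)
    (h1 : ¬ InI u v a) (h2 : ¬ InI u v b) (h3 : ¬ InI u v a') (h4 : ¬ InI u v b') :
    (¬ InI a b u ∧ ¬ InI a b v) ∨ (¬ InI a' b' u ∧ ¬ InI a' b' v) := by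
  rw [inI_iff] at h1 h2 h3 h4
  have hM : ¬ (min u v ≤ max a b ∧ max a b ≤ max u v) := by
    rcases max_choice a b with h5 | h5
    · rw [h5]; exact h1
    · rw [h5]; exact h2
  have hM' : ¬ (min u v ≤ max a' b' ∧ max a' b' ≤ max u v) := by
    rcases max_choice a' b' with h5 | h5
    · rw [h5]; exact h3
    · rw [h5]; exact h4
  have p1 : min u v ≤ u := min_le_left _ _
  have p2 : min u v ≤ v := min_le_right _ _
  have q1 : u ≤ max u v := le_max_left _ _
  have q2 : v ≤ max u v := le_max_right _ _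
  by_cases hA : InI a b u ∨ InI a b v
  · right
    refine ⟨fun hu => ?_, fun hv => ?_⟩
    · rw [inI_iff, inI_iff] at hA
      rw [inI_iff] at hu
      exact core _ _ _ _ _ _ u v h hM hM' p1 p2 q1 q2 hA (Or.inl hu)
    · rw [inI_iff, inI_iff] at hA
      rw [inI_iff] at hv
      exact core _ _ _ _ _ _ u v h hM hM' p1 p2 q1 q2 hA (Or.inr hv)
  · left
    exact ⟨fun hu => hA (Or.inl hu), fun hv => hA (Or.inr hv)⟩

private theorem sep (h : ℕ → ℝ)
    (hh : (∀ i j, i < j → j < 55 → h i < h j) ∨ (∀ i j, i < j → j < 55 → h j < h i))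
    (a b : ℕ) (hab : a < b) (hb : b < 27) :
    max (h (2 * a)) (h (2 * a + 1)) < min (h (2 * b)) (h (2 * b + 1)) ∨
    max (h (2 * b)) (h (2 * b + 1)) < min (h (2 * a)) (h (2 * a + 1)) := by
  rcases hh with hh | hh
  · left
    have h1 := hh (2 * a) (2 * b) (by omega) (by omega)
    have h2 := hh (2 * a) (2 * b + 1) (by omega) (by omega)
    have h3 := hh (2 * a + 1) (2 * b) (by omega) (by omega)
    have h4 := hh (2 * a + 1) (2 * b + 1) (by omega) (by omega)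
    exact max_lt (lt_min h1 h2) (lt_min h3 h4)
  · right
    have h1 := hh (2 * a) (2 * b) (by omega) (by omega)
    have h2 := hh (2 * a) (2 * b + 1) (by omega) (by omega)
    have h3 := hh (2 * a + 1) (2 * b) (by omega) (by omega)
    have h4 := hh (2 * a + 1) (2 * b + 1) (by omega) (by omega)
    exact max_lt (lt_min h1 h3) (lt_min h2 h4)

private theorem sep' (h : ℕ → ℝ)
    (hh : (∀ i j, i < j → j < 55 → h i < h j) ∨ (∀ i j, i < j → j < 55 → h j < h i))
    (a b : ℕ) (hab : a ≠ b) (ha : a < 27) (hb : b < 27) :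
    max (h (2 * a)) (h (2 * a + 1)) < min (h (2 * b)) (h (2 * b + 1)) ∨
    max (h (2 * b)) (h (2 * b + 1)) < min (h (2 * a)) (h (2 * a + 1)) := by
  rcases Nat.lt_or_gt_of_ne hab with h1 | h1
  · exact sep h hh a b h1 hb
  · exact (sep h hh b a h1 ha).symm

private theorem cnt (h : ℕ → ℝ)
    (hh : (∀ i j, i < j → j < 55 → h i < h j) ∨ (∀ i j, i < j → j < 55 → h j < h i)) (c : ℝ) :
    ∃ B : Finset ℕ, B.card ≤ 1 ∧ ∀ s, s < 27 → InI (h (2 * s)) (h (2 * s + 1)) c → s ∈ B := by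
  classical
  refine ⟨(Finset.range 27).filter (fun s => InI (h (2 * s)) (h (2 * s + 1)) c), ?_, ?_⟩
  · rw [Finset.card_le_one]
    intro a ha b hb
    rw [Finset.mem_filter, Finset.mem_range, inI_iff] at ha hb
    by_contra hne
    rcases sep' h hh a b hne ha.1 hb.1 with h1 | h1
    · linarith [ha.2.1, ha.2.2, hb.2.1, hb.2.2]
    · linarith [ha.2.1, ha.2.2, hb.2.1, hb.2.2]
  · intro s hs h1
    rw [Finset.mem_filter, Finset.mem_range]
    exact ⟨hs, h1⟩

private theorem cntQ (Q : Finset ℕ) (hQ : Q.card ≤ 2) :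
    ∃ B : Finset ℕ, B.card ≤ 2 ∧ ∀ s, (2 * s ∈ Q ∨ 2 * s + 1 ∈ Q) → s ∈ B := by
  refine ⟨Q.image (fun q => q / 2), le_trans Finset.card_image_le hQ, ?_⟩
  intro s hs
  rw [Finset.mem_image]
  rcases hs with hs | hs
  · exact ⟨2 * s, hs, by omega⟩
  · exact ⟨2 * s + 1, hs, by omega⟩

private theorem pick (B : Finset ℕ) (hB : B.card < 27) : ∃ s, s < 27 ∧ s ∉ B := by
  have h : B.card < (Finset.range 27).card := by simpa using hB
  obtain ⟨s, hs, hs'⟩ := Finset.exists_mem_notMem_of_card_lt_card h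
  exact ⟨s, Finset.mem_range.mp hs, hs'⟩

/-- **Selection lemma.** Proof. Consider the 27 disjoint pairs `(2s, 2s+1)`, `s < 27`, of indices of
`f` (all `< 55`). At most 2 contain an element of `Q1`, at most one has `r` in its closed interval
(the closed intervals `[f (2s), f (2s+1)]` are pairwise disjoint by strict monotonicity). So two of
them, `I` and `I'`, remain. Of the 27 pairs of indices of `g` at most 2 contain an element of `Q2`,
at most one has `r` in its closed interval, at most 4 have one of the 4 endpoints of `I`, `I'` in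
their closed interval. So one pair `J` remains. The closed interval of `J` contains no endpoint of
`I, I'`. So each of the closed intervals of `I`, `I'` is disjoint from the closed interval of `J`
or contains it in its interior; the second alternative cannot hold for both since the intervals of
`I` and `I'` are disjoint. Choose the one which is disjoint; then no endpoint of one interval lies
in the other one. -/
theorem sel (f g : ℕ → ℝ)
    (hf : (∀ i j, i < j → j < 55 → f i < f j) ∨ (∀ i j, i < j → j < 55 → f j < f i))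
    (hg : (∀ i j, i < j → j < 55 → g i < g j) ∨ (∀ i j, i < j → j < 55 → g j < g i))
    (r : ℝ) (Q1 Q2 : Finset ℕ) (h1 : Q1.card ≤ 2) (h2 : Q2.card ≤ 2) :
    ∃ i j, i + 1 < 55 ∧ j + 1 < 55 ∧ i ∉ Q1 ∧ i + 1 ∉ Q1 ∧ j ∉ Q2 ∧ j + 1 ∉ Q2 ∧
      ¬ InI (f i) (f (i + 1)) r ∧ ¬ InI (g j) (g (j + 1)) r ∧
      ¬ InI (f i) (f (i + 1)) (g j) ∧ ¬ InI (f i) (f (i + 1)) (g (j + 1)) ∧
      ¬ InI (g j) (g (j + 1)) (f i) ∧ ¬ InI (g j) (g (j + 1)) (f (i + 1)) := by
  classical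
  obtain ⟨A1, cA1, hA1⟩ := cntQ Q1 h1
  obtain ⟨A2, cA2, hA2⟩ := cntQ Q2 h2
  obtain ⟨R1, cR1, hR1⟩ := cnt f hf r
  obtain ⟨R2, cR2, hR2⟩ := cnt g hg r
  obtain ⟨s, hs, hsB⟩ := pick (A1 ∪ R1) (by
    have := Finset.card_union_le A1 R1
    omega)
  obtain ⟨t, ht, htB⟩ := pick (insert s (A1 ∪ R1)) (by
    have h3 := Finset.card_union_le A1 R1
    have h4 := Finset.card_insert_le s (A1 ∪ R1)
    omega)
  rw [Finset.mem_union, not_or] at hsB
  rw [Finset.mem_insert, Finset.mem_union, not_or, not_or] at htB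
  obtain ⟨D1, cD1, hD1⟩ := cnt g hg (f (2 * s))
  obtain ⟨D2, cD2, hD2⟩ := cnt g hg (f (2 * s + 1))
  obtain ⟨D3, cD3, hD3⟩ := cnt g hg (f (2 * t))
  obtain ⟨D4, cD4, hD4⟩ := cnt g hg (f (2 * t + 1))
  obtain ⟨w, hw, hwB⟩ := pick (A2 ∪ (R2 ∪ (D1 ∪ (D2 ∪ (D3 ∪ D4))))) (by
    have e1 := Finset.card_union_le A2 (R2 ∪ (D1 ∪ (D2 ∪ (D3 ∪ D4))))
    have e2 := Finset.card_union_le R2 (D1 ∪ (D2 ∪ (D3 ∪ D4)))
    have e3 := Finset.card_union_le D1 (D2 ∪ (D3 ∪ D4))
    have e4 := Finset.card_union_le D2 (D3 ∪ D4)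
    have e5 := Finset.card_union_le D3 D4
    omega)
  simp only [Finset.mem_union, not_or] at hwB
  obtain ⟨w0, w1, w2, w3, w4, w5⟩ := hwB
  have k1 : ¬ InI (g (2 * w)) (g (2 * w + 1)) (f (2 * s)) := fun h => w2 (hD1 w hw h)
  have k2 : ¬ InI (g (2 * w)) (g (2 * w + 1)) (f (2 * s + 1)) := fun h => w3 (hD2 w hw h)
  have k3 : ¬ InI (g (2 * w)) (g (2 * w + 1)) (f (2 * t)) := fun h => w4 (hD3 w hw h)
  have k4 : ¬ InI (g (2 * w)) (g (2 * w + 1)) (f (2 * t + 1)) := fun h => w5 (hD4 w hw h)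
  have kr : ¬ InI (g (2 * w)) (g (2 * w + 1)) r := fun h => w1 (hR2 w hw h)
  have q1 : 2 * w ∉ Q2 := fun h => w0 (hA2 w (Or.inl h))
  have q2 : 2 * w + 1 ∉ Q2 := fun h => w0 (hA2 w (Or.inr h))
  have hne : s ≠ t := fun h => htB.1 h.symm
  rcases key _ _ _ _ _ _ (sep' f hf s t hne hs ht) k1 k2 k3 k4 with h5 | h5
  · exact ⟨2 * s, 2 * w, by omega, by omega, fun h => hsB.1 (hA1 s (Or.inl h)),
      fun h => hsB.1 (hA1 s (Or.inr h)), q1, q2, fun h => hsB.2 (hR1 s hs h), kr,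
      h5.1, h5.2, k1, k2⟩
  · exact ⟨2 * t, 2 * w, by omega, by omega, fun h => htB.2.1 (hA1 t (Or.inl h)),
      fun h => htB.2.1 (hA1 t (Or.inr h)), q1, q2, fun h => htB.2.2 (hR1 t ht h), kr,
      h5.1, h5.2, k3, k4⟩

end SDE
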