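import Pool.Agent.SDL.PZero
import Pool.Agent.SDL.Sel
import Pool.Agent.SDL.NN

/-!
# SDL/PTwo
(P2): closeness is approximately transitive.
-/

namespace SDE
namespace AbsDrawing

variable {V : Type*} {D : AbsDrawing V} {v : V}

/-- Three elements `y i, y j, y l` of the chain `V2 = (l2, y)` are high for the block of 55 elements
of `V1 = (k, x)` starting at `k - 110`, and `c` is high for `V2`: then `c` is high for `x` without
its last 110 elements. Proof: `Hi.pair3` for `V2` and `c`: two of the three, `p, q`, have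
`cr p q v c = true`. If `c` was low for the block, `Ch.A1` (for the block, a chain of size 55 by
`Ch.sub`) gives a contradiction; so by `Ch.hi_of_not_lo` (`a = k - 110`, `m = 55`) `c` is high for
the first `k - 110 + 1` elements; `Hi.pre`. -/
theorem hi_of_three {k l2 : ℕ} {x y : ℕ → V} (hx : D.Ch v k x) (hk : 165 ≤ k)
    (hy : D.Ch v l2 y) {i j l : ℕ} (hij : i < j) (hjl : j < l) (hl : l < l2)
    (hi1 : D.Hi v 55 (fun s => x (k - 110 + s)) (y i))
    (hj1 : D.Hi v 55 (fun s => x (k - 110 + s)) (y j))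
    (hl1 : D.Hi v 55 (fun s => x (k - 110 + s)) (y l)) {c : V} (hc : c ≠ v)
    (hcy : D.Hi v l2 y c) : D.Hi v (k - 110) x c := by
  have hB : D.Ch v 55 (fun s => x (k - 110 + s)) := hx.sub (by omega)
  have key : D.Hi v (k - 110 + 1) x c := by
    apply hx.hi_of_not_lo hc (a := k - 110) (m := 55) (by omega)
    intro Lc
    rcases Hi.pair3 hy hcy hij hjl hl with ⟨_, e⟩ | ⟨_, e⟩
    · have e2 := hB.A1 le_rfl (hy.ne i (by omega)) (hy.ne j (by omega)) hc hi1 hj1 Lc
      rw [e] at e2
      exact absurd e2 (by decide)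
    · have e2 := hB.A1 le_rfl (hy.ne j (by omega)) (hy.ne l hl) hc hj1 hl1 Lc
      rw [e] at e2
      exact absurd e2 (by decide)
  exact key.pre (by omega)

private theorem btw_of_not_inI {a b c : V} (h : ¬ InI (D.th v a) (D.th v b) (D.th v c)) :
    D.btw v a b c = false ∧ c ≠ a ∧ c ≠ b := by
  unfold InI at h
  rw [not_or, not_and_or, not_and_or, not_le, not_le, not_le, not_le] at h
  refine ⟨?_, ?_, ?_⟩
  · unfold btw
    rw [decide_eq_false_iff_not]
    rintro (⟨h1, h2⟩ | ⟨h1, h2⟩)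
    · rcases h.1 with h3 | h3 <;> linarith
    · rcases h.2 with h3 | h3 <;> linarith
  · rintro rfl
    rcases h.1 with h3 | h3
    · exact lt_irrefl _ h3
    · rcases h.2 with h4 | h4
      · linarith
      · exact lt_irrefl _ h4
  · rintro rfl
    rcases h.1 with h3 | h3
    · rcases h.2 with h4 | h4
      · exact lt_irrefl _ h4
      · linarith
    · exact lt_irrefl _ h3

private theorem card_le_two (P : ℕ → Prop) [DecidablePred P]
    (h : ¬ ∃ i j l, i < j ∧ j < l ∧ l < 55 ∧ P i ∧ P j ∧ P l) :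
    ((Finset.range 55).filter P).card ≤ 2 := by
  by_contra hc
  rw [not_le] at hc
  apply h
  have m : ∀ i, ((Finset.range 55).filter P).orderEmbOfFin rfl i ∈
      (Finset.range 55).filter P := fun i => Finset.orderEmbOfFin_mem _ rfl i
  refine ⟨((Finset.range 55).filter P).orderEmbOfFin rfl ⟨0, by omega⟩,
    ((Finset.range 55).filter P).orderEmbOfFin rfl ⟨1, by omega⟩,
    ((Finset.range 55).filter P).orderEmbOfFin rfl ⟨2, by omega⟩, ?_, ?_, ?_, ?_, ?_, ?_⟩
  · exact (OrderEmbedding.lt_iff_lt _).2 (by rw [Fin.mk_lt_mk]; omega)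
  · exact (OrderEmbedding.lt_iff_lt _).2 (by rw [Fin.mk_lt_mk]; omega)
  · exact Finset.mem_range.1 (Finset.mem_filter.1 (m _)).1
  · exact (Finset.mem_filter.1 (m _)).2
  · exact (Finset.mem_filter.1 (m _)).2
  · exact (Finset.mem_filter.1 (m _)).2

/-- An element `u` which is not high for the block starting at `k - 110` is low for the pair
`k - 55 + i`, `k - 55 + (i + 1)` if it is not between them. -/
private theorem low_pair {k : ℕ} {x : ℕ → V} (hx : D.Ch v k x) (hk : 165 ≤ k) {u : V}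
    (hu : u ≠ v) (hn : ¬ D.Hi v 55 (fun s => x (k - 110 + s)) u) {i : ℕ} (hi : i + 1 < 55)
    (hb : D.btw v (x (k - 55 + i)) (x (k - 55 + (i + 1))) u = false) :
    D.cr (x (k - 55 + i)) (x (k - 55 + (i + 1))) v u = false := by
  have L := hx.lo_of_not_hi hu (a := k - 110) (m := 55) (by norm_num) (by omega) hn
  have e1 : k - 110 + 55 - 1 + (i + 1) = k - 55 + i := by omega
  have e2 : k - 110 + 55 - 1 + (i + 2) = k - 55 + (i + 1) := by omega
  have h := L (i + 1) (i + 2) (by omega) (by omega)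
  simp only [e1, e2] at h
  exact h hb

/-- Main case of (P2): `w` is high for both chains; then three elements of one of the chains are
high for the block of the other. Proof: by contradiction. Let
`Q1 = {s < 55 | x (k - 55 + s) is high for the block of y}`, i.e.
`D.Hi v 55 (fun t => y (l2 - 110 + t)) (x (k - 55 + s))`, and `Q2` with `x, y` exchanged. Both have
at most 2 elements (three elements `s1 < s2 < s3` of `Q1` give the first alternative with indices
`k - 55 + s1, ...`). For `s < 55`, `s ∉ Q2` the element `y (l2 - 55 + s)` is not high for the block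
of `x`, so by `Ch.lo_of_not_hi` (`a = k - 110`, `m = 55`) it is low for the elements of `x` with
index `≥ k - 56`, in particular for all pairs of the last 55; same with `x, y` exchanged.
Apply `sel` to `f s = th v (x (k - 55 + s))`, `g s = th v (y (l2 - 55 + s))`, `r = th v w`:
pairs `a = x (k-55+i), a' = x (k-55+i+1)`, `b = y (l2-55+j), b' = y (l2-55+j+1)`. `¬ InI` gives
that all five points have different `th` (so they are different) and that all the `btw` needed in
`lemN` are `false` (`btw` true implies `InI`). `cr a a' v w = true`, `cr b b' v w = true` (`w` high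
for both), `cr a a' v b = cr a a' v b' = false` (`b, b'` low), `cr b b' v a = cr b b' v a' = false`.
`lemN`: contradiction. -/
theorem three_of_common {k l2 : ℕ} {x y : ℕ → V} (hx : D.Ch v k x) (hk : 165 ≤ k)
    (hy : D.Ch v l2 y) (hl2 : 165 ≤ l2) {w : V} (hw : w ≠ v) (hwx : D.Hi v k x w)
    (hwy : D.Hi v l2 y w) :
    (∃ i j l, i < j ∧ j < l ∧ l < l2 ∧ D.Hi v 55 (fun s => x (k - 110 + s)) (y i) ∧
      D.Hi v 55 (fun s => x (k - 110 + s)) (y j) ∧ D.Hi v 55 (fun s => x (k - 110 + s)) (y l)) ∨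
    (∃ i j l, i < j ∧ j < l ∧ l < k ∧ D.Hi v 55 (fun s => y (l2 - 110 + s)) (x i) ∧
      D.Hi v 55 (fun s => y (l2 - 110 + s)) (x j) ∧
      D.Hi v 55 (fun s => y (l2 - 110 + s)) (x l)) := by
  classical
  by_contra hcon
  rw [not_or] at hcon
  obtain ⟨hA, hB⟩ := hcon
  have hQ1 := card_le_two (fun s => D.Hi v 55 (fun t => y (l2 - 110 + t)) (x (k - 55 + s))) (by
    rintro ⟨i, j, l, h1, h2, h3, h4, h5, h6⟩
    exact hB ⟨k - 55 + i, k - 55 + j, k - 55 + l, by omega, by omega, by omega, h4, h5, h6⟩)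
  have hQ2 := card_le_two (fun s => D.Hi v 55 (fun t => x (k - 110 + t)) (y (l2 - 55 + s))) (by
    rintro ⟨i, j, l, h1, h2, h3, h4, h5, h6⟩
    exact hA ⟨l2 - 55 + i, l2 - 55 + j, l2 - 55 + l, by omega, by omega, by omega, h4, h5, h6⟩)
  have hf : (∀ i j, i < j → j < 55 → D.th v (x (k - 55 + i)) < D.th v (x (k - 55 + j))) ∨
      (∀ i j, i < j → j < 55 → D.th v (x (k - 55 + j)) < D.th v (x (k - 55 + i))) := by
    rcases hx.mono with hm | hm
    · exact Or.inl fun i j h1 h2 => hm _ _ (by omega) (by omega)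
    · exact Or.inr fun i j h1 h2 => hm _ _ (by omega) (by omega)
  have hg : (∀ i j, i < j → j < 55 → D.th v (y (l2 - 55 + i)) < D.th v (y (l2 - 55 + j))) ∨
      (∀ i j, i < j → j < 55 → D.th v (y (l2 - 55 + j)) < D.th v (y (l2 - 55 + i))) := by
    rcases hy.mono with hm | hm
    · exact Or.inl fun i j h1 h2 => hm _ _ (by omega) (by omega)
    · exact Or.inr fun i j h1 h2 => hm _ _ (by omega) (by omega)
  obtain ⟨i, j, hi, hj, q1, q2, q3, q4, n1, n2, n3, n4, n5, n6⟩ :=
    sel (fun s => D.th v (x (k - 55 + s))) (fun s => D.th v (y (l2 - 55 + s))) hf hg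
      (D.th v w) _ _ hQ1 hQ2
  have nq : ∀ (P : ℕ → Prop) [DecidablePred P] (t : ℕ), t < 55 →
      t ∉ (Finset.range 55).filter P → ¬ P t := by
    intro P _ t ht hm hP
    exact hm (Finset.mem_filter.2 ⟨Finset.mem_range.2 ht, hP⟩)
  have p1 := nq _ _ (by omega) q1
  have p2 := nq _ _ (by omega) q2
  have p3 := nq _ _ (by omega) q3
  have p4 := nq _ _ (by omega) q4
  obtain ⟨b0, u1, u2⟩ := btw_of_not_inI n1
  obtain ⟨d0, u3, u4⟩ := btw_of_not_inI n2
  obtain ⟨b1, u5, u6⟩ := btw_of_not_inI n3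
  obtain ⟨b2, u7, u8⟩ := btw_of_not_inI n4
  obtain ⟨d1, -, -⟩ := btw_of_not_inI n5
  obtain ⟨d2, -, -⟩ := btw_of_not_inI n6
  have ax := hx.ne (k - 55 + i) (by omega)
  have ax' := hx.ne (k - 55 + (i + 1)) (by omega)
  have ay := hy.ne (l2 - 55 + j) (by omega)
  have ay' := hy.ne (l2 - 55 + (j + 1)) (by omega)
  have nx : x (k - 55 + i) ≠ x (k - 55 + (i + 1)) := fun e => by
    have := hx.inj (by omega) (by omega) e
    omega
  have ny : y (l2 - 55 + j) ≠ y (l2 - 55 + (j + 1)) := fun e => by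
    have := hy.inj (by omega) (by omega) e
    omega
  exact D.lemN ax.symm ax'.symm nx ay u5 u6 ay' u7 u8 ny hw u1 u2 u3 u4 b0 b1 b2 d0 d1 d2
    (low_pair hx hk ay p3 hi b1) (low_pair hx hk ay' p4 hi b2)
    (low_pair hy hl2 ax p1 hj d1) (low_pair hy hl2 ax' p2 hj d2)
    (hwx _ _ (by omega) (by omega) b0) (hwy _ _ (by omega) (by omega) d0)

/-- **(P2).** Proof: stacks `S` (for `x, w`) and `S'` (for `w, y`). If one is `[]`, then `n = 0`
and `Cl.zero`. Otherwise top chains `(k, a)` and `(l2, b)`. By `three_of_common` one of two cases.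
First case: `hi_of_three` (with `c = y`) gives `Hi v (k - 110) a y`; `trim` for `S` with `c = 110`
and `A u := u = x ∨ u = y`. Second case: the same for `S'` and `x`. -/
theorem Cl.p2 {n : ℕ} {x w y : V} (hx : x ≠ v) (hw : w ≠ v) (hy : y ≠ v) (h1 : D.Cl v n x w)
    (h2 : D.Cl v n w y) : D.Cl v (n - 110) x y := by
  obtain ⟨S, hS, hn, hSx, hSw⟩ := h1
  obtain ⟨S', hS', hn', hSw', hSy⟩ := h2
  cases S with
  | nil =>
    have h0 : wt ([] : List (ℕ × (ℕ → V))) = 0 := rfl
    exact ⟨[], trivial, by omega, trivial, trivial⟩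
  | cons W S0 =>
    cases S' with
    | nil =>
      have h0 : wt ([] : List (ℕ × (ℕ → V))) = 0 := rfl
      exact ⟨[], trivial, by omega, trivial, trivial⟩
    | cons W' S0' =>
      have aw : D.Hi v W.1 W.2 w := hSw
      have aw' : D.Hi v W'.1 W'.2 w := hSw'
      have axx : D.Hi v W.1 W.2 x := hSx
      have ayy : D.Hi v W'.1 W'.2 y := hSy
      rcases three_of_common hS.2.1 hS.1 hS'.2.1 hS'.1 hw aw aw' with
        ⟨i, j, l, hij, hjl, hl, g1, g2, g3⟩ | ⟨i, j, l, hij, hjl, hl, g1, g2, g3⟩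
      · have hy1 : D.Hi v (W.1 - 110) W.2 y :=
          hi_of_three hS.2.1 hS.1 hS'.2.1 hij hjl hl g1 g2 g3 hy ayy
        obtain ⟨T, t1, t2, t3⟩ := trim S0 W 110 (by norm_num) le_rfl hS
          (fun u => u = x ∨ u = y) (by
            rintro u (rfl | rfl)
            · exact ⟨hx, axx.pre (Nat.sub_le _ _)⟩
            · exact ⟨hy, hy1⟩)
        exact ⟨T, t1, by omega, t3 x (Or.inl rfl), t3 y (Or.inr rfl)⟩
      · have hx1 : D.Hi v (W'.1 - 110) W'.2 x :=
          hi_of_three hS'.2.1 hS'.1 hS.2.1 hij hjl hl g1 g2 g3 hx axx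
        obtain ⟨T, t1, t2, t3⟩ := trim S0' W' 110 (by norm_num) le_rfl hS'
          (fun u => u = x ∨ u = y) (by
            rintro u (rfl | rfl)
            · exact ⟨hx, hx1⟩
            · exact ⟨hy, ayy.pre (Nat.sub_le _ _)⟩)
        exact ⟨T, t1, by omega, t3 x (Or.inl rfl), t3 y (Or.inr rfl)⟩

end AbsDrawing
end SDE
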