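import Pool.Agent.SDL.Trim
import Pool.Agent.SDL.Bd

/-!
# SDL/PZero
First properties of closeness; (P3).
-/

namespace SDE
namespace AbsDrawing

variable {V : Type*} {D : AbsDrawing V} {v : V}

theorem Cl.symm {n : ℕ} {x y : V} (h : D.Cl v n x y) : D.Cl v n y x := by
  obtain ⟨S, h1, h2, h3, h4⟩ := h
  exact ⟨S, h1, h2, h4, h3⟩

theorem Cl.mono {m n : ℕ} {x y : V} (hmn : m ≤ n) (h : D.Cl v n x y) : D.Cl v m x y := by
  obtain ⟨S, h1, h2, h3, h4⟩ := h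
  exact ⟨S, h1, hmn.trans h2, h3, h4⟩

theorem Cl.left {n : ℕ} {x y : V} (h : D.Cl v n x y) : D.Cl v n x x := by
  obtain ⟨S, h1, h2, h3, h4⟩ := h
  exact ⟨S, h1, h2, h3, h3⟩

theorem Cl.zero (x y : V) : D.Cl v 0 x y :=
  ⟨[], trivial, Nat.zero_le _, trivial, trivial⟩

/-- No closeness of order larger than the number of vertices (`wt_le`). -/
theorem Cl.bdd [Fintype V] (x : V) : ¬ D.Cl v (Fintype.card V + 1) x x := by
  rintro ⟨S, h1, h2, -, -⟩
  have h3 := wt_le h1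
  omega

/-- **(P3)**, strong form. Proof: take the stack `S` of `h`. If `S = []` then `n = 0` and `S` works.
If `S = W :: S0`: `hi_of_cross` gives `Hi v (W.1 - 55) W.2 u`; `trim` with `c = 55` and
`A y := y = p ∨ y = q ∨ y = u` (`Hi.pre` for `p, q`). -/
theorem Cl.p3s {n : ℕ} {p q u : V} (hp : p ≠ v) (hq : q ≠ v) (hu : u ≠ v) (h : D.Cl v n p q)
    (hc : D.cr p q v u = true) :
    ∃ S, D.IsStk v S ∧ n - 55 ≤ wt S ∧ D.Above v S p ∧ D.Above v S q ∧ D.Above v S u := by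
  obtain ⟨S, hS, hn, hpA, hqA⟩ := h
  cases S with
  | nil =>
    have h0 : wt ([] : List (ℕ × (ℕ → V))) = 0 := rfl
    exact ⟨[], trivial, by omega, trivial, trivial, trivial⟩
  | cons W S0 =>
    have hW : 165 ≤ W.1 := hS.1
    have hpH : D.Hi v W.1 W.2 p := hpA
    have hqH : D.Hi v W.1 W.2 q := hqA
    have huH := hi_of_cross hS.2.1 (by omega) hp hq hu hpH hqH hc
    obtain ⟨S', h1, h2, h3⟩ := trim S0 W 55 le_rfl (by norm_num) hS
      (fun y => y = p ∨ y = q ∨ y = u) (by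
        rintro y (rfl | rfl | rfl)
        · exact ⟨hp, hpH.pre (Nat.sub_le _ _)⟩
        · exact ⟨hq, hqH.pre (Nat.sub_le _ _)⟩
        · exact ⟨hu, huH⟩)
    exact ⟨S', h1, by omega, h3 p (Or.inl rfl), h3 q (Or.inr (Or.inl rfl)),
      h3 u (Or.inr (Or.inr rfl))⟩

/-- **(P3).** -/
theorem Cl.p3 {n : ℕ} {p q u : V} (hp : p ≠ v) (hq : q ≠ v) (hu : u ≠ v) (h : D.Cl v n p q)
    (hc : D.cr p q v u = true) : D.Cl v (n - 55) p u := by
  obtain ⟨S, h1, h2, h3, -, h5⟩ := Cl.p3s hp hq hu h hc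
  exact ⟨S, h1, h2, h3, h5⟩

end AbsDrawing
end SDE
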