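import Pool.Agent.SDE.TDefs

/-!
# SDL/StrA
Two segments with independent directions cross properly.
-/

open Set

namespace SDE

private theorem aux1 {r δ : ℝ} (hr : r ≠ 0) (hδ : δ ≠ 0) (A B m n u : ℝ)
    (h : A * m + B * n = δ * u) : r * (A / δ / r * m + B / δ / r * n) = u := by
  have : r * (A / δ / r * m + B / δ / r * n) = (A * m + B * n) / δ := by
    field_simp
  rw [this, h, mul_div_cancel_left₀ _ hδ]

private theorem aux2 {r δ : ℝ} (hr : r ≠ 0) (hδ : δ ≠ 0) (A w : ℝ)
    (h : A = δ * (r * w)) : A / δ / r = w := by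
  rw [h, mul_div_cancel_left₀ _ hδ, mul_div_cancel_left₀ _ hr]

/-- The affine homeomorphism used in `properCross_segments`. -/
private noncomputable def affH (x y p : ℂ) (r : ℝ) (hr : r ≠ 0)
    (hxy : x.re * y.im - x.im * y.re ≠ 0) : ℂ ≃ₜ ℂ where
  toFun z := ⟨((z - p).re * y.im - (z - p).im * y.re) / (x.re * y.im - x.im * y.re) / r,
    (x.re * (z - p).im - x.im * (z - p).re) / (x.re * y.im - x.im * y.re) / r⟩
  invFun w := p + ⟨r * (w.re * x.re + w.im * y.re), r * (w.re * x.im + w.im * y.im)⟩
  left_inv z := by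
    apply Complex.ext
    · simp only [Complex.add_re]
      rw [aux1 hr hxy _ _ _ _ (z - p).re (by ring)]
      simp
    · simp only [Complex.add_im]
      rw [aux1 hr hxy _ _ _ _ (z - p).im (by ring)]
      simp
  right_inv w := by
    apply Complex.ext
    · simp only [add_sub_cancel_left]
      exact aux2 hr hxy _ _ (by ring)
    · simp only [add_sub_cancel_left]
      exact aux2 hr hxy _ _ (by ring)
  continuous_toFun := by
    have h : Continuous (fun z : ℂ =>
      ((((z - p).re * y.im - (z - p).im * y.re) / (x.re * y.im - x.im * y.re) / r : ℝ) : ℂ) +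
      (((x.re * (z - p).im - x.im * (z - p).re) / (x.re * y.im - x.im * y.re) / r : ℝ) : ℂ)
        * Complex.I) := by fun_prop
    convert h using 2 with z
    rw [Complex.mk_eq_add_mul_I]
  continuous_invFun := by
    have h : Continuous (fun w : ℂ =>
      p + (((r * (w.re * x.re + w.im * y.re) : ℝ) : ℂ) +
      ((r * (w.re * x.im + w.im * y.im) : ℝ) : ℂ) * Complex.I)) := by fun_prop
    convert h using 2 with w
    rw [Complex.mk_eq_add_mul_I]

/-- Two segments `[a, b]` and `[c, d]` which have a common point `p` in the interior of both and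
independent directions cross properly at `p`. Proof. Let `x = b - a`, `y = d - c` (complex numbers),
`hxy : x.re * y.im - x.im * y.re ≠ 0`, `p = a + s x = c + t y` with `0 < s < 1`, `0 < t < 1`. Every
complex number is `α x + β y` with unique real `α, β`:
`α(w) = (w.re * y.im - w.im * y.re) / δ`, `β(w) = (x.re * w.im - x.im * w.re) / δ`,
`δ = x.re * y.im - x.im * y.re`. Put `r = min (min s (1-s)) (min t (1-t)) > 0` and
`e z = (α(z - p) + β(z - p) * I) / r`, an affine homeomorphism of `ℂ`
(inverse `w ↦ p + r (w.re x + w.im y)`), restricted to `source = {z | ‖e z‖ < 1}`,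
`target = ball 0 1` (build the `OpenPartialHomeomorph` by hand or from a `Homeomorph` by
`Homeomorph.toOpenPartialHomeomorph` and `OpenPartialHomeomorph.restr`, or by
`OpenPartialHomeomorph.mk` with `continuousOn` fields). For `z` in the source: if `z = a + u x` with
`u ∈ [0,1]` then `β(z - p) = 0`, so `(e z).im = 0`; conversely if `(e z).im = 0` then
`z = p + α x = a + (s + α) x` with `|α| < r`, so `0 ≤ s + α ≤ 1`. The same for `c, d` and the real
part. -/
theorem properCross_segments {a b c d p : ℂ}
    (hxy : (b - a).re * (d - c).im - (b - a).im * (d - c).re ≠ 0) {s t : ℝ} (hs : s ∈ Ioo (0 : ℝ) 1)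
    (ht : t ∈ Ioo (0 : ℝ) 1) (h1 : p = a + s * (b - a)) (h2 : p = c + t * (d - c)) :
    ProperCross ((fun u : ℝ => a + u * (b - a)) '' Icc 0 1)
      ((fun u : ℝ => c + u * (d - c)) '' Icc 0 1) p := by
  obtain ⟨x, hx⟩ : ∃ x, x = b - a := ⟨_, rfl⟩
  obtain ⟨y, hy⟩ : ∃ y, y = d - c := ⟨_, rfl⟩
  rw [← hx, ← hy] at hxy
  rw [← hx] at h1
  rw [← hy] at h2
  rw [← hx, ← hy]
  obtain ⟨hs0, hs1⟩ := hs
  obtain ⟨ht0, ht1⟩ := ht
  obtain ⟨r, hr0, hrs, hrs', hrt, hrt'⟩ :
      ∃ r : ℝ, 0 < r ∧ r ≤ s ∧ r ≤ 1 - s ∧ r ≤ t ∧ r ≤ 1 - t := by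
    refine ⟨min (min s (1 - s)) (min t (1 - t)), ?_, ?_, ?_, ?_, ?_⟩
    · exact lt_min (lt_min hs0 (by linarith)) (lt_min ht0 (by linarith))
    · exact (min_le_left _ _).trans (min_le_left _ _)
    · exact (min_le_left _ _).trans (min_le_right _ _)
    · exact (min_le_right _ _).trans (min_le_left _ _)
    · exact (min_le_right _ _).trans (min_le_right _ _)
  have hr : r ≠ 0 := hr0.ne'
  have hE : ∀ z, affH x y p r hr hxy z =
      ⟨((z - p).re * y.im - (z - p).im * y.re) / (x.re * y.im - x.im * y.re) / r,
      (x.re * (z - p).im - x.im * (z - p).re) / (x.re * y.im - x.im * y.re) / r⟩ := fun z => rfl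
  have hEi : ∀ w, (affH x y p r hr hxy).symm w =
      p + ⟨r * (w.re * x.re + w.im * y.re), r * (w.re * x.im + w.im * y.im)⟩ := fun z => rfl
  have hinv : ∀ z, z = p + ⟨r * ((affH x y p r hr hxy z).re * x.re +
      (affH x y p r hr hxy z).im * y.re), r * ((affH x y p r hr hxy z).re * x.im +
      (affH x y p r hr hxy z).im * y.im)⟩ := by
    intro z
    rw [← hEi]
    simp
  have hop : IsOpen ((affH x y p r hr hxy) ⁻¹' Metric.ball 0 1) :=
    Metric.isOpen_ball.preimage (affH x y p r hr hxy).continuous
  refine ⟨(affH x y p r hr hxy).toOpenPartialHomeomorphOfImageEq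
    ((affH x y p r hr hxy) ⁻¹' Metric.ball 0 1) hop (Metric.ball 0 1)
    (Set.image_preimage_eq _ (affH x y p r hr hxy).surjective), ?_, ?_, rfl, ?_⟩
  · change affH x y p r hr hxy p ∈ Metric.ball (0 : ℂ) 1
    rw [hE]
    have : (⟨((p - p).re * y.im - (p - p).im * y.re) / (x.re * y.im - x.im * y.re) / r,
      (x.re * (p - p).im - x.im * (p - p).re) / (x.re * y.im - x.im * y.re) / r⟩ : ℂ) = 0 := by
      apply Complex.ext <;> simp
    rw [this]
    simp
  · change affH x y p r hr hxy p = 0
    rw [hE]
    apply Complex.ext <;> simp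
  · intro z hz
    change affH x y p r hr hxy z ∈ Metric.ball (0 : ℂ) 1 at hz
    change (_ ↔ (affH x y p r hr hxy z).im = 0) ∧ (_ ↔ (affH x y p r hr hxy z).re = 0)
    rw [mem_ball_zero_iff] at hz
    have hre : |(affH x y p r hr hxy z).re| < 1 := (Complex.abs_re_le_norm _).trans_lt hz
    have him : |(affH x y p r hr hxy z).im| < 1 := (Complex.abs_im_le_norm _).trans_lt hz
    rw [abs_lt] at hre him
    constructor
    · constructor
      · rintro ⟨u, hu, rfl⟩
        rw [hE]
        simp only [h1, Complex.sub_re, Complex.sub_im, Complex.add_re, Complex.add_im,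
          Complex.mul_re, Complex.mul_im, Complex.ofReal_re, Complex.ofReal_im]
        rw [div_div, div_eq_zero_iff]
        left
        ring
      · intro h0
        refine ⟨s + r * (affH x y p r hr hxy z).re, ⟨?_, ?_⟩, ?_⟩
        · nlinarith
        · nlinarith
        · have h3 := hinv z
          rw [h0] at h3
          conv_rhs => rw [h3]
          rw [h1]
          apply Complex.ext
          · simp
            ring
          · simp
            ring
    · constructor
      · rintro ⟨u, hu, rfl⟩
        rw [hE]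
        simp only [h2, Complex.sub_re, Complex.sub_im, Complex.add_re, Complex.add_im,
          Complex.mul_re, Complex.mul_im, Complex.ofReal_re, Complex.ofReal_im]
        rw [div_div, div_eq_zero_iff]
        left
        ring
      · intro h0
        refine ⟨t + r * (affH x y p r hr hxy z).im, ⟨?_, ?_⟩, ?_⟩
        · nlinarith
        · nlinarith
        · have h3 := hinv z
          rw [h0] at h3
          conv_rhs => rw [h3]
          rw [h2]
          apply Complex.ext
          · simp
            ring
          · simp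
            ring

end SDE
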