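import Pool.Agent.SDL.PFour
import Pool.Agent.SDL.PFive
import Pool.Agent.SDL.PSix
import Pool.Agent.SDL.PSeven

/-!
# SDL/Sys
The closeness system.
-/

namespace SDE
namespace AbsDrawing

variable {V : Type*} [DecidableEq V] {D : AbsDrawing V}

theorem closeSys [Fintype V] (v : V) : D.CloseSys v (D.Cl v) where
  symm := Cl.symm
  mono := Cl.mono
  zero := Cl.zero
  left := Cl.left
  bdd := ⟨_, fun x _ => Cl.bdd x⟩
  p2 := Cl.p2
  p3 := Cl.p3
  p4 := Cl.p4
  p5 := Cl.p5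
  p6 := Cl.p6
  p7 := Cl.p7

end AbsDrawing
end SDE
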