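import Pool.Agent.SDL.MM

/-!
# SDL/TT
Lemma T (thresholds).
-/

namespace SDE
namespace AbsDrawing

variable {V : Type*} {D : AbsDrawing V} {v : V} {k : ℕ} {x : ℕ → V}

/-- **Lemma T (1).** If `u` is not low for the block `x a, ..., x (a+m-1)` then it is high for
`x 0, ..., x a`. Proof: `hn` gives `j < l < m` with `btw v (x (a+j)) (x (a+l)) u = false` and
`cr .. = true`. For `i < i' < a + 1` with `btw = false` apply `Ch.mono_hi` (`i ≤ a + j`,
`i' ≤ a ≤ a + l`). -/
theorem Ch.hi_of_not_lo (h : D.Ch v k x) {u : V} (hu : u ≠ v) {a m : ℕ} (ham : a + m ≤ k)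
    (hn : ¬ D.Lo v m (fun i => x (a + i)) u) : D.Hi v (a + 1) x u := by
  unfold Lo at hn
  push Not at hn
  obtain ⟨j, l, hjl, hlm, hb, hc⟩ := hn
  rw [Bool.ne_false_iff] at hc
  intro i i' hi hi' hf
  exact h.mono_hi hu hi (show a + j < a + l by omega) (show a + l < k by omega)
    (by omega) (by omega) hf hb hc

/-- **Lemma T (2).** If `u` is not high for the block `x a, ..., x (a+m-1)` then it is low for
`x (a+m-1), ..., x (k-1)`. Proof: `hn` gives `i < i' < m` with
`btw v (x (a+i)) (x (a+i')) u = false` and `cr .. = false`. Suppose `j < l` are indices of the last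
part with `btw = false` and `cr = true`; `Ch.mono_hi` (`a + i ≤ a+m-1+j`, `a + i' ≤ a+m-1+l`) gives
a contradiction. -/
theorem Ch.lo_of_not_hi (h : D.Ch v k x) {u : V} (hu : u ≠ v) {a m : ℕ} (hm : 1 ≤ m)
    (ham : a + m ≤ k) (hn : ¬ D.Hi v m (fun i => x (a + i)) u) :
    D.Lo v (k - (a + m - 1)) (fun i => x (a + m - 1 + i)) u := by
  unfold Hi at hn
  push Not at hn
  obtain ⟨i, i', hi, hi', hb, hc⟩ := hn
  intro j l hjl hl hf
  by_contra hcl
  rw [Bool.not_eq_false] at hcl
  exact hc (h.mono_hi hu (show a + i < a + i' by omega)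
    (show a + m - 1 + j < a + m - 1 + l by omega) (show a + m - 1 + l < k by omega) (by omega) (by omega) hb hf hcl)

/-- The form used for stacks: not low for the last `c` elements implies high for the others. From
`Ch.hi_of_not_lo` with `a = k - c`, `m = c` and `Hi.pre`. -/
theorem Ch.hi_trim (h : D.Ch v k x) {u : V} (hu : u ≠ v) {c : ℕ} (hc : c ≤ k)
    (hn : ¬ D.Lo v c (fun i => x (k - c + i)) u) : D.Hi v (k - c) x u :=
  Hi.pre (h.hi_of_not_lo hu (show k - c + c ≤ k by omega) hn) (Nat.le_succ _)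

end AbsDrawing
end SDE
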