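import Pool.Agent.SDL.Desc

/-!
# SDL/Trim
Trimming a stack.
-/

namespace SDE
namespace AbsDrawing

variable {V : Type*} {D : AbsDrawing V} {v : V}

/-- **Trim lemma.** `A` is a set of vertices all of which are high for the top chain `W` without its
last `c` elements. Then there is a stack, at most `c` lighter, with all of `A` above it. Proof:
induction on `S` (generalize `W`, `c`). If `165 ≤ W.1 - c`: take `(W.1 - c, W.2) :: S` (`Ch.pre`;
weight `(W.1 - c - 220) + wt S`). Otherwise `W.1 < 165 + c`, so `W.1 - 220 ≤ c - 55` (natural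
numbers, `omega`). If `S = []` take `[]`. If `S = W0 :: S0`: by `desc_step` every `u` with `A u` has
`Hi v (W0.1 - 55) W0.2 u`; the induction hypothesis for `W0 :: S0` with `c = 55` gives a stack of
weight `≥ wt (W0 :: S0) - 55`, and `wt (W :: W0 :: S0) ≤ (c - 55) + wt (W0 :: S0)`. -/
theorem trim : ∀ (S : List (ℕ × (ℕ → V))) (W : ℕ × (ℕ → V)) (c : ℕ), 55 ≤ c → c ≤ 110 →
    D.IsStk v (W :: S) → ∀ A : V → Prop, (∀ u, A u → u ≠ v ∧ D.Hi v (W.1 - c) W.2 u) →
    ∃ S', D.IsStk v S' ∧ wt (W :: S) ≤ wt S' + c ∧ ∀ u, A u → D.Above v S' u := by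
  intro S
  induction S with
  | nil =>
    intro W c hc1 hc2 hs A hA
    obtain ⟨h1, h2, h3, h4⟩ := hs
    by_cases hW : 165 ≤ W.1 - c
    · refine ⟨[(W.1 - c, W.2)], ⟨hW, h2.pre (by omega), fun i hi => h3 i ?_, h4⟩, ?_, fun u hu => ?_⟩
      · have hi' : i < W.1 - c := hi
        omega
      · simp only [wt]
        omega
      · exact (hA u hu).2
    · refine ⟨[], trivial, ?_, fun u _ => trivial⟩
      simp only [wt]
      omega
  | cons W0 S0 ih =>
    intro W c hc1 hc2 hs A hA
    have hs' := hs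
    obtain ⟨h1, h2, h3, h4⟩ := hs
    by_cases hW : 165 ≤ W.1 - c
    · refine ⟨(W.1 - c, W.2) :: W0 :: S0,
        ⟨hW, h2.pre (by omega), fun i hi => h3 i ?_, h4⟩, ?_, fun u hu => ?_⟩
      · have hi' : i < W.1 - c := hi
        omega
      · simp only [wt]
        omega
      · exact (hA u hu).2
    · obtain ⟨S', g1, g2, g3⟩ := ih W0 55 (le_refl _) (by norm_num) h4 A
        fun u hu => ⟨(hA u hu).1, desc_step hs' (hA u hu).1 hc2 (hA u hu).2⟩
      refine ⟨S', g1, ?_, g3⟩
      simp only [wt] at g2 ⊢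
      omega

end AbsDrawing
end SDE
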